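import Pool.Agent.K3R.Cls

/-!
# From configurations to polytopes
-/

set_option autoImplicit false

namespace Pool.Agent.K3R

section general

variable {V : Type} [AddCommGroup V] [Module ℝ V]

theorem face_hull {S A : Set V} {φ : V →ₗ[ℝ] ℝ} {c : ℝ}
    (h1 : ∀ x ∈ A, φ x = c) (h2 : ∀ x ∈ S, x ∉ A → φ x < c) {x : V}
    (hx : x ∈ convexHull ℝ S) (hφ : φ x = c) : x ∈ convexHull ℝ A := by
  classical
  obtain ⟨ι, _, w, z, hw, hw1, hz, rfl⟩ := mem_convexHull_iff_exists_fintype.1 hx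
  have hle : ∀ i, φ (z i) ≤ c := fun i => by
    by_cases h : z i ∈ A
    · exact (h1 _ h).le
    · exact (h2 _ (hz i) h).le
  have hsum : ∑ i, w i * (c - φ (z i)) = 0 := by
    rw [map_sum] at hφ
    simp only [map_smul, smul_eq_mul] at hφ
    simp only [mul_sub, Finset.sum_sub_distrib, hφ, ← Finset.sum_mul, hw1, one_mul, sub_self]
  have hall := (Finset.sum_eq_zero_iff_of_nonneg (fun i _ =>
    mul_nonneg (hw i) (sub_nonneg.2 (hle i)))).1 hsum
  have hzA : ∀ i, w i ≠ 0 → z i ∈ A := by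
    intro i hi
    by_contra hn
    have h3 := hall i (Finset.mem_univ i)
    rcases mul_eq_zero.1 h3 with h | h
    · exact hi h
    · have := h2 _ (hz i) hn
      linarith
  have hex : ∃ i, w i ≠ 0 := by
    by_contra hcon
    push Not at hcon
    rw [Finset.sum_congr rfl (fun i _ => hcon i)] at hw1
    simp at hw1
  obtain ⟨i₀, hi₀⟩ := hex
  refine mem_convexHull_of_exists_fintype w (fun i => if w i = 0 then z i₀ else z i) hw hw1 ?_ ?_
  · intro i
    by_cases hi : w i = 0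
    · simp only [hi, if_true]
      exact hzA i₀ hi₀
    · simp only [hi, if_false]
      exact hzA i hi
  · refine Finset.sum_congr rfl fun i _ => ?_
    by_cases hi : w i = 0
    · simp only [hi, if_true, zero_smul]
    · simp only [hi, if_false]

theorem le_hull {S : Set V} {φ : V →ₗ[ℝ] ℝ} {c : ℝ} (h : ∀ x ∈ S, φ x ≤ c) {x : V}
    (hx : x ∈ convexHull ℝ S) : φ x ≤ c := by
  have h1 : convexHull ℝ S ⊆ {x | φ x ≤ c} :=
    convexHull_min h (convex_halfSpace_le φ.isLinear c)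
  exact h1 hx

theorem hull_eq {A : Set V} {φ : V →ₗ[ℝ] ℝ} {c : ℝ} (h : ∀ x ∈ A, φ x = c) {x : V}
    (hx : x ∈ convexHull ℝ A) : φ x = c := by
  have h1 : convexHull ℝ A ⊆ {x | φ x = c} :=
    convexHull_min h (convex_hyperplane φ.isLinear c)
  exact h1 hx

theorem hull_map {S : Set V} {C : Set V} (hC : Convex ℝ C) (L : V →ₗ[ℝ] V)
    (h : ∀ x ∈ S, L x ∈ C) {x : V} (hx : x ∈ convexHull ℝ S) : L x ∈ C := by
  have h1 : convexHull ℝ S ⊆ L ⁻¹' C := convexHull_min h (hC.linear_preimage L)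
  exact h1 hx

end general

/-- Euclidean space -/
abbrev E (d : ℕ) := EuclideanSpace ℝ (Fin d)

/-- the nonempty exposed faces -/
def XF {d : ℕ} (P : Set (E d)) : Set (Set (E d)) := {F | F.Nonempty ∧ IsExposed ℝ P F}

theorem NF_le_XF {d : ℕ} {S : Set (E d)} (hS : S.Finite) :
    (NF S : ℕ∞) ≤ (XF (convexHull ℝ S)).encard := by
  unfold NF
  rw [(Fc_finite hS).cast_ncard_eq]
  refine Set.encard_le_encard_of_injOn (f := fun A => convexHull ℝ A) ?_ ?_
  · rintro A ⟨hAS, hAne, φ, c, h1, h2⟩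
    refine ⟨hAne.convexHull, fun _ => ⟨LinearMap.toContinuousLinearMap φ, ?_⟩⟩
    ext x
    simp only [Set.mem_ofPred_eq, LinearMap.coe_toContinuousLinearMap']
    constructor
    · intro hx
      refine ⟨convexHull_mono hAS hx, fun y hy => ?_⟩
      rw [hull_eq h1 hx]
      exact le_hull (fun z hz => IsF.le_max h1 h2 hz) hy
    · rintro ⟨hx, hmax⟩
      obtain ⟨a, ha⟩ := hAne
      have h3 := hmax a (subset_convexHull ℝ S (hAS ha))
      rw [h1 a ha] at h3
      have h4 : φ x ≤ c := le_hull (fun z hz => IsF.le_max h1 h2 hz) hx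
      exact face_hull h1 h2 hx (le_antisymm h4 h3)
  · have key : ∀ A, A ∈ Fc S → convexHull ℝ A ∩ S = A := by
      rintro A ⟨hAS, hAne, φ, c, h1, h2⟩
      ext x
      constructor
      · rintro ⟨hx, hxS⟩
        by_contra hn
        have := h2 x hxS hn
        rw [hull_eq h1 hx] at this
        exact lt_irrefl _ this
      · intro hx
        exact ⟨subset_convexHull ℝ A hx, hAS hx⟩
    intro A hA B hB hAB
    rw [← key A hA, ← key B hB]
    exact congrArg (fun X => X ∩ S) hAB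

/-- an exposed face in terms of the configuration -/
theorem XF_hull {d : ℕ} {S : Set (E d)} {F : Set (E d)} (hF : F ∈ XF (convexHull ℝ S)) :
    IsF S (F ∩ S) ∧ F = convexHull ℝ (F ∩ S) := by
  obtain ⟨hne, hex⟩ := hF
  obtain ⟨l, hl⟩ := hex hne
  obtain ⟨x₀, hx₀⟩ := hne
  have hx₀' := hx₀
  rw [hl] at hx₀'
  obtain ⟨hx₀P, hmax⟩ := hx₀'
  set M : ℝ := l x₀ with hM
  set φ : E d →ₗ[ℝ] ℝ := l.toLinearMap with hφ
  have hφl : ∀ x, φ x = l x := fun x => rfl
  have hFiff : ∀ x, x ∈ F ↔ x ∈ convexHull ℝ S ∧ φ x = M := by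
    intro x
    rw [hl]
    constructor
    · rintro ⟨hx, hx'⟩
      exact ⟨hx, le_antisymm (hmax x hx) (hx' x₀ hx₀P)⟩
    · rintro ⟨hx, hx'⟩
      refine ⟨hx, fun y hy => ?_⟩
      rw [← hφl x, hx']
      exact hmax y hy
  have h1 : ∀ x ∈ F ∩ S, φ x = M := fun x hx => ((hFiff x).1 hx.1).2
  have h2 : ∀ x ∈ S, x ∉ F ∩ S → φ x < M := by
    intro x hx hx'
    have hxP := subset_convexHull ℝ S hx
    refine lt_of_le_of_ne (hmax x hxP) fun h => hx' ⟨(hFiff x).2 ⟨hxP, h⟩, hx⟩
  have hFeq : F = convexHull ℝ (F ∩ S) := by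
    ext x
    constructor
    · intro hx
      obtain ⟨h3, h4⟩ := (hFiff x).1 hx
      exact face_hull h1 h2 h3 h4
    · intro hx
      exact (hFiff x).2 ⟨convexHull_mono Set.inter_subset_right hx, hull_eq h1 hx⟩
  refine ⟨⟨Set.inter_subset_right, ?_, φ, M, h1, h2⟩, hFeq⟩
  have h5 : (convexHull ℝ (F ∩ S)).Nonempty := by
    rw [← hFeq]
    exact ⟨x₀, hx₀⟩
  exact convexHull_nonempty_iff.1 h5

theorem XF_le_NF {d : ℕ} {S : Set (E d)} (hS : S.Finite) :
    (XF (convexHull ℝ S)).encard ≤ (NF S : ℕ∞) := by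
  unfold NF
  rw [(Fc_finite hS).cast_ncard_eq]
  refine Set.encard_le_encard_of_injOn (f := fun F => F ∩ S) ?_ ?_
  · intro F hF
    exact (XF_hull hF).1
  · intro F hF G hG hFG
    rw [(XF_hull hF).2, (XF_hull hG).2]
    exact congrArg (fun A => convexHull ℝ A) hFG

theorem affineSpan_top {d : ℕ} {S : Set (E d)} (hne : S.Nonempty) (hsym : ∀ x ∈ S, -x ∈ S)
    (hspan : Submodule.span ℝ S = ⊤) : affineSpan ℝ S = ⊤ := by
  obtain ⟨x, hx⟩ := hne
  have h0 : (0 : E d) ∈ affineSpan ℝ S := by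
    have h1 : x ∈ affineSpan ℝ S := subset_affineSpan ℝ S hx
    have h2 : -x ∈ affineSpan ℝ S := subset_affineSpan ℝ S (hsym x hx)
    have h3 := AffineMap.lineMap_mem (2⁻¹ : ℝ) h1 h2
    have h4 : AffineMap.lineMap x (-x) (2⁻¹ : ℝ) = (0 : E d) := by
      rw [AffineMap.lineMap_apply_module]
      module
    rwa [h4] at h3
  have h5 : affineSpan ℝ (insert (0 : E d) S) = affineSpan ℝ S :=
    affineSpan_insert_eq_affineSpan ℝ h0
  rw [← h5]
  apply SetLike.coe_injective
  rw [affineSpan_insert_zero, hspan]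
  rfl

/-- Kalai's inequality in dimension `j` -/
def Kal (j : ℕ) : Prop :=
  ∀ S : Finset (EuclideanSpace ℝ (Fin j)),
    (interior (convexHull ℝ (S : Set (EuclideanSpace ℝ (Fin j))))).Nonempty →
    (∀ x ∈ convexHull ℝ (S : Set (EuclideanSpace ℝ (Fin j))),
      -x ∈ convexHull ℝ (S : Set (EuclideanSpace ℝ (Fin j)))) →
    (3 : ℕ∞) ^ j ≤
      {F : Set (EuclideanSpace ℝ (Fin j)) |
        F.Nonempty ∧ IsExposed ℝ (convexHull ℝ (S : Set (EuclideanSpace ℝ (Fin j)))) F}.encard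

theorem cfg_of_Kal {V : Type} [AddCommGroup V] [Module ℝ V] (K : ℕ)
    (hK : ∀ j, 4 ≤ j → j ≤ K → Kal j) :
    ∀ S : Set V, S.Finite → S.Nonempty → (∀ x ∈ S, -x ∈ S) → dm S ≤ K → 3 ^ dm S ≤ NF S := by
  classical
  intro S hS hne hsym hdm
  by_cases h3 : dm S ≤ 3
  · exact base hS hne hsym h3
  rw [not_le] at h3
  have hfd : FiniteDimensional ℝ (Submodule.span ℝ S) := FiniteDimensional.span_of_finite ℝ hS
  have hfr : Module.finrank ℝ (Submodule.span ℝ S) = Module.finrank ℝ (E (dm S)) := by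
    rw [finrank_euclideanSpace_fin]
    rfl
  let Φ : Submodule.span ℝ S ≃ₗ[ℝ] E (dm S) := LinearEquiv.ofFinrankEq _ _ hfr
  obtain ⟨g, hg⟩ := LinearMap.exists_extend (p := Submodule.span ℝ S) Φ.toLinearMap
  have hgΦ : ∀ x : Submodule.span ℝ S, g x = Φ x := fun x => LinearMap.congr_fun hg x
  have hfin : (g '' S).Finite := hS.image g
  have hspan : Submodule.span ℝ (g '' S) = ⊤ := by
    rw [Submodule.span_image, eq_top_iff]
    intro y _
    refine ⟨(Φ.symm y : V), (Φ.symm y).2, ?_⟩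
    rw [hgΦ, LinearEquiv.apply_symm_apply]
  have hsym' := image_sym hsym g
  have h4 := hK (dm S) h3 hdm hfin.toFinset (by
    rw [Set.Finite.coe_toFinset, interior_convexHull_nonempty_iff_affineSpan_eq_top]
    exact affineSpan_top (hne.image g) hsym' hspan) (by
    rw [Set.Finite.coe_toFinset]
    intro x hx
    have h5 := hull_map (convex_convexHull ℝ (g '' S)) (-LinearMap.id)
      (fun y hy => subset_convexHull ℝ _ (hsym' y hy)) hx
    exact h5)
  rw [Set.Finite.coe_toFinset] at h4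
  have h5 := h4.trans (XF_le_NF hfin)
  have h6 : NF (g '' S) ≤ NF S := by
    unfold NF
    rw [← Set.InjOn.ncard_image (preimage_injOn (S := S) g)]
    refine Set.ncard_le_ncard ?_ (Fc_finite hS)
    rintro _ ⟨B, hB, rfl⟩
    exact IsF.preimage g hB
  have h7 : ((3 ^ dm S : ℕ) : ℕ∞) ≤ (NF S : ℕ∞) := by
    refine le_trans ?_ (h5.trans (by exact_mod_cast h6))
    push_cast
    exact le_rfl
  exact_mod_cast h7

/-- the closure of a configuration under deletions and the sign change -/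
theorem exists_closure {d m : ℕ} {S : Set (E d)} (hS : S.Finite) {e : Fin m → E d}
    {f : Fin m → (E d →ₗ[ℝ] ℝ)} (hb : ∀ i k, f i (e k) = if i = k then 1 else 0)
    (hdel : ∀ i, ∀ x ∈ convexHull ℝ S, x - f i x • e i ∈ convexHull ℝ S)
    (hsg : ∀ x ∈ convexHull ℝ S, (2 : ℝ) • (∑ i, f i x • e i) - x ∈ convexHull ℝ S) :
    ∃ S₀ : Set (E d), S₀.Finite ∧ S ⊆ S₀ ∧ S₀ ⊆ convexHull ℝ S ∧
      (∀ i, ∀ x ∈ S₀, del (f i) (e i) x ∈ S₀) ∧ ∀ x ∈ S₀, sg Finset.univ e f x ∈ S₀ := by
  classical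
  have hb' : ∀ i ∈ (Finset.univ : Finset (Fin m)), ∀ k ∈ (Finset.univ : Finset (Fin m)),
      f i (e k) = if i = k then 1 else 0 := fun i _ k _ => hb i k
  let D : Finset (Fin m) → E d → E d := fun J x => x - ∑ i ∈ J, f i x • e i
  have hD0 : ∀ x, D ∅ x = x := fun x => by simp [D]
  have hfD : ∀ J i x, f i (D J x) = if i ∈ J then 0 else f i x := by
    intro J i x
    simp only [D]
    rw [map_sub, sum_bi hb' (Finset.mem_univ i) J (Finset.subset_univ J)]
    split_ifs <;> simp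
  have hDins : ∀ J i x, del (f i) (e i) (D J x) = D (insert i J) x := by
    intro J i x
    rw [del_apply, hfD]
    by_cases hi : i ∈ J
    · rw [if_pos hi, zero_smul, sub_zero, Finset.insert_eq_self.2 hi]
    · rw [if_neg hi]
      simp only [D]
      rw [Finset.sum_insert hi, sub_sub, add_comm]
  have hDP : ∀ J x, x ∈ convexHull ℝ S → D J x ∈ convexHull ℝ S := by
    intro J
    induction J using Finset.induction_on with
    | empty =>
      intro x hx
      rw [hD0]
      exact hx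
    | insert j J hj ih =>
      intro x hx
      rw [← hDins]
      exact hdel j _ (ih x hx)
  have hsgf : ∀ i x, f i (sg Finset.univ e f x) = f i x := by
    intro i x
    rw [sg_apply, map_sub, map_smul, sum_bi hb' (Finset.mem_univ i) _ subset_rfl,
      if_pos (Finset.mem_univ i), smul_eq_mul]
    ring
  have hsge : ∀ i, sg Finset.univ e f (e i) = e i := by
    intro i
    have h2 : ∑ k, f k (e i) • e k = e i := by
      rw [Finset.sum_eq_single i]
      · rw [hb, if_pos rfl, one_smul]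
      · intro k _ hk
        rw [hb, if_neg hk, zero_smul]
      · intro hc
        exact absurd (Finset.mem_univ i) hc
    rw [sg_apply, h2, two_smul, add_sub_cancel_right]
  have hsgsg : ∀ x, sg Finset.univ e f (sg Finset.univ e f x) = x := by
    intro x
    rw [sg_apply Finset.univ e f (sg Finset.univ e f x)]
    rw [Finset.sum_congr rfl (fun i _ => by rw [hsgf i x]), sg_apply]
    abel
  refine ⟨(⋃ J : Finset (Fin m), D J '' S) ∪ ⋃ J : Finset (Fin m),
    (fun x => sg Finset.univ e f (D J x)) '' S, ?_, ?_, ?_, ?_, ?_⟩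
  · exact (Set.finite_iUnion fun J => hS.image _).union (Set.finite_iUnion fun J => hS.image _)
  · intro x hx
    exact Or.inl (Set.mem_iUnion.2 ⟨∅, x, hx, hD0 x⟩)
  · rintro y (hy | hy)
    · obtain ⟨J, x, hx, rfl⟩ := Set.mem_iUnion.1 hy
      exact hDP J x (subset_convexHull ℝ S hx)
    · obtain ⟨J, x, hx, rfl⟩ := Set.mem_iUnion.1 hy
      simp only [sg_apply]
      exact hsg _ (hDP J x (subset_convexHull ℝ S hx))
  · rintro i y (hy | hy)
    · obtain ⟨J, x, hx, rfl⟩ := Set.mem_iUnion.1 hy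
      exact Or.inl (Set.mem_iUnion.2 ⟨insert i J, x, hx, (hDins J i x).symm⟩)
    · obtain ⟨J, x, hx, rfl⟩ := Set.mem_iUnion.1 hy
      refine Or.inr (Set.mem_iUnion.2 ⟨insert i J, x, hx, ?_⟩)
      simp only
      rw [← hDins, del_apply, del_apply, hsgf, map_sub, map_smul, hsge]
  · rintro y (hy | hy)
    · obtain ⟨J, x, hx, rfl⟩ := Set.mem_iUnion.1 hy
      exact Or.inr (Set.mem_iUnion.2 ⟨J, x, hx, rfl⟩)
    · obtain ⟨J, x, hx, rfl⟩ := Set.mem_iUnion.1 hy
      refine Or.inl (Set.mem_iUnion.2 ⟨J, x, hx, ?_⟩)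
      simp only
      rw [hsgsg]

/-- the main theorem for polytopes -/
theorem poly_main (K : ℕ) (hK : ∀ j, 4 ≤ j → j ≤ K → Kal j) (d m : ℕ) (hdm : d ≤ m + K)
    (S : Set (E d)) (hS : S.Finite) (h0 : (0 : E d) ∈ interior (convexHull ℝ S))
    (e : Fin m → E d) (f : Fin m → (E d →ₗ[ℝ] ℝ))
    (hb : ∀ i k, f i (e k) = if i = k then 1 else 0)
    (hdel : ∀ i, ∀ x ∈ convexHull ℝ S, x - f i x • e i ∈ convexHull ℝ S)
    (hsg : ∀ x ∈ convexHull ℝ S, (2 : ℝ) • (∑ i, f i x • e i) - x ∈ convexHull ℝ S) :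
    (3 : ℕ∞) ^ d ≤ (XF (convexHull ℝ S)).encard := by
  classical
  obtain ⟨S₀, hS₀, hSS₀, hS₀P, hd, hs⟩ := exists_closure hS hb hdel hsg
  have hPeq : convexHull ℝ S₀ = convexHull ℝ S := by
    apply subset_antisymm
    · exact convexHull_min hS₀P (convex_convexHull ℝ S)
    · exact convexHull_mono hSS₀
  have hball : ∀ ψ : E d →ₗ[ℝ] ℝ, ψ ≠ 0 → ∃ x ∈ S₀, 0 < ψ x := by
    intro ψ hψ
    obtain ⟨v, hv⟩ : ∃ v, ψ v ≠ 0 := by
      by_contra hcon
      push Not at hcon
      exact hψ (LinearMap.ext hcon)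
    wlog hpos : 0 < ψ v generalizing v
    · refine this (-v) ?_ ?_
      · rw [map_neg]
        exact neg_ne_zero.2 hv
      · rw [map_neg]
        rw [not_lt] at hpos
        have := lt_of_le_of_ne hpos hv
        linarith
    by_contra hcon
    push Not at hcon
    have h1 : ∀ x ∈ convexHull ℝ S, ψ x ≤ 0 := fun x hx => by
      rw [← hPeq] at hx
      exact le_hull hcon hx
    have h2 : Filter.Tendsto (fun t : ℝ => t • v) (nhds 0) (nhds (0 : E d)) := by
      have : Continuous fun t : ℝ => t • v := by fun_prop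
      have h3 := this.tendsto 0
      rwa [zero_smul] at h3
    have h3 := h2.eventually (mem_interior_iff_mem_nhds.1 h0)
    obtain ⟨ε, hε, hball⟩ := Metric.eventually_nhds_iff.1 h3
    have h4 : (ε / 2) • v ∈ convexHull ℝ S := by
      apply hball
      rw [Real.dist_eq, sub_zero, abs_of_pos (by linarith)]
      linarith
    have h5 := h1 _ h4
    rw [map_smul, smul_eq_mul] at h5
    have h6 : 0 < ε / 2 * ψ v := mul_pos (by linarith) hpos
    linarith
  have hspan : Submodule.span ℝ S₀ = ⊤ := by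
    by_contra hcon
    obtain ⟨ψ, hψ, hle⟩ := Submodule.exists_le_ker_of_lt_top _ (lt_top_iff_ne_top.2 hcon)
    obtain ⟨x, hx, hx'⟩ := hball ψ hψ
    have := LinearMap.mem_ker.1 (hle (Submodule.subset_span hx))
    linarith
  have hdim : dm S₀ = d := by
    unfold dm
    rw [hspan, finrank_top, finrank_euclideanSpace_fin]
  have hne : S₀.Nonempty := by
    have h1 : (convexHull ℝ S).Nonempty := ⟨0, interior_subset h0⟩
    rw [← hPeq] at h1
    exact convexHull_nonempty_iff.1 h1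
  have hcls : Cls ∅ (Finset.univ : Finset (Fin m)) e f S₀ := by
    refine ⟨Finset.disjoint_empty_left _, fun i _ k _ => hb i k, ?_, fun i _ => hd i, ?_, ?_, ?_⟩
    · intro i hi
      exact absurd hi (Finset.notMem_empty i)
    · rw [Finset.empty_union]
      exact hs
    · intro i _
      rw [hspan]
      exact Submodule.mem_top
    · rintro ψ ⟨x, hx, hx0⟩
      apply hball ψ
      rintro rfl
      exact hx0 rfl
  have hmain := cls_main K (cfg_of_Kal (V := E d) K hK) m ∅ Finset.univ (by simp) e f S₀ hS₀ hne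
    hcls (by
      rw [hdim, Finset.empty_union, Finset.card_univ, Fintype.card_fin]
      exact hdm)
  rw [hdim] at hmain
  rw [← hPeq]
  refine le_trans ?_ (NF_le_XF hS₀)
  have : ((3 ^ d : ℕ) : ℕ∞) ≤ (NF S₀ : ℕ∞) := by exact_mod_cast hmain
  push_cast at this
  exact this

end Pool.Agent.K3R
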