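import Pool.Agent.K3R.HanA

/-!
# Hansen configurations
-/

set_option autoImplicit false

namespace Pool.Agent.K3R

variable {ι : Type} [DecidableEq ι]

/-- indicator vector -/
def ind (T : Finset ι) : ι → ℝ := fun i => if i ∈ T then 1 else 0

/-- lifted indicator vector -/
def pt (T : Finset ι) : ℝ × (ι → ℝ) := (1, ind T)

/-- stable sets -/
def Stb (G : SimpleGraph ι) (T : Finset ι) : Prop := ∀ a ∈ T, ∀ b ∈ T, ¬ G.Adj a b

/-- the vertices of the Hansen polytope of the subgraph induced on `W` -/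
def HS (G : SimpleGraph ι) (W : Finset ι) : Set (ℝ × (ι → ℝ)) :=
  {x | ∃ T, T ⊆ W ∧ Stb G T ∧ (x = pt T ∨ x = -pt T)}

theorem ind_apply (T : Finset ι) (i : ι) : ind T i = if i ∈ T then 1 else 0 := rfl

theorem ind_pos {T : Finset ι} {i : ι} (h : i ∈ T) : ind T i = 1 := if_pos h

theorem ind_neg {T : Finset ι} {i : ι} (h : i ∉ T) : ind T i = 0 := if_neg h

theorem HS_finite (G : SimpleGraph ι) (W : Finset ι) : (HS G W).Finite := by
  refine Set.Finite.subset (((W.powerset.finite_toSet).image pt).union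
    ((W.powerset.finite_toSet).image (fun T => -pt T))) ?_
  rintro x ⟨T, hT, _, rfl | rfl⟩
  · exact Or.inl ⟨T, Finset.mem_coe.2 (Finset.mem_powerset.2 hT), rfl⟩
  · exact Or.inr ⟨T, Finset.mem_coe.2 (Finset.mem_powerset.2 hT), rfl⟩

theorem HS_sym (G : SimpleGraph ι) (W : Finset ι) : ∀ x ∈ HS G W, -x ∈ HS G W := by
  rintro x ⟨T, hT, hs, rfl | rfl⟩
  · exact ⟨T, hT, hs, Or.inr rfl⟩
  · exact ⟨T, hT, hs, Or.inl (neg_neg _)⟩

theorem Stb_empty (G : SimpleGraph ι) : Stb G ∅ := by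
  intro a ha
  exact absurd ha (Finset.notMem_empty a)

theorem Stb_single (G : SimpleGraph ι) (v : ι) : Stb G {v} := by
  intro a ha b hb
  rw [Finset.mem_singleton] at ha hb
  rw [ha, hb]
  exact G.irrefl

theorem Stb.mono {G : SimpleGraph ι} {T T' : Finset ι} (h : Stb G T) (hT : T' ⊆ T) :
    Stb G T' := fun a ha b hb => h a (hT ha) b (hT hb)

theorem Stb.insert {G : SimpleGraph ι} {T : Finset ι} {v : ι} (h : Stb G T)
    (hv : ∀ w ∈ T, ¬ G.Adj v w) : Stb G (insert v T) := by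
  intro a ha b hb
  rcases Finset.mem_insert.1 ha with h1 | h1
  · rcases Finset.mem_insert.1 hb with h2 | h2
    · rw [h1, h2]
      exact G.irrefl
    · rw [h1]
      exact hv b h2
  · rcases Finset.mem_insert.1 hb with h2 | h2
    · rw [h2]
      exact fun h' => hv a h1 h'.symm
    · exact h a h1 b h2

theorem pt_mem {G : SimpleGraph ι} {W T : Finset ι} (hT : T ⊆ W) (h : Stb G T) :
    pt T ∈ HS G W := ⟨T, hT, h, Or.inl rfl⟩

theorem npt_mem {G : SimpleGraph ι} {W T : Finset ι} (hT : T ⊆ W) (h : Stb G T) :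
    -pt T ∈ HS G W := ⟨T, hT, h, Or.inr rfl⟩

theorem HS_ne (G : SimpleGraph ι) (W : Finset ι) : (HS G W).Nonempty :=
  ⟨_, pt_mem (Finset.empty_subset W) (Stb_empty G)⟩

/-- a coordinate -/
def cx (i : ι) : ℝ × (ι → ℝ) →ₗ[ℝ] ℝ := (LinearMap.proj i) ∘ₗ LinearMap.snd ℝ ℝ (ι → ℝ)

/-- restriction to a set of coordinates -/
def rs (N : Finset ι) : (ι → ℝ) →ₗ[ℝ] (ι → ℝ) :=
  LinearMap.pi fun i => if i ∈ N then LinearMap.proj i else 0

/-- deletion of a coordinate -/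
def dl (v : ι) : ℝ × (ι → ℝ) →ₗ[ℝ] ℝ × (ι → ℝ) :=
  LinearMap.prodMap LinearMap.id (LinearMap.pi fun i => if i = v then 0 else LinearMap.proj i)

theorem cx_apply (i : ι) (x : ℝ × (ι → ℝ)) : cx i x = x.2 i := rfl

theorem cx_pt (i : ι) (T : Finset ι) : cx i (pt T) = if i ∈ T then 1 else 0 := rfl

theorem rs_apply (N : Finset ι) (x : ι → ℝ) (i : ι) :
    rs N x i = if i ∈ N then x i else 0 := by
  unfold rs
  rw [LinearMap.pi_apply]
  split_ifs <;> rfl

theorem rs_ind (N T : Finset ι) : rs N (ind T) = ind (T ∩ N) := by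
  ext i
  rw [rs_apply, ind_apply, ind_apply]
  by_cases h1 : i ∈ N <;> by_cases h2 : i ∈ T <;> simp [h1, h2]

theorem dl_apply (v : ι) (x : ℝ × (ι → ℝ)) :
    dl v x = (x.1, fun i => if i = v then 0 else x.2 i) := by
  unfold dl
  rw [LinearMap.prodMap_apply]
  refine Prod.ext rfl ?_
  ext i
  simp only [LinearMap.pi_apply]
  split_ifs <;> rfl

theorem dl_pt (v : ι) (T : Finset ι) : dl v (pt T) = pt (T.erase v) := by
  rw [dl_apply]
  refine Prod.ext rfl ?_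
  ext i
  simp only [pt, ind_apply, Finset.mem_erase]
  by_cases h1 : i = v <;> by_cases h2 : i ∈ T <;> simp [h1, h2]

theorem pt_fst (T : Finset ι) : (pt T).1 = 1 := rfl

theorem pt_snd (T : Finset ι) (i : ι) : (pt T).2 i = if i ∈ T then 1 else 0 := rfl

theorem HS_empty (G : SimpleGraph ι) : 3 ≤ NF (HS G ∅) := by
  refine three_le_NF (HS_finite G ∅) (LinearMap.fst ℝ ℝ (ι → ℝ))
    (pt_mem (Finset.empty_subset _) (Stb_empty G)) (npt_mem (Finset.empty_subset _)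
    (Stb_empty G)) ?_
  simp only [LinearMap.fst_apply, Prod.fst_neg, pt_fst]
  norm_num

theorem dl_HS (G : SimpleGraph ι) (W : Finset ι) (v : ι) :
    dl v '' HS G W = HS G (W.erase v) := by
  ext x
  constructor
  · rintro ⟨_, ⟨T, hT, hs, rfl | rfl⟩, rfl⟩
    · rw [dl_pt]
      exact pt_mem (Finset.erase_subset_erase v hT) (hs.mono (Finset.erase_subset v T))
    · rw [map_neg, dl_pt]
      exact npt_mem (Finset.erase_subset_erase v hT) (hs.mono (Finset.erase_subset v T))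
  · rintro ⟨T, hT, hs, rfl | rfl⟩
    · refine ⟨pt T, pt_mem (hT.trans (Finset.erase_subset v W)) hs, ?_⟩
      rw [dl_pt, Finset.erase_eq_of_notMem]
      intro hv
      exact Finset.notMem_erase v W (hT hv)
    · refine ⟨-pt T, npt_mem (hT.trans (Finset.erase_subset v W)) hs, ?_⟩
      rw [map_neg, dl_pt, Finset.erase_eq_of_notMem]
      intro hv
      exact Finset.notMem_erase v W (hT hv)

/-- packaging of the central face inequality -/
theorem step {V W₁ W₂ : Type} [AddCommGroup V] [Module ℝ V] [AddCommGroup W₁] [Module ℝ W₁]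
    [AddCommGroup W₂] [Module ℝ W₂]
    {S : Set V} (hS : S.Finite) (hsym : ∀ x ∈ S, -x ∈ S) (h : V →ₗ[ℝ] ℝ)
    (hle : ∀ x ∈ S, h x ≤ 1) (hne : ∃ x ∈ S, h x = 1) (e : V)
    (hcs : ∀ x ∈ S, h x = 1 → (2 : ℝ) • e - x ∈ S ∧ h ((2 : ℝ) • e - x) = 1)
    (π : V →ₗ[ℝ] W₁) (hπ : π e = 0) (ρ : V →ₗ[ℝ] W₂) (hρ : ∀ x ∈ S, h x = 1 → ρ x = 0)
    {U : Set W₂} (hU1 : ∀ x ∈ S, h x ≠ 1 → (1 - h x)⁻¹ • ρ x ∈ U)
    (hU2 : ∀ u ∈ U, ∃ x ∈ S, h x ≠ 1 ∧ (1 - h x)⁻¹ • ρ x = u)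
    (hUsym : ∀ u ∈ U, -u ∈ U) {a b c : ℕ}
    (ha : a ≤ NF (π '' S)) (hb : b ≤ NF {x | x ∈ S ∧ h x = 1}) (hc : c ≤ NF U) :
    a + 2 * (b * c) ≤ NF S := by
  set D : Set V := {x | x ∈ S ∧ h x = 1} with hDdef
  have hlt : ∀ x ∈ S, x ∉ D → h x < 1 := fun x hx hxD =>
    lt_of_le_of_ne (hle x hx) fun h' => hxD ⟨hx, h'⟩
  have hD : IsF S D := by
    obtain ⟨x, hx, hx1⟩ := hne
    exact ⟨fun x hx => hx.1, ⟨x, hx, hx1⟩, h, 1, fun x hx => hx.2, hlt⟩
  have hDS : D ≠ S := by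
    intro hDS
    obtain ⟨x, hx, hx1⟩ := hne
    have h1 : -x ∈ D := by
      rw [hDS]
      exact hsym x hx
    have h2 := h1.2
    rw [map_neg, hx1] at h2
    norm_num at h2
  have hUeq : star S D h ρ = U := by
    ext u
    constructor
    · rintro ⟨x, ⟨hx, hxD⟩, rfl⟩
      exact hU1 x hx fun h' => hxD ⟨hx, h'⟩
    · intro hu
      obtain ⟨x, hx, hx1, rfl⟩ := hU2 u hu
      exact ⟨x, ⟨hx, fun h' => hx1 h'.2⟩, rfl⟩
  have hstar : NF U ≤ nD S D := by
    rw [← hUeq]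
    refine star_le hS hD hDS (fun x hx => hx.2) hlt ρ (fun x hx => hρ x hx.1 hx.2) ?_
    rw [hUeq]
    rintro ψ ⟨u, hu, hψ⟩
    rcases lt_or_gt_of_ne hψ with hlt' | hgt
    · refine ⟨-u, hUsym u hu, ?_⟩
      rw [map_neg]
      linarith
    · exact ⟨u, hu, hgt⟩
  have hcf := central_face hS hsym hD (e := e) (fun A hA hAD => by
    obtain ⟨x, hx⟩ := hA.2.1
    have := hAD hx
    exact ⟨x, hx, hcs x this.1 this.2⟩) π hπ
  have h3 : b * c ≤ NF D * nD S D := Nat.mul_le_mul hb (hc.trans hstar)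
  omega

end Pool.Agent.K3R
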