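import Pool.Agent.K3R.Main

/-!
# Configurations closed under coordinate deletions
-/

set_option autoImplicit false

namespace Pool.Agent.K3R

variable {V : Type} [AddCommGroup V] [Module ℝ V]

/-- `φ` exposes `A` in `S` with value `c` -/
def Exp (S A : Set V) (φ : V →ₗ[ℝ] ℝ) (c : ℝ) : Prop :=
  (∀ x ∈ A, φ x = c) ∧ ∀ x ∈ S, x ∉ A → φ x < c

theorem Exp.combo {S A : Set V} {φ ψ : V →ₗ[ℝ] ℝ} {c b : ℝ} (h1 : Exp S A φ c)
    (h2 : Exp S A ψ b) {s t : ℝ} (hs : 0 ≤ s) (ht : 0 < t) :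
    Exp S A (s • φ + t • ψ) (s * c + t * b) := by
  refine ⟨fun x hx => ?_, fun x hx hx' => ?_⟩
  · simp only [LinearMap.add_apply, LinearMap.smul_apply, smul_eq_mul]
    rw [h1.1 x hx, h2.1 x hx]
  · simp only [LinearMap.add_apply, LinearMap.smul_apply, smul_eq_mul]
    have h3 := h1.2 x hx hx'
    have h4 := h2.2 x hx hx'
    have h5 := mul_le_mul_of_nonneg_left h3.le hs
    have h6 := mul_lt_mul_of_pos_left h4 ht
    linarith

/-- the faces all of whose exposing functionals are positive at `e` -/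
def ups (S : Set V) (e : V) : Set (Set V) :=
  {A | IsF S A ∧ ∀ (φ : V →ₗ[ℝ] ℝ) (c : ℝ), Exp S A φ c → 0 < φ e}

/-- the faces with an exposing functional which vanishes at `e` -/
def zer (S : Set V) (e : V) : Set (Set V) :=
  {A | IsF S A ∧ ∃ (φ : V →ₗ[ℝ] ℝ) (c : ℝ), Exp S A φ c ∧ φ e = 0}

theorem ups_finite {S : Set V} (hS : S.Finite) (e : V) : (ups S e).Finite :=
  (Fc_finite hS).subset fun _ h => h.1

theorem zer_finite {S : Set V} (hS : S.Finite) (e : V) : (zer S e).Finite :=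
  (Fc_finite hS).subset fun _ h => h.1

theorem Fc_split (S : Set V) (e : V) : Fc S = zer S e ∪ (ups S e ∪ ups S (-e)) := by
  ext A
  constructor
  · intro hA
    by_cases hz : ∃ (φ : V →ₗ[ℝ] ℝ) (c : ℝ), Exp S A φ c ∧ φ e = 0
    · exact Or.inl ⟨hA, hz⟩
    · right
      push Not at hz
      have hAF : IsF S A := hA
      obtain ⟨-, -, φ₀, c₀, h₀⟩ := hAF
      have h₀' : Exp S A φ₀ c₀ := h₀
      have hne := hz φ₀ c₀ h₀'
      rcases lt_or_gt_of_ne hne with hlt | hgt
      · right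
        refine ⟨hA, fun φ c hφ => ?_⟩
        rw [map_neg]
        have h1 := hz φ c hφ
        by_contra hcon
        have h2 : 0 < φ e := lt_of_le_of_ne (by linarith) h1.symm
        have h3 := hφ.combo h₀' (s := -φ₀ e) (t := φ e) (by linarith) h2
        apply hz _ _ h3
        simp only [LinearMap.add_apply, LinearMap.smul_apply, smul_eq_mul]
        ring
      · left
        refine ⟨hA, fun φ c hφ => ?_⟩
        have h1 := hz φ c hφ
        by_contra hcon
        have h2 : φ e < 0 := lt_of_le_of_ne (by linarith) h1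
        have h3 := hφ.combo h₀' (s := φ₀ e) (t := -φ e) (by linarith) (by linarith)
        apply hz _ _ h3
        simp only [LinearMap.add_apply, LinearMap.smul_apply, smul_eq_mul]
        ring
  · rintro (h | h | h) <;> exact h.1

theorem disj_zu (S : Set V) (e : V) : Disjoint (zer S e) (ups S e ∪ ups S (-e)) := by
  rw [Set.disjoint_left]
  rintro A ⟨-, φ, c, h1, h2⟩ (h | h)
  · have := h.2 φ c h1
    linarith
  · have := h.2 φ c h1
    rw [map_neg] at this
    linarith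

theorem disj_uu (S : Set V) (e : V) : Disjoint (ups S e) (ups S (-e)) := by
  rw [Set.disjoint_left]
  rintro A h1 h2
  obtain ⟨⟨-, -, φ, c, h⟩, h3⟩ := h1
  have h4 := h3 φ c h
  have h5 := h2.2 φ c h
  rw [map_neg] at h5
  linarith

theorem NF_split {S : Set V} (hS : S.Finite) (e : V) :
    NF S = (zer S e).ncard + ((ups S e).ncard + (ups S (-e)).ncard) := by
  unfold NF
  rw [Fc_split S e, Set.ncard_union_eq (disj_zu S e) (zer_finite hS e)
    ((ups_finite hS e).union (ups_finite hS (-e))),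
    Set.ncard_union_eq (disj_uu S e) (ups_finite hS e) (ups_finite hS (-e))]

/-- deletion of the coordinate `f` along `e` -/
def del (f : V →ₗ[ℝ] ℝ) (e : V) : V →ₗ[ℝ] V := LinearMap.id - f.smulRight e

/-- reflection of the coordinate `f` along `e` -/
def ref (f : V →ₗ[ℝ] ℝ) (e : V) : V →ₗ[ℝ] V := LinearMap.id - ((2 : ℝ) • f).smulRight e

theorem del_apply (f : V →ₗ[ℝ] ℝ) (e x : V) : del f e x = x - f x • e := rfl

theorem ref_apply (f : V →ₗ[ℝ] ℝ) (e x : V) : ref f e x = x - (2 * f x) • e := rfl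

theorem zer_ncard {S : Set V} (f : V →ₗ[ℝ] ℝ) {e : V} (hfe : f e = 1) :
    (zer S e).ncard = NF (del f e '' S) := by
  have hde : del f e e = 0 := by rw [del_apply, hfe, one_smul, sub_self]
  have h1 : zer S e = (fun B => S ∩ del f e ⁻¹' B) '' Fc (del f e '' S) := by
    ext A
    constructor
    · rintro ⟨⟨hAS, hAne, -⟩, φ, c, ⟨h1, h2⟩, h3⟩
      have hφ : ∀ x, φ (del f e x) = φ x := fun x => by
        rw [del_apply, map_sub, map_smul, h3, smul_zero, sub_zero]
      have hAeq : S ∩ del f e ⁻¹' (del f e '' A) = A := by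
        ext x
        constructor
        · rintro ⟨hx, y, hy, hyx⟩
          by_contra hxA
          have h4 := h2 x hx hxA
          rw [← hφ x, ← hyx, hφ y, h1 y hy] at h4
          exact lt_irrefl _ h4
        · intro hx
          exact ⟨hAS hx, x, hx, rfl⟩
      refine ⟨del f e '' A, ⟨Set.image_mono hAS, hAne.image _, φ, c, ?_, ?_⟩, hAeq⟩
      · rintro _ ⟨x, hx, rfl⟩
        rw [hφ, h1 x hx]
      · rintro _ ⟨x, hx, rfl⟩ hx'
        rw [hφ]
        exact h2 x hx fun h => hx' ⟨x, h, rfl⟩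
    · rintro ⟨B, hB, rfl⟩
      refine ⟨IsF.preimage _ hB, ?_⟩
      obtain ⟨-, -, φ, c, h1, h2⟩ := hB
      refine ⟨φ ∘ₗ del f e, c, ⟨fun x hx => h1 _ hx.2, fun x hx hx' => ?_⟩, ?_⟩
      · exact h2 _ ⟨x, hx, rfl⟩ fun h => hx' ⟨hx, h⟩
      · rw [LinearMap.comp_apply, hde, map_zero]
  rw [h1, Set.InjOn.ncard_image (preimage_injOn _)]
  rfl

/-- the part `f ≥ 0` together with its mirror image -/
def dbl (S : Set V) (f : V →ₗ[ℝ] ℝ) (e : V) : Set V :=
  {x | x ∈ S ∧ 0 ≤ f x} ∪ ref f e '' {x | x ∈ S ∧ 0 ≤ f x}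

theorem dbl_finite {S : Set V} (hS : S.Finite) (f : V →ₗ[ℝ] ℝ) (e : V) : (dbl S f e).Finite := by
  have h : {x | x ∈ S ∧ 0 ≤ f x}.Finite := hS.subset fun _ h => h.1
  exact h.union (h.image _)

theorem ref_ref {f : V →ₗ[ℝ] ℝ} {e : V} (hfe : f e = 1) (x : V) : ref f e (ref f e x) = x := by
  rw [ref_apply, ref_apply, map_sub, map_smul, hfe]
  rw [smul_eq_mul, mul_one, sub_sub, ← add_smul]
  have : 2 * f x + 2 * (f x - 2 * f x) = 0 := by ring
  rw [this, zero_smul, sub_zero]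

theorem f_ref {f : V →ₗ[ℝ] ℝ} {e : V} (hfe : f e = 1) (x : V) : f (ref f e x) = -f x := by
  rw [ref_apply, map_sub, map_smul, hfe, smul_eq_mul]
  ring

theorem f_del {f : V →ₗ[ℝ] ℝ} {e : V} (hfe : f e = 1) (x : V) : f (del f e x) = 0 := by
  rw [del_apply, map_sub, map_smul, hfe, smul_eq_mul]
  ring

theorem del_ref {f : V →ₗ[ℝ] ℝ} {e : V} (hfe : f e = 1) (x : V) :
    del f e (ref f e x) = del f e x := by
  rw [del_apply, f_ref hfe, ref_apply, del_apply, sub_sub, ← add_smul]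
  congr 2
  ring

theorem del_of_zero {f : V →ₗ[ℝ] ℝ} {e x : V} (h : f x = 0) : del f e x = x := by
  rw [del_apply, h, zero_smul, sub_zero]

theorem dbl_ref {S : Set V} {f : V →ₗ[ℝ] ℝ} {e : V} (hfe : f e = 1) :
    ∀ x ∈ dbl S f e, ref f e x ∈ dbl S f e := by
  rintro x (hx | ⟨y, hy, rfl⟩)
  · exact Or.inr ⟨x, hx, rfl⟩
  · rw [ref_ref hfe]
    exact Or.inl hy

theorem del_image_dbl {S : Set V} {f : V →ₗ[ℝ] ℝ} {e : V} (hfe : f e = 1)
    (hcl : ∀ x ∈ S, del f e x ∈ S) : del f e '' dbl S f e = del f e '' S := by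
  ext y
  constructor
  · rintro ⟨x, (hx | ⟨z, hz, rfl⟩), rfl⟩
    · exact ⟨x, hx.1, rfl⟩
    · rw [del_ref hfe]
      exact ⟨z, hz.1, rfl⟩
  · rintro ⟨x, hx, rfl⟩
    refine ⟨del f e x, Or.inl ⟨hcl x hx, (f_del hfe x).ge⟩, ?_⟩
    exact del_of_zero (f_del hfe x)

theorem ups_dbl_subset {S : Set V} {f : V →ₗ[ℝ] ℝ} {e : V} (hfe : f e = 1)
    (hcl : ∀ x ∈ S, del f e x ∈ S) : ups (dbl S f e) e ⊆ ups S e := by
  rintro A ⟨⟨hAS, hAne, φ, c, hφ⟩, hall⟩
  have hφ' : Exp (dbl S f e) A φ c := hφ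
  have hφe := hall φ c hφ'
  have hdelS : ∀ x ∈ S, del f e x ∈ dbl S f e := fun x hx =>
    Or.inl ⟨hcl x hx, (f_del hfe x).ge⟩
  have hle : ∀ x ∈ dbl S f e, φ x ≤ c := fun x hx => IsF.le_max hφ.1 hφ.2 hx
  have hneg : ∀ x, f x < 0 → φ x < φ (del f e x) := by
    intro x hx
    rw [del_apply, map_sub, map_smul, smul_eq_mul]
    have := mul_neg_of_neg_of_pos hx hφe
    linarith
  have hApos : ∀ x ∈ A, x ∈ S ∧ 0 ≤ f x := by
    intro x hx
    have hfx : 0 ≤ f x := by
      by_contra hcon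
      rw [not_le] at hcon
      have h1 := hneg x hcon
      rw [hφ.1 x hx] at h1
      have h2 : del f e x ∈ dbl S f e := by
        rcases hAS hx with h | ⟨y, hy, rfl⟩
        · exact hdelS x h.1
        · rw [del_ref hfe]
          exact hdelS y hy.1
      have h3 := hle _ h2
      linarith
    refine ⟨?_, hfx⟩
    rcases hAS hx with h | ⟨y, hy, rfl⟩
    · exact h.1
    · rw [f_ref hfe] at hfx
      have hy0 : f y = 0 := le_antisymm (by linarith) hy.2
      have : ref f e y = y := by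
        rw [ref_apply, hy0, mul_zero, zero_smul, sub_zero]
      rw [this]
      exact hy.1
  have hExpS : Exp S A φ c := by
    refine ⟨hφ.1, fun x hx hxA => ?_⟩
    by_cases hfx : 0 ≤ f x
    · exact hφ.2 x (Or.inl ⟨hx, hfx⟩) hxA
    · rw [not_le] at hfx
      have h1 := hneg x hfx
      have h2 := hle _ (hdelS x hx)
      linarith
  refine ⟨⟨fun x hx => (hApos x hx).1, hAne, φ, c, hExpS⟩, ?_⟩
  intro ψ b hψ
  by_contra hcon
  rw [not_lt] at hcon
  -- a functional vanishing at `e` exposing `A` in `S`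
  have hχ := hψ.combo hExpS (s := φ e) (t := 1 - ψ e) hφe.le (by linarith)
  -- use the combination with total value zero at `e`
  have key : ∃ (χ : V →ₗ[ℝ] ℝ) (a : ℝ), Exp S A χ a ∧ χ e = 0 := by
    rcases eq_or_lt_of_le hcon with h0 | hlt
    · exact ⟨ψ, b, hψ, h0⟩
    · refine ⟨_, _, hψ.combo hExpS (s := φ e) (t := -ψ e) hφe.le (by linarith), ?_⟩
      simp only [LinearMap.add_apply, LinearMap.smul_apply, smul_eq_mul]
      ring
  obtain ⟨χ, a, hχS, hχe⟩ := key
  have hχd : ∀ x, χ (del f e x) = χ x := fun x => by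
    rw [del_apply, map_sub, map_smul, hχe, smul_zero, sub_zero]
  have hf0 : ∀ x ∈ A, f x = 0 := by
    intro x hx
    have hxS := (hApos x hx).1
    have h1 : del f e x ∈ A := by
      by_contra hn
      have := hχS.2 _ (hcl x hxS) hn
      rw [hχd, hχS.1 x hx] at this
      exact lt_irrefl _ this
    have h2 := hφ.1 _ h1
    rw [del_apply, map_sub, map_smul, hφ.1 x hx, smul_eq_mul] at h2
    have h3 : f x * φ e = 0 := by linarith
    rcases mul_eq_zero.1 h3 with h | h
    · exact h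
    · exact absurd h hφe.ne'
  have hχD : Exp (dbl S f e) A χ a := by
    refine ⟨hχS.1, fun x hx hxA => ?_⟩
    rcases hx with hx | ⟨y, hy, rfl⟩
    · exact hχS.2 x hx.1 hxA
    · have hχr : χ (ref f e y) = χ y := by
        rw [ref_apply, map_sub, map_smul, hχe, smul_zero, sub_zero]
      rw [hχr]
      refine hχS.2 y hy.1 fun hyA => hxA ?_
      have : ref f e y = y := by
        rw [ref_apply, hf0 y hyA, mul_zero, zero_smul, sub_zero]
      rw [this]
      exact hyA
  have := hall χ a hχD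
  linarith

/-- a reflection exchanges the upper and lower faces -/
theorem ups_neg_ncard {S : Set V} {f : V →ₗ[ℝ] ℝ} {e : V} (hS : S.Finite) (hfe : f e = 1)
    (hr : ∀ x ∈ S, ref f e x ∈ S) : (ups S (-e)).ncard ≤ (ups S e).ncard := by
  have hinj : Function.Injective (ref f e) := fun x y h => by
    rw [← ref_ref hfe x, h, ref_ref hfe]
  refine Set.ncard_le_ncard_of_injOn (fun A => ref f e '' A) ?_
    (fun A _ B _ h => hinj.image_injective h) (ups_finite hS e)
  rintro A ⟨⟨hAS, hAne, φ, c, hφ⟩, hall⟩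
  have htr : ∀ (φ : V →ₗ[ℝ] ℝ) (c : ℝ) (A : Set V), Exp S A φ c →
      Exp S (ref f e '' A) (φ ∘ₗ ref f e) c := by
    intro φ c A h
    refine ⟨?_, ?_⟩
    · rintro _ ⟨x, hx, rfl⟩
      rw [LinearMap.comp_apply, ref_ref hfe]
      exact h.1 x hx
    · intro x hx hx'
      rw [LinearMap.comp_apply]
      refine h.2 _ (hr x hx) fun hc => hx' ⟨_, hc, ref_ref hfe x⟩
  have hre : ref f e e = -e := by
    rw [ref_apply, hfe, mul_one, two_smul]
    abel
  refine ⟨⟨?_, hAne.image _, φ ∘ₗ ref f e, c, htr φ c A hφ⟩, ?_⟩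
  · rintro _ ⟨x, hx, rfl⟩
    exact hr x (hAS hx)
  · intro ψ b hψ
    have h1 := htr ψ b _ hψ
    rw [← Set.image_comp] at h1
    have h2 : (ref f e ∘ ref f e) '' A = A := by
      have : (ref f e ∘ ref f e : V → V) = id := by
        funext x
        exact ref_ref hfe x
      rw [this, Set.image_id]
    rw [h2] at h1
    have h3 := hall _ _ h1
    rw [LinearMap.comp_apply, map_neg, hre, neg_neg] at h3
    exact h3

theorem NF_dbl_le {S : Set V} {f : V →ₗ[ℝ] ℝ} {e : V} (hS : S.Finite) (hfe : f e = 1)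
    (hcl : ∀ x ∈ S, del f e x ∈ S) :
    NF (dbl S f e) ≤ NF (del f e '' S) + 2 * (ups S e).ncard := by
  have h1 := NF_split (dbl_finite hS f e) e
  have h2 := zer_ncard (S := dbl S f e) f hfe
  rw [del_image_dbl hfe hcl] at h2
  have h3 := ups_neg_ncard (dbl_finite hS f e) hfe (dbl_ref (S := S) hfe)
  have h4 : (ups (dbl S f e) e).ncard ≤ (ups S e).ncard :=
    Set.ncard_le_ncard (ups_dbl_subset hfe hcl) (ups_finite hS e)
  omega

/-- **Averaging.** -/
theorem avg {S : Set V} {f : V →ₗ[ℝ] ℝ} {e : V} (hS : S.Finite) (hfe : f e = 1)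
    (hcl : ∀ x ∈ S, del f e x ∈ S) :
    NF (dbl S f e) + NF (dbl S (-f) (-e)) ≤ 2 * NF S := by
  have h1 := NF_dbl_le hS hfe hcl
  have hfe' : (-f) (-e) = 1 := by
    rw [LinearMap.neg_apply, map_neg, neg_neg, hfe]
  have hdel : del (-f) (-e) = del f e := by
    ext x
    rw [del_apply, del_apply, LinearMap.neg_apply, neg_smul, smul_neg, neg_neg]
  have h2 := NF_dbl_le (S := S) (f := -f) (e := -e) hS hfe' (by rw [hdel]; exact hcl)
  rw [hdel] at h2
  have h3 := NF_split hS e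
  have h4 := zer_ncard (S := S) f hfe
  omega

end Pool.Agent.K3R
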