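import Pool.Agent.K3R.Star

/-!
# Small dimensions
-/

set_option autoImplicit false

namespace Pool.Agent.K3R

variable {V : Type} [AddCommGroup V] [Module ℝ V]

/-- the dimension of a (centrally symmetric) configuration -/
noncomputable def dm (S : Set V) : ℕ := Module.finrank ℝ (Submodule.span ℝ S)

theorem exists_sep {x y : V} (h : x ≠ y) : ∃ ψ : V →ₗ[ℝ] ℝ, ψ x ≠ ψ y := by
  have h1 : x - y ∉ (⊥ : Submodule ℝ V) := by
    rw [Submodule.mem_bot]
    exact sub_ne_zero.2 h
  obtain ⟨f, hf, -⟩ := Submodule.exists_le_ker_of_notMem h1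
  refine ⟨f, fun h2 => hf ?_⟩
  rw [map_sub, h2, sub_self]

/-- functionals vanishing on a set and non zero at a point outside its span -/
theorem exists_vanish {D : Set V} {y : V} (hy : y ∉ Submodule.span ℝ D) :
    ∃ ψ : V →ₗ[ℝ] ℝ, (∀ x ∈ D, ψ x = 0) ∧ ψ y ≠ 0 := by
  obtain ⟨f, hf, h2⟩ := Submodule.exists_le_ker_of_notMem hy
  exact ⟨f, fun x hx => LinearMap.mem_ker.1 (h2 (Submodule.subset_span hx)), hf⟩

theorem exists_vertex {S : Set V} (hS : S.Finite) (hne : S.Nonempty) : ∃ v, IsF S {v} := by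
  obtain ⟨D, hD, hmin⟩ := Set.exists_min_image (Fc S) (fun D => D.ncard) (Fc_finite hS)
    ⟨S, IsF.self hne⟩
  obtain ⟨v, hv⟩ := hD.2.1
  have hDfin := hS.subset hD.1
  have : D = {v} := by
    refine subset_antisymm (fun w hw => ?_) (Set.singleton_subset_iff.2 hv)
    by_contra hne'
    rw [Set.mem_singleton_iff] at hne'
    obtain ⟨ψ, hψ⟩ := exists_sep hne'
    have hF := mx_isF hDfin ⟨v, hv⟩ ψ
    have hss : mx D ψ ⊂ D := by
      refine ⟨hF.1, fun h => ?_⟩
      exact hψ (le_antisymm ((h hv).2 w hw) ((h hw).2 v hv))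
    have h1 := Set.ncard_lt_ncard hss hDfin
    have h2 := hmin _ (IsF.trans hS hD hF)
    omega
  exact ⟨v, this ▸ hD⟩

/-- an edge: all its points are on a segment whose ends belong to it -/
theorem exists_edge {S : Set V} (hS : S.Finite) (hn : S.Nontrivial) :
    ∃ (D : Set V) (a b : V), IsF S D ∧ a ∈ D ∧ b ∈ D ∧ a ≠ b ∧
      ∀ x ∈ D, ∃ t : ℝ, 0 ≤ t ∧ t ≤ 1 ∧ x = a + t • (b - a) := by
  have hfin : {D | IsF S D ∧ D.Nontrivial}.Finite := (Fc_finite hS).subset fun _ h => h.1
  obtain ⟨D, ⟨hD, hDn⟩, hmin⟩ := Set.exists_min_image _ (fun D => D.ncard) hfin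
    ⟨S, IsF.self hn.nonempty, hn⟩
  have hDfin := hS.subset hD.1
  obtain ⟨x, hx, y, hy, hxy⟩ := hDn
  obtain ⟨ψ, hψ⟩ := exists_sep hxy
  -- proper faces of `D` are subsingletons
  have hprop : ∀ A, IsF D A → A ≠ D → A.Subsingleton := by
    intro A hA hAD
    by_contra hcon
    rw [Set.not_subsingleton_iff] at hcon
    have h1 := Set.ncard_lt_ncard (hA.1.ssubset_of_ne hAD) hDfin
    have h2 := hmin A ⟨IsF.trans hS hD hA, hcon⟩
    omega
  have hA := mx_isF hDfin ⟨x, hx⟩ ψ
  have hAD : mx D ψ ≠ D := by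
    intro h
    have h1 : x ∈ mx D ψ := by rw [h]; exact hx
    have h2 : y ∈ mx D ψ := by rw [h]; exact hy
    exact hψ (le_antisymm (h2.2 x hx) (h1.2 y hy))
  have hsub := hprop _ hA hAD
  obtain ⟨a, ha⟩ := hA.2.1
  have hlt : ∀ z ∈ D, z ≠ a → ψ z < ψ a := by
    intro z hz hza
    by_contra h
    rw [not_lt] at h
    exact hza (hsub ⟨hz, fun w hw => (ha.2 w hw).trans h⟩ ha)
  obtain ⟨b, hb, hbmin⟩ := Set.exists_min_image D ψ hDfin ⟨x, hx⟩
  have hba : b ≠ a := by
    rintro rfl
    apply hψ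
    have h1 := ha.2 x hx
    have h2 := ha.2 y hy
    have h3 := hbmin x hx
    have h4 := hbmin y hy
    linarith
  have hψba := hlt b hb hba
  refine ⟨D, a, b, hD, ha.1, hb, hba.symm, ?_⟩
  intro z hz
  have hspan : z - a ∈ Submodule.span ℝ {b - a} := by
    by_contra hcon
    obtain ⟨χ, hχ1, hχ2⟩ := exists_vanish hcon
    wlog hpos : 0 < χ (z - a) generalizing χ
    · refine this (-χ) (fun x hx => ?_) ?_ ?_
      · rw [LinearMap.neg_apply, hχ1 x hx, neg_zero]
      · rw [LinearMap.neg_apply]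
        exact neg_ne_zero.2 hχ2
      · rw [LinearMap.neg_apply]
        rw [not_lt] at hpos
        have := lt_of_le_of_ne hpos hχ2
        linarith
    have hχb : χ b = χ a := by
      have := hχ1 (b - a) (Set.mem_singleton _)
      rw [map_sub] at this
      linarith
    have hza : z ≠ a := by
      rintro rfl
      rw [sub_self, map_zero] at hpos
      exact lt_irrefl _ hpos
    obtain ⟨v, hv, hvmax⟩ := Set.exists_max_image (D \ {a})
      (fun w => (χ w - χ a) / (ψ a - ψ w)) (hDfin.subset Set.sdiff_subset) ⟨z, hz, hza⟩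
    set c : ℝ := (χ v - χ a) / (ψ a - ψ v) with hc
    have hden : ∀ w ∈ D \ {a}, 0 < ψ a - ψ w := fun w hw => by
      have := hlt w hw.1 hw.2
      linarith
    have hcpos : 0 < c := by
      have h1 := hvmax z ⟨hz, hza⟩
      rw [map_sub] at hpos
      have h2 : 0 < (χ z - χ a) / (ψ a - ψ z) := div_pos hpos (hden z ⟨hz, hza⟩)
      exact h2.trans_le h1
    have hle : ∀ w ∈ D, χ w + c * ψ w ≤ χ a + c * ψ a := by
      intro w hw
      by_cases hwa : w = a
      · rw [hwa]
      · have h1 := hvmax w ⟨hw, hwa⟩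
        have h2 := hden w ⟨hw, hwa⟩
        have h3 := mul_le_mul_of_nonneg_right h1 h2.le
        rw [div_mul_cancel₀ _ h2.ne'] at h3
        linarith
    have hveq : χ v + c * ψ v = χ a + c * ψ a := by
      have h2 := hden v hv
      have h3 : c * (ψ a - ψ v) = χ v - χ a := by
        rw [hc, div_mul_cancel₀ _ h2.ne']
      linarith
    set X : Set V := {w | w ∈ D ∧ χ w + c * ψ w = χ a + c * ψ a} with hX
    have hXF : IsF D X := by
      refine ⟨fun w hw => hw.1, ⟨a, ha.1, rfl⟩, χ + c • ψ, χ a + c * ψ a, ?_, ?_⟩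
      · intro w hw
        exact hw.2
      · intro w hw hw'
        exact lt_of_le_of_ne (hle w hw) fun h => hw' ⟨hw, h⟩
    have hXD : X ≠ D := by
      intro h
      have h1 : b ∈ X := by rw [h]; exact hb
      have h2 := h1.2
      rw [hχb] at h2
      have h3 : c * (ψ a - ψ b) = 0 := by linarith
      have h4 := mul_pos hcpos (hden b ⟨hb, hba⟩)
      linarith
    exact hv.2 (hprop X hXF hXD ⟨hv.1, hveq⟩ ⟨ha.1, rfl⟩)
  obtain ⟨t, ht⟩ := Submodule.mem_span_singleton.1 hspan
  have hzt : z = a + t • (b - a) := by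
    rw [ht]
    abel
  have hψz : ψ z = ψ a + t * (ψ b - ψ a) := by
    rw [hzt, map_add, map_smul, map_sub, smul_eq_mul]
  refine ⟨t, ?_, ?_, hzt⟩
  · have := ha.2 z hz
    by_contra hneg
    rw [not_le] at hneg
    nlinarith
  · have := hbmin z hz
    by_contra hneg
    rw [not_le] at hneg
    nlinarith

theorem exists_notMem_of_dm {S : Set V} (W : Submodule ℝ V) [FiniteDimensional ℝ W]
    (h : Module.finrank ℝ W < dm S) : ∃ y ∈ S, y ∉ W := by
  by_contra hcon
  push Not at hcon
  have h1 : Submodule.span ℝ S ≤ W := Submodule.span_le.2 hcon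
  have := Submodule.finrank_mono h1
  unfold dm at h
  omega

theorem dm_le_ncard {D : Set V} (hD : D.Finite) : dm D ≤ D.ncard := by
  classical
  have : (D : Set V) = ((hD.toFinset : Finset V) : Set V) := by simp
  unfold dm
  rw [this, Set.ncard_coe_finset]
  exact finrank_span_finset_le_card _

theorem base1 {S : Set V} (hS : S.Finite) (hsym : ∀ x ∈ S, -x ∈ S)
    (h : 1 ≤ dm S) : 3 ≤ NF S := by
  obtain ⟨y, hy, hy0⟩ := exists_notMem_of_dm (S := S) (⊥ : Submodule ℝ V) (by
    rw [finrank_bot]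
    omega)
  obtain ⟨ψ, -, hψ⟩ := exists_vanish (D := ∅) (y := y) (by
    rw [Submodule.span_empty]
    exact hy0)
  refine three_le_NF hS ψ hy (hsym y hy) ?_
  rw [map_neg]
  intro h
  apply hψ
  linarith

/-- a proper face of a centrally symmetric configuration of positive dimension does not contain
`0` -/
theorem face_ne {S : Set V} (hsym : ∀ x ∈ S, -x ∈ S) {D : Set V} (hD : IsF S D) (hDS : D ≠ S) :
    ∀ x ∈ D, -x ∉ D := by
  obtain ⟨h, h1, h2⟩ := exists_norm hsym hD hDS
  intro x hx hx'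
  have := h1 _ hx'
  rw [map_neg, h1 x hx] at this
  linarith

theorem image_sym {W : Type} [AddCommGroup W] [Module ℝ W] {S : Set V}
    (hsym : ∀ x ∈ S, -x ∈ S) (π : V →ₗ[ℝ] W) : ∀ x ∈ π '' S, -x ∈ π '' S := by
  rintro _ ⟨x, hx, rfl⟩
  exact ⟨-x, hsym x hx, map_neg π x⟩

theorem dm_mkQ {S : Set V} (hS : S.Finite) (e : V) :
    dm S ≤ dm ((Submodule.span ℝ {e}).mkQ '' S) + 1 := by
  have : FiniteDimensional ℝ (Submodule.span ℝ S) := FiniteDimensional.span_of_finite ℝ hS
  unfold dm
  rw [Submodule.span_image]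
  have h1 := LinearMap.finrank_range_add_finrank_ker
    ((Submodule.span ℝ {e}).mkQ.domRestrict (Submodule.span ℝ S))
  have h2 : LinearMap.range ((Submodule.span ℝ {e}).mkQ.domRestrict (Submodule.span ℝ S)) =
      (Submodule.span ℝ S).map (Submodule.span ℝ {e}).mkQ := by
    rw [LinearMap.range_domRestrict]
  rw [h2] at h1
  have h3 : Module.finrank ℝ (LinearMap.ker
      ((Submodule.span ℝ {e}).mkQ.domRestrict (Submodule.span ℝ S))) ≤ 1 := by
    have h4 : Module.finrank ℝ (Submodule.span ℝ {e}) ≤ 1 := by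
      have := finrank_span_le_card (R := ℝ) ({e} : Set V)
      simpa using this
    refine le_trans ?_ h4
    refine LinearMap.finrank_le_finrank_of_injective
      (f := LinearMap.codRestrict (Submodule.span ℝ {e})
        ((Submodule.span ℝ S).subtype ∘ₗ (LinearMap.ker
          ((Submodule.span ℝ {e}).mkQ.domRestrict (Submodule.span ℝ S))).subtype) ?_) ?_
    · rintro ⟨x, hx⟩
      have := LinearMap.mem_ker.1 hx
      rw [LinearMap.domRestrict_apply] at this
      simpa using this
    · intro x y hxy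
      have := congrArg Subtype.val hxy
      simp only [LinearMap.codRestrict_apply, LinearMap.comp_apply, Submodule.subtype_apply] at this
      exact Subtype.ext (Subtype.ext this)
  omega

theorem base2 {S : Set V} (hS : S.Finite) (hsym : ∀ x ∈ S, -x ∈ S)
    (h : 2 ≤ dm S) : 9 ≤ NF S := by
  have hne : S.Nonempty := by
    rw [Set.nonempty_iff_ne_empty]
    rintro rfl
    unfold dm at h
    rw [Submodule.span_empty, finrank_bot] at h
    omega
  obtain ⟨v, hv⟩ := exists_vertex hS hne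
  have hvS : ({v} : Set V) ≠ S := by
    intro h1
    have h2 := dm_le_ncard hS
    rw [← h1, Set.ncard_singleton, h1] at h2
    omega
  have hfr : Module.finrank ℝ (Submodule.span ℝ {v}) ≤ 1 := by
    have := finrank_span_le_card (R := ℝ) ({v} : Set V)
    simpa using this
  obtain ⟨y, hy, hyv⟩ := exists_notMem_of_dm (S := S) (Submodule.span ℝ {v}) (by omega)
  obtain ⟨ψ, hψ1, hψ2⟩ := exists_vanish hyv
  have hn := three_le_nD hS hsym hv hvS ψ hψ1 hy hψ2
  have hπ := central_face hS hsym hv (e := v) (fun A _ hA => by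
    obtain ⟨x, hx⟩ := (by assumption : IsF S A).2.1
    refine ⟨x, hx, ?_⟩
    have := hA hx
    rw [Set.mem_singleton_iff] at this
    rw [this, Set.mem_singleton_iff, two_smul]
    abel) (Submodule.span ℝ {v}).mkQ (by simp [Submodule.mem_span_singleton_self])
  have h1 : 1 ≤ NF ({v} : Set V) := by
    unfold NF
    rw [Nat.one_le_iff_ne_zero]
    intro h0
    rw [Set.ncard_eq_zero (Fc_finite (Set.finite_singleton v))] at h0
    have : ({v} : Set V) ∈ Fc {v} := IsF.self (Set.singleton_nonempty v)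
    rw [h0] at this
    exact this
  have h3 : 3 ≤ NF ((Submodule.span ℝ {v}).mkQ '' S) :=
    base1 (hS.image _) (image_sym hsym _) (by
      have := dm_mkQ hS v
      omega)
  have h4 : 1 * 3 ≤ NF ({v} : Set V) * nD S {v} := Nat.mul_le_mul h1 hn
  omega

theorem base3 {S : Set V} (hS : S.Finite) (hsym : ∀ x ∈ S, -x ∈ S)
    (h : 3 ≤ dm S) : 27 ≤ NF S := by
  have hnt : S.Nontrivial := by
    have := hS.to_subtype
    rw [← Set.one_lt_ncard_iff_nontrivial]
    have := dm_le_ncard hS
    omega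
  obtain ⟨D, a, b, hD, ha, hb, hab, hseg⟩ := exists_edge hS hnt
  have hspan : Submodule.span ℝ D ≤ Submodule.span ℝ {a, b} := by
    rw [Submodule.span_le]
    intro x hx
    obtain ⟨t, -, -, rfl⟩ := hseg x hx
    have h1 : a ∈ Submodule.span ℝ {a, b} := Submodule.subset_span (by simp)
    have h2 : b ∈ Submodule.span ℝ {a, b} := Submodule.subset_span (by simp)
    exact Submodule.add_mem _ h1 (Submodule.smul_mem _ t (Submodule.sub_mem _ h2 h1))
  have hfr : Module.finrank ℝ (Submodule.span ℝ {a, b}) ≤ 2 := by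
    classical
    have h1 := finrank_span_finset_le_card (R := ℝ) ({a, b} : Finset V)
    have h2 : (({a, b} : Finset V) : Set V) = {a, b} := by simp
    unfold Set.finrank at h1
    rw [h2] at h1
    exact h1.trans Finset.card_le_two
  have : FiniteDimensional ℝ (Submodule.span ℝ ({a, b} : Set V)) :=
    FiniteDimensional.span_of_finite ℝ (Set.toFinite _)
  obtain ⟨y, hy, hyv⟩ := exists_notMem_of_dm (S := S) (Submodule.span ℝ {a, b}) (by omega)
  have hDS : D ≠ S := by
    rintro rfl
    exact hyv (hspan (Submodule.subset_span hy))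
  obtain ⟨ψ, hψ1, hψ2⟩ := exists_vanish (D := D) (y := y) fun h => hyv (hspan h)
  have hn := three_le_nD hS hsym hD hDS ψ hψ1 hy hψ2
  obtain ⟨χ, hχ⟩ := exists_sep hab
  have hND : 3 ≤ NF D := three_le_NF (hS.subset hD.1) χ ha hb hχ
  have hπ := central_face hS hsym hD (e := (2⁻¹ : ℝ) • (a + b)) (by
    intro A hA hAD
    obtain ⟨hAS, ⟨x, hx⟩, φ, c, h1, h2⟩ := hA
    have hmem : a ∈ A ∨ b ∈ A := by
      by_contra hcon
      push Not at hcon
      obtain ⟨t, ht0, ht1, hxt⟩ := hseg x (hAD hx)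
      have h3 := h2 a (hD.1 ha) hcon.1
      have h4 := h2 b (hD.1 hb) hcon.2
      have h5 := h1 x hx
      rw [hxt, map_add, map_smul, map_sub, smul_eq_mul] at h5
      nlinarith [mul_nonneg ht0 (sub_nonneg.2 h4.le), mul_nonneg (sub_nonneg.2 ht1) (sub_nonneg.2 h3.le)]
    rcases hmem with h | h
    · refine ⟨a, h, ?_⟩
      have : (2 : ℝ) • (2⁻¹ : ℝ) • (a + b) - a = b := by
        rw [smul_smul]
        norm_num
      rw [this]
      exact hb
    · refine ⟨b, h, ?_⟩
      have : (2 : ℝ) • (2⁻¹ : ℝ) • (a + b) - b = a := by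
        rw [smul_smul]
        norm_num
      rw [this]
      exact ha) (Submodule.span ℝ {(2⁻¹ : ℝ) • (a + b)}).mkQ
      (by rw [Submodule.mkQ_apply, Submodule.Quotient.mk_eq_zero]
          exact Submodule.mem_span_singleton_self _)
  have h9 : 9 ≤ NF ((Submodule.span ℝ {(2⁻¹ : ℝ) • (a + b)}).mkQ '' S) :=
    base2 (hS.image _) (image_sym hsym _) (by
      have := dm_mkQ hS ((2⁻¹ : ℝ) • (a + b))
      omega)
  have h4 : 3 * 3 ≤ NF D * nD S D := Nat.mul_le_mul hND hn
  omega

theorem one_le_NF {S : Set V} (hS : S.Finite) (hne : S.Nonempty) : 1 ≤ NF S := by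
  unfold NF
  rw [Nat.one_le_iff_ne_zero]
  intro h0
  rw [Set.ncard_eq_zero (Fc_finite hS)] at h0
  have : S ∈ Fc S := IsF.self hne
  rw [h0] at this
  exact this

theorem base {S : Set V} (hS : S.Finite) (hne : S.Nonempty) (hsym : ∀ x ∈ S, -x ∈ S)
    (h : dm S ≤ 3) : 3 ^ dm S ≤ NF S := by
  have h1 := one_le_NF hS hne
  have h2 := base1 hS hsym
  have h3 := base2 hS hsym
  have h4 := base3 hS hsym
  have h5 : dm S = 0 ∨ dm S = 1 ∨ dm S = 2 ∨ dm S = 3 := by omega
  rcases h5 with h5 | h5 | h5 | h5 <;> rw [h5] <;> norm_num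
  · exact h1
  · exact h2 (by omega)
  · exact h3 (by omega)
  · exact h4 (by omega)

end Pool.Agent.K3R
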