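import Pool.Agent.K3R.Cfg

/-!
# The central face inequality

If `D` is a proper face of the centrally symmetric configuration `S` which is centrally symmetric
about `e`, then `NF S ≥ NF (π '' S) + 2 * NF D * nD S D` for every linear `π` with `π e = 0`.
-/

set_option autoImplicit false

namespace Pool.Agent.K3R

variable {V : Type} [AddCommGroup V] [Module ℝ V]

/-- the faces `C ≠ S` of `S` which contain `D` -/
def Up (S D : Set V) : Set (Set V) := {C | IsF S C ∧ D ⊆ C ∧ C ≠ S}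

/-- their number -/
noncomputable def nD (S D : Set V) : ℕ := (Up S D).ncard

theorem Up_finite {S D : Set V} (hS : S.Finite) : (Up S D).Finite :=
  (Fc_finite hS).subset fun _ h => h.1

/-- the faces which meet `D` and lie in a proper face together with `D` -/
def UU (S D : Set V) : Set (Set V) :=
  {X | IsF S X ∧ (X ∩ D).Nonempty ∧ ∃ C ∈ Up S D, X ⊆ C}

theorem UU_finite {S D : Set V} (hS : S.Finite) : (UU S D).Finite :=
  (Fc_finite hS).subset fun _ h => h.1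

theorem mul_le_UU {S D : Set V} (hS : S.Finite) (hD : IsF S D) :
    NF D * nD S D ≤ (UU S D).ncard := by
  classical
  have key : ∀ p : Set V × Set V, p ∈ Fc D ×ˢ Up S D →
      ∃ X, IsF S X ∧ X ⊆ p.2 ∧ X ∩ D = p.1 ∧ ∀ C', IsF S C' → X ⊆ C' → D ⊆ C' → p.2 ⊆ C' := by
    rintro ⟨G, C⟩ ⟨hG, hC⟩
    exact exists_compl hS (IsF.trans hS hD hG) hD hC.1 hG.1 hC.2.1
  choose! F hF using key
  unfold NF nD
  rw [← Set.ncard_prod]
  refine Set.ncard_le_ncard_of_injOn F ?_ ?_ (UU_finite hS)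
  · intro p hp
    obtain ⟨h1, h2, h3, -⟩ := hF p hp
    refine ⟨h1, ?_, p.2, hp.2, h2⟩
    rw [h3]
    exact hp.1.2.1
  · intro p hp q hq hpq
    obtain ⟨h1, h2, h3, h4⟩ := hF p hp
    obtain ⟨k1, k2, k3, k4⟩ := hF q hq
    refine Prod.ext ?_ ?_
    · rw [← h3, ← k3, hpq]
    · refine subset_antisymm ?_ ?_
      · refine h4 q.2 hq.2.1 ?_ hq.2.2.1
        rw [hpq]
        exact k2
      · refine k4 p.2 hp.2.1 ?_ hp.2.2.1
        rw [← hpq]
        exact h2

/-- every functional exposing a face in `UU` is positive at the centre -/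
theorem UU_pos {S D : Set V} (hsym : ∀ x ∈ S, -x ∈ S) (hD : IsF S D)
    {e : V} (hcs : ∀ A, IsF S A → A ⊆ D → ∃ x ∈ A, (2 : ℝ) • e - x ∈ D)
    {X : Set V} (hX : X ∈ UU S D) {φ : V →ₗ[ℝ] ℝ} {c : ℝ}
    (h1 : ∀ x ∈ X, φ x = c) (h2 : ∀ x ∈ S, x ∉ X → φ x < c) : 0 < φ e := by
  obtain ⟨hXF, hXD, C, ⟨hC, hDC, hCS⟩, hXC⟩ := hX
  obtain ⟨x, hx, hx'⟩ := hcs (X ∩ D) (hXF.inter hD hXD) Set.inter_subset_right
  have hy : -((2 : ℝ) • e - x) ∈ S := hsym _ (hD.1 hx')
  have h3 : φ (-((2 : ℝ) • e - x)) ≤ c := IsF.le_max h1 h2 hy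
  have h4 : φ (-((2 : ℝ) • e - x)) = c - 2 * φ e := by
    rw [map_neg, map_sub, map_smul, h1 x hx.1, smul_eq_mul]
    ring
  rcases lt_trichotomy (φ e) 0 with h | h | h
  · linarith
  · exfalso
    have h5 : -((2 : ℝ) • e - x) ∈ X := by
      by_contra hn
      have := h2 _ hy hn
      rw [h4, h] at this
      linarith
    obtain ⟨hCS', hCne, ψ, b, k1, k2⟩ := hC
    have hb := pos_of_ne hsym hCS' hCS hCne k1 k2
    have h6 := k1 _ (hXC h5)
    have h7 := k1 _ (hDC hx')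
    rw [map_neg, h7] at h6
    linarith
  · exact h

theorem central_face {W : Type} [AddCommGroup W] [Module ℝ W] {S D : Set V} (hS : S.Finite)
    (hsym : ∀ x ∈ S, -x ∈ S) (hD : IsF S D)
    {e : V} (hcs : ∀ A, IsF S A → A ⊆ D → ∃ x ∈ A, (2 : ℝ) • e - x ∈ D)
    (π : V →ₗ[ℝ] W) (hπ : π e = 0) :
    NF (π '' S) + 2 * (NF D * nD S D) ≤ NF S := by
  set A0 : Set (Set V) := (fun B => S ∩ π ⁻¹' B) '' Fc (π '' S) with hA0
  set A1 : Set (Set V) := UU S D with hA1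
  set A2 : Set (Set V) := (fun A : Set V => (fun x => -x) '' A) '' UU S D with hA2
  have hA0c : A0.ncard = NF (π '' S) := Set.ncard_image_of_injOn (preimage_injOn π)
  have hA2c : A2.ncard = A1.ncard := Set.ncard_image_of_injective _ neg_image_injective
  have hA0s : A0 ⊆ Fc S := by
    rintro _ ⟨B, hB, rfl⟩
    exact IsF.preimage π hB
  have hA1s : A1 ⊆ Fc S := fun X hX => hX.1
  have hA2s : A2 ⊆ Fc S := by
    rintro _ ⟨X, hX, rfl⟩
    exact hX.1.neg hsym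
  have hA0e : ∀ X ∈ A0, ∃ (φ : V →ₗ[ℝ] ℝ) (c : ℝ), φ e = 0 ∧ (∀ x ∈ X, φ x = c) ∧
      ∀ x ∈ S, x ∉ X → φ x < c := by
    rintro _ ⟨B, ⟨hBS, hBne, φ, c, h1, h2⟩, rfl⟩
    refine ⟨φ ∘ₗ π, c, ?_, ?_, ?_⟩
    · rw [LinearMap.comp_apply, hπ, map_zero]
    · intro x hx
      exact h1 _ hx.2
    · intro x hx hx'
      exact h2 _ ⟨x, hx, rfl⟩ fun h => hx' ⟨hx, h⟩
  -- an exposing functional for the negative
  have hneg : ∀ (Y : Set V) (φ : V →ₗ[ℝ] ℝ) (c : ℝ),
      (∀ x ∈ (fun x => -x) '' Y, φ x = c) → (∀ x ∈ S, x ∉ (fun x => -x) '' Y → φ x < c) →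
      (∀ x ∈ Y, (-φ) x = c) ∧ ∀ x ∈ S, x ∉ Y → (-φ) x < c := by
    intro Y φ c h1 h2
    refine ⟨fun x hx => ?_, fun x hx hx' => ?_⟩
    · have := h1 (-x) ⟨x, hx, rfl⟩
      rw [map_neg] at this
      rw [LinearMap.neg_apply]
      exact this
    · have h3 : -x ∉ (fun x => -x) '' Y := by
        rintro ⟨y, hy, hyx⟩
        exact hx' (by rw [← neg_injective hyx]; exact hy)
      have := h2 (-x) (hsym x hx) h3
      rw [map_neg] at this
      rw [LinearMap.neg_apply]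
      exact this
  have d01 : Disjoint A0 A1 := by
    rw [Set.disjoint_left]
    intro X hX0 hX1
    obtain ⟨φ, c, he, h1, h2⟩ := hA0e X hX0
    have := UU_pos hsym hD hcs hX1 h1 h2
    linarith
  have d02 : Disjoint A0 A2 := by
    rw [Set.disjoint_left]
    rintro _ hX0 ⟨Y, hY, rfl⟩
    obtain ⟨φ, c, he, h1, h2⟩ := hA0e _ hX0
    obtain ⟨h3, h4⟩ := hneg Y φ c h1 h2
    have := UU_pos hsym hD hcs hY h3 h4
    rw [LinearMap.neg_apply, he] at this
    linarith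
  have d12 : Disjoint A1 A2 := by
    rw [Set.disjoint_left]
    rintro _ hX1 ⟨Y, hY, rfl⟩
    obtain ⟨-, -, φ, c, h1, h2⟩ := hX1.1
    have h5 := UU_pos hsym hD hcs hX1 h1 h2
    obtain ⟨h3, h4⟩ := hneg Y φ c h1 h2
    have := UU_pos hsym hD hcs hY h3 h4
    rw [LinearMap.neg_apply] at this
    linarith
  have hfin := Fc_finite hS
  have hf0 := hfin.subset hA0s
  have hf1 := hfin.subset hA1s
  have hf2 := hfin.subset hA2s
  have hsub : A0 ∪ (A1 ∪ A2) ⊆ Fc S :=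
    Set.union_subset hA0s (Set.union_subset hA1s hA2s)
  have hle := Set.ncard_le_ncard hsub hfin
  rw [Set.ncard_union_eq (Set.disjoint_union_right.2 ⟨d01, d02⟩) hf0 (hf1.union hf2),
    Set.ncard_union_eq d12 hf1 hf2, hA0c, hA2c] at hle
  have hm := mul_le_UU hS hD
  have : (Fc S).ncard = NF S := rfl
  rw [this] at hle
  change NF D * nD S D ≤ A1.ncard at hm
  omega

end Pool.Agent.K3R
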