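import Pool.Agent.K3R.Bridge

/-!
# The central face inequality, general form
-/

set_option autoImplicit false

namespace Pool.Agent.K3R

section general

variable {V : Type} [AddCommGroup V] [Module ℝ V]

/-- every functional exposing a face in `UU` is positive at `e` -/
theorem UU_pos2 {S D : Set V} (hsym : ∀ x ∈ S, -x ∈ S) (hD : IsF S D)
    {e : V} (he : e ∈ convexHull ℝ D)
    (hcs : ∀ A, IsF S A → A ⊆ D → ∃ x ∈ A, ∃ t : ℝ, 0 < t ∧ x - t • e ∈ convexHull ℝ S)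
    {X : Set V} (hX : X ∈ UU S D) {φ : V →ₗ[ℝ] ℝ} {c : ℝ}
    (h1 : ∀ x ∈ X, φ x = c) (h2 : ∀ x ∈ S, x ∉ X → φ x < c) : 0 < φ e := by
  obtain ⟨hXF, hXD, C, ⟨hC, hDC, hCS⟩, hXC⟩ := hX
  obtain ⟨x, hx, t, ht, hy⟩ := hcs (X ∩ D) (hXF.inter hD hXD) Set.inter_subset_right
  have h3 : φ (x - t • e) ≤ c := le_hull (fun z hz => IsF.le_max h1 h2 hz) hy
  have h4 : φ (x - t • e) = c - t * φ e := by
    rw [map_sub, map_smul, h1 x hx.1, smul_eq_mul]
  rcases lt_trichotomy (φ e) 0 with h | h | h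
  · exfalso
    have := mul_neg_of_pos_of_neg ht h
    linarith
  · exfalso
    have h5 : x - t • e ∈ convexHull ℝ X :=
      face_hull h1 h2 hy (by rw [h4, h, mul_zero, sub_zero])
    obtain ⟨hCS', hCne, ψ, b, k1, k2⟩ := hC
    have hb := pos_of_ne hsym hCS' hCS hCne k1 k2
    have h6 := hull_eq (fun z hz => k1 z (hXC hz)) h5
    have h7 := hull_eq (fun z hz => k1 z (hDC hz)) he
    have h8 := k1 x (hXC hx.1)
    rw [map_sub, map_smul, h7, h8, smul_eq_mul] at h6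
    have := mul_pos ht hb
    linarith
  · exact h

theorem central_face2 {W : Type} [AddCommGroup W] [Module ℝ W] {S D : Set V} (hS : S.Finite)
    (hsym : ∀ x ∈ S, -x ∈ S) (hD : IsF S D)
    {e : V} (he : e ∈ convexHull ℝ D)
    (hcs : ∀ A, IsF S A → A ⊆ D → ∃ x ∈ A, ∃ t : ℝ, 0 < t ∧ x - t • e ∈ convexHull ℝ S)
    (π : V →ₗ[ℝ] W) (hπ : π e = 0) :
    NF (π '' S) + 2 * (NF D * nD S D) ≤ NF S := by
  set A0 : Set (Set V) := (fun B => S ∩ π ⁻¹' B) '' Fc (π '' S) with hA0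
  set A1 : Set (Set V) := UU S D with hA1
  set A2 : Set (Set V) := (fun A : Set V => (fun x => -x) '' A) '' UU S D with hA2
  have hA0c : A0.ncard = NF (π '' S) := Set.InjOn.ncard_image (preimage_injOn π)
  have hA2c : A2.ncard = A1.ncard := Set.ncard_image_of_injective _ neg_image_injective
  have hA0s : A0 ⊆ Fc S := by
    rintro _ ⟨B, hB, rfl⟩
    exact IsF.preimage π hB
  have hA1s : A1 ⊆ Fc S := fun X hX => hX.1
  have hA2s : A2 ⊆ Fc S := by
    rintro _ ⟨X, hX, rfl⟩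
    exact hX.1.neg hsym
  have hA0e : ∀ X ∈ A0, ∃ (φ : V →ₗ[ℝ] ℝ) (c : ℝ), φ e = 0 ∧ (∀ x ∈ X, φ x = c) ∧
      ∀ x ∈ S, x ∉ X → φ x < c := by
    rintro _ ⟨B, ⟨hBS, hBne, φ, c, h1, h2⟩, rfl⟩
    refine ⟨φ ∘ₗ π, c, ?_, ?_, ?_⟩
    · rw [LinearMap.comp_apply, hπ, map_zero]
    · intro x hx
      exact h1 _ hx.2
    · intro x hx hx'
      exact h2 _ ⟨x, hx, rfl⟩ fun h => hx' ⟨hx, h⟩
  -- an exposing functional for the negative
  have hneg : ∀ (Y : Set V) (φ : V →ₗ[ℝ] ℝ) (c : ℝ),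
      (∀ x ∈ (fun x => -x) '' Y, φ x = c) → (∀ x ∈ S, x ∉ (fun x => -x) '' Y → φ x < c) →
      (∀ x ∈ Y, (-φ) x = c) ∧ ∀ x ∈ S, x ∉ Y → (-φ) x < c := by
    intro Y φ c h1 h2
    refine ⟨fun x hx => ?_, fun x hx hx' => ?_⟩
    · have := h1 (-x) ⟨x, hx, rfl⟩
      rw [map_neg] at this
      rw [LinearMap.neg_apply]
      exact this
    · have h3 : -x ∉ (fun x => -x) '' Y := by
        rintro ⟨y, hy, hyx⟩
        exact hx' (by rw [← neg_injective hyx]; exact hy)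
      have := h2 (-x) (hsym x hx) h3
      rw [map_neg] at this
      rw [LinearMap.neg_apply]
      exact this
  have d01 : Disjoint A0 A1 := by
    rw [Set.disjoint_left]
    intro X hX0 hX1
    obtain ⟨φ, c, he', h1, h2⟩ := hA0e X hX0
    have := UU_pos2 hsym hD he hcs hX1 h1 h2
    linarith
  have d02 : Disjoint A0 A2 := by
    rw [Set.disjoint_left]
    rintro _ hX0 ⟨Y, hY, rfl⟩
    obtain ⟨φ, c, he', h1, h2⟩ := hA0e _ hX0
    obtain ⟨h3, h4⟩ := hneg Y φ c h1 h2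
    have := UU_pos2 hsym hD he hcs hY h3 h4
    rw [LinearMap.neg_apply, he'] at this
    linarith
  have d12 : Disjoint A1 A2 := by
    rw [Set.disjoint_left]
    rintro _ hX1 ⟨Y, hY, rfl⟩
    obtain ⟨-, -, φ, c, h1, h2⟩ := hX1.1
    have h5 := UU_pos2 hsym hD he hcs hX1 h1 h2
    obtain ⟨h3, h4⟩ := hneg Y φ c h1 h2
    have := UU_pos2 hsym hD he hcs hY h3 h4
    rw [LinearMap.neg_apply] at this
    linarith
  have hfin := Fc_finite hS
  have hf0 := hfin.subset hA0s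
  have hf1 := hfin.subset hA1s
  have hf2 := hfin.subset hA2s
  have hsub : A0 ∪ (A1 ∪ A2) ⊆ Fc S :=
    Set.union_subset hA0s (Set.union_subset hA1s hA2s)
  have hle := Set.ncard_le_ncard hsub hfin
  rw [Set.ncard_union_eq (Set.disjoint_union_right.2 ⟨d01, d02⟩) hf0 (hf1.union hf2),
    Set.ncard_union_eq d12 hf1 hf2, hA0c, hA2c] at hle
  have hm := mul_le_UU hS hD
  have : (Fc S).ncard = NF S := rfl
  rw [this] at hle
  change NF D * nD S D ≤ A1.ncard at hm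
  omega

end general

theorem poly_central {d k : ℕ} {S₁ : Set (E d)} (hS₁ : S₁.Finite)
    (hsymP : ∀ x ∈ convexHull ℝ S₁, -x ∈ convexHull ℝ S₁)
    {F : Set (E d)} (hF : IsExposed ℝ (convexHull ℝ S₁) F) (hFP : F ≠ convexHull ℝ S₁)
    {e : E d} (he : e ∈ F)
    (hcs : ∀ x ∈ F, x ∈ Set.extremePoints ℝ (convexHull ℝ S₁) →
      ∃ t : ℝ, 0 < t ∧ x - t • e ∈ convexHull ℝ S₁)
    (L : E d →ₗ[ℝ] E k) (hL : L e = 0) :
    (XF (L '' convexHull ℝ S₁)).encard +
      2 * ((XF F).encard *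
        {C : Set (E d) | IsExposed ℝ (convexHull ℝ S₁) C ∧ F ⊆ C ∧
          C ≠ convexHull ℝ S₁}.encard) ≤ (XF (convexHull ℝ S₁)).encard := by
  classical
  -- make the configuration symmetric
  obtain ⟨S, hS, hPS, hsym⟩ : ∃ S : Set (E d), S.Finite ∧ convexHull ℝ S = convexHull ℝ S₁ ∧
      ∀ x ∈ S, -x ∈ S := by
    refine ⟨S₁ ∪ (fun x => -x) '' S₁, hS₁.union (hS₁.image _), ?_, ?_⟩
    · apply subset_antisymm
      · refine convexHull_min ?_ (convex_convexHull ℝ S₁)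
        rintro x (hx | ⟨y, hy, rfl⟩)
        · exact subset_convexHull ℝ S₁ hx
        · exact hsymP _ (subset_convexHull ℝ S₁ hy)
      · exact convexHull_mono Set.subset_union_left
    · rintro x (hx | ⟨y, hy, rfl⟩)
      · exact Or.inr ⟨x, hx, rfl⟩
      · left
        simpa using hy
  rw [← hPS] at hF hFP hcs ⊢
  have hFX : F ∈ XF (convexHull ℝ S) := ⟨⟨e, he⟩, hF⟩
  obtain ⟨hD, hFD⟩ := XF_hull hFX
  set D : Set (E d) := F ∩ S with hDdef
  have hDfin : D.Finite := hS.subset Set.inter_subset_right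
  have heD : e ∈ convexHull ℝ D := by
    rw [← hFD]
    exact he
  have hcs' : ∀ A, IsF S A → A ⊆ D → ∃ x ∈ A, ∃ t : ℝ, 0 < t ∧ x - t • e ∈ convexHull ℝ S := by
    intro A hA hAD
    obtain ⟨v, hv⟩ := exists_vertex (hS.subset hA.1) hA.2.1
    have hvA : v ∈ A := hv.1 (Set.mem_singleton v)
    have hvS : IsF S {v} := IsF.trans hS hA hv
    refine ⟨v, hvA, hcs v (hAD hvA).1 ?_⟩
    obtain ⟨h0, -, φ, c, h1, h2⟩ := hvS
    have hvP : v ∈ convexHull ℝ S := subset_convexHull ℝ S (h0 (Set.mem_singleton v))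
    refine ⟨hvP, ?_⟩
    intro x hx y hy hxy
    have hφv : φ v = c := h1 v (Set.mem_singleton v)
    have hle : ∀ z ∈ convexHull ℝ S, φ z ≤ c := fun z hz =>
      le_hull (fun w hw => IsF.le_max h1 h2 hw) hz
    have hlex := hle x hx
    have hley := hle y hy
    obtain ⟨a, b, ha, hb, hab, hvab⟩ := hxy
    have h3 : a * φ x + b * φ y = c := by
      rw [← hφv, ← hvab, map_add, map_smul, map_smul, smul_eq_mul, smul_eq_mul]
    have h4 : φ x = c := by
      by_contra hne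
      have hlt := lt_of_le_of_ne hlex hne
      have h5 := mul_lt_mul_of_pos_left hlt ha
      have h6 := mul_le_mul_of_nonneg_left hley hb.le
      have h7 : a * c + b * c = c := by rw [← add_mul, hab, one_mul]
      linarith
    have h5 : x ∈ convexHull ℝ {v} := face_hull h1 h2 hx h4
    rw [convexHull_singleton] at h5
    exact h5
  have hmain := central_face2 hS hsym hD heD hcs' L hL
  have h1 : (XF (L '' convexHull ℝ S)).encard ≤ (NF (L '' S) : ℕ∞) := by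
    rw [L.image_convexHull]
    exact XF_le_NF (hS.image L)
  have h2 : (XF F).encard ≤ (NF D : ℕ∞) := by
    conv_lhs => rw [hFD]
    exact XF_le_NF hDfin
  have h3 : {C : Set (E d) | IsExposed ℝ (convexHull ℝ S) C ∧ F ⊆ C ∧
      C ≠ convexHull ℝ S}.encard ≤ (nD S D : ℕ∞) := by
    unfold nD
    rw [(Up_finite hS).cast_ncard_eq]
    refine Set.encard_le_encard_of_injOn (f := fun C => C ∩ S) ?_ ?_
    · rintro C ⟨hC, hFC, hCP⟩
      have hCX : C ∈ XF (convexHull ℝ S) := ⟨⟨e, hFC he⟩, hC⟩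
      refine ⟨(XF_hull hCX).1, fun x hx => ⟨hFC hx.1, hx.2⟩, ?_⟩
      intro hCS
      apply hCP
      rw [(XF_hull hCX).2]
      exact congrArg (fun A => convexHull ℝ A) hCS
    · rintro C ⟨hC, hFC, hCP⟩ C' ⟨hC', hFC', hCP'⟩ hCC
      have hCX : C ∈ XF (convexHull ℝ S) := ⟨⟨e, hFC he⟩, hC⟩
      have hCX' : C' ∈ XF (convexHull ℝ S) := ⟨⟨e, hFC' he⟩, hC'⟩
      rw [(XF_hull hCX).2, (XF_hull hCX').2]
      exact congrArg (fun A => convexHull ℝ A) hCC
  calc _ ≤ (NF (L '' S) : ℕ∞) + 2 * ((NF D : ℕ∞) * (nD S D : ℕ∞)) := by gcongr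
    _ ≤ (NF S : ℕ∞) := by exact_mod_cast hmain
    _ ≤ _ := NF_le_XF hS

end Pool.Agent.K3R
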