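import Mathlib

/-!
# Faces of finite point configurations (Kalai 3^d, reflection theorem): basic facts

A face of a finite set `S` of points is the set of points of `S` where some linear functional is
maximal. This is the same as the nonempty exposed faces of the convex hull of `S`.
-/

set_option autoImplicit false

namespace Pool.Agent.K3R

variable {V : Type} [AddCommGroup V] [Module ℝ V]

/-- `A` is a face of the point configuration `S`. -/
def IsF (S A : Set V) : Prop :=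
  A ⊆ S ∧ A.Nonempty ∧
    ∃ (φ : V →ₗ[ℝ] ℝ) (c : ℝ), (∀ x ∈ A, φ x = c) ∧ ∀ x ∈ S, x ∉ A → φ x < c

/-- The set of all faces of `S`. -/
def Fc (S : Set V) : Set (Set V) := {A | IsF S A}

/-- The number of faces of `S`. -/
noncomputable def NF (S : Set V) : ℕ := (Fc S).ncard

theorem mem_Fc {S A : Set V} : A ∈ Fc S ↔ IsF S A := Iff.rfl

theorem Fc_finite {S : Set V} (hS : S.Finite) : (Fc S).Finite :=
  hS.finite_subsets.subset fun _ hA => hA.1

theorem exists_large {α : Type} {T : Set α} (hT : T.Finite) (p q : α → ℝ)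
    (hp : ∀ x ∈ T, 0 < p x) : ∃ Λ : ℝ, 0 ≤ Λ ∧ ∀ x ∈ T, q x < Λ * p x := by
  induction T, hT using Set.Finite.induction_on with
  | empty => exact ⟨0, le_rfl, fun x hx => absurd hx (Set.notMem_empty x)⟩
  | @insert a s ha hs ih =>
    obtain ⟨Λ, h0, hΛ⟩ := ih fun x hx => hp x (Set.mem_insert_of_mem _ hx)
    have hpa : 0 < p a := hp a (Set.mem_insert _ _)
    refine ⟨max Λ (|q a| / p a + 1), le_max_of_le_left h0, ?_⟩
    intro x hx
    rcases Set.mem_insert_iff.1 hx with rfl | hx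
    · have h1 : (|q x| / p x + 1) * p x = |q x| + p x := by
        field_simp
      have h2 : (|q x| / p x + 1) * p x ≤ max Λ (|q x| / p x + 1) * p x :=
        mul_le_mul_of_nonneg_right (le_max_right _ _) hpa.le
      have h3 := le_abs_self (q x)
      linarith
    · have h1 := hΛ x hx
      have h2 : Λ * p x ≤ max Λ (|q a| / p a + 1) * p x :=
        mul_le_mul_of_nonneg_right (le_max_left _ _) (hp x (Set.mem_insert_of_mem _ hx)).le
      linarith

theorem IsF.self {S : Set V} (h : S.Nonempty) : IsF S S :=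
  ⟨subset_rfl, h, 0, 0, fun _ _ => rfl, fun _ hx hx' => absurd hx hx'⟩

theorem IsF.inter {S A B : Set V} (hA : IsF S A) (hB : IsF S B) (h : (A ∩ B).Nonempty) :
    IsF S (A ∩ B) := by
  obtain ⟨hAS, -, φ, c, h1, h2⟩ := hA
  obtain ⟨hBS, -, ψ, b, h3, h4⟩ := hB
  refine ⟨fun x hx => hAS hx.1, h, φ + ψ, c + b, ?_, ?_⟩
  · intro x hx
    rw [LinearMap.add_apply, h1 x hx.1, h3 x hx.2]
  · intro x hx hx'
    rw [LinearMap.add_apply]
    by_cases hxA : x ∈ A
    · have hxB : x ∉ B := fun hb => hx' ⟨hxA, hb⟩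
      have := h4 x hx hxB
      rw [h1 x hxA]
      linarith
    · have h5 := h2 x hx hxA
      have h6 : ψ x ≤ b := by
        by_cases hxB : x ∈ B
        · exact (h3 x hxB).le
        · exact (h4 x hx hxB).le
      linarith

theorem IsF.trans {S D G : Set V} (hS : S.Finite) (hD : IsF S D) (hG : IsF D G) : IsF S G := by
  obtain ⟨hDS, -, φ, c, h1, h2⟩ := hD
  obtain ⟨hGD, hne, ψ, b, h3, h4⟩ := hG
  obtain ⟨Λ, -, hΛ⟩ := exists_large (T := S \ D) (hS.subset Set.sdiff_subset)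
    (fun x => c - φ x) (fun x => ψ x - b) (fun x hx => by have := h2 x hx.1 hx.2; linarith)
  refine ⟨hGD.trans hDS, hne, Λ • φ + ψ, Λ * c + b, ?_, ?_⟩
  · intro x hx
    simp only [LinearMap.add_apply, LinearMap.smul_apply, smul_eq_mul]
    rw [h1 x (hGD hx), h3 x hx]
  · intro x hx hx'
    simp only [LinearMap.add_apply, LinearMap.smul_apply, smul_eq_mul]
    by_cases hxD : x ∈ D
    · have := h4 x hxD hx'
      rw [h1 x hxD]
      linarith
    · have := hΛ x ⟨hx, hxD⟩
      linarith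

theorem IsF.neg {S A : Set V} (hsym : ∀ x ∈ S, -x ∈ S) (hA : IsF S A) :
    IsF S ((fun x => -x) '' A) := by
  obtain ⟨hAS, hne, φ, c, h1, h2⟩ := hA
  refine ⟨?_, hne.image _, -φ, c, ?_, ?_⟩
  · rintro _ ⟨x, hx, rfl⟩
    exact hsym x (hAS hx)
  · rintro _ ⟨x, hx, rfl⟩
    simp only [LinearMap.neg_apply, map_neg, neg_neg]
    exact h1 x hx
  · intro x hx hx'
    have h3 : -x ∉ A := fun h => hx' ⟨-x, h, neg_neg x⟩
    have h4 := h2 (-x) (hsym x hx) h3
    rw [map_neg] at h4
    rw [LinearMap.neg_apply]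
    exact h4

theorem neg_image_injective : Function.Injective (fun A : Set V => (fun x => -x) '' A) := by
  intro A B h
  have h1 := congrArg (fun A : Set V => (fun x => -x) '' A) h
  simpa [Set.image_image] using h1

/-- two faces with the same smallest face -/
theorem IsF.le_max {S A : Set V} {φ : V →ₗ[ℝ] ℝ} {c : ℝ} (h1 : ∀ x ∈ A, φ x = c)
    (h2 : ∀ x ∈ S, x ∉ A → φ x < c) {x : V} (hx : x ∈ S) : φ x ≤ c := by
  by_cases hxA : x ∈ A
  · exact (h1 x hxA).le
  · exact (h2 x hx hxA).le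

/-- in a centrally symmetric configuration the value on a proper face is positive -/
theorem pos_of_ne {S A : Set V} (hsym : ∀ x ∈ S, -x ∈ S) (hAS : A ⊆ S) (hne : A ≠ S)
    (hA : A.Nonempty) {φ : V →ₗ[ℝ] ℝ} {c : ℝ} (h1 : ∀ x ∈ A, φ x = c)
    (h2 : ∀ x ∈ S, x ∉ A → φ x < c) : 0 < c := by
  obtain ⟨a, ha⟩ := hA
  have h3 : φ (-a) ≤ c := IsF.le_max h1 h2 (hsym a (hAS ha))
  rw [map_neg, h1 a ha] at h3
  rcases lt_or_eq_of_le (show (0 : ℝ) ≤ c by linarith) with h | h
  · exact h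
  · exfalso
    apply hne
    refine subset_antisymm hAS fun x hx => ?_
    by_contra hxA
    have h4 := h2 x hx hxA
    have h5 : φ (-x) ≤ c := IsF.le_max h1 h2 (hsym x hx)
    rw [map_neg] at h5
    linarith

/-- projections: a face of the image gives a face -/
theorem IsF.preimage {W : Type} [AddCommGroup W] [Module ℝ W] {S : Set V} (π : V →ₗ[ℝ] W)
    {B : Set W} (hB : IsF (π '' S) B) : IsF S (S ∩ π ⁻¹' B) := by
  obtain ⟨hBS, ⟨b, hb⟩, φ, c, h1, h2⟩ := hB
  refine ⟨Set.inter_subset_left, ?_, φ ∘ₗ π, c, ?_, ?_⟩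
  · obtain ⟨x, hx, rfl⟩ := hBS hb
    exact ⟨x, hx, hb⟩
  · intro x hx
    exact h1 _ hx.2
  · intro x hx hx'
    exact h2 _ ⟨x, hx, rfl⟩ fun h => hx' ⟨hx, h⟩

theorem preimage_injOn {W : Type} [AddCommGroup W] [Module ℝ W] {S : Set V} (π : V →ₗ[ℝ] W) :
    Set.InjOn (fun B => S ∩ π ⁻¹' B) (Fc (π '' S)) := by
  intro B hB B' hB' h
  have key : ∀ B, B ∈ Fc (π '' S) → π '' (S ∩ π ⁻¹' B) = B := by
    intro B hB
    ext y
    constructor
    · rintro ⟨x, hx, rfl⟩
      exact hx.2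
    · intro hy
      obtain ⟨x, hx, rfl⟩ := hB.1 hy
      exact ⟨x, ⟨hx, hy⟩, rfl⟩
  rw [← key B hB, ← key B' hB']
  exact congrArg (fun A => π '' A) h

/-- affine injective images have at least as many faces -/
theorem NF_le_image {W : Type} [AddCommGroup W] [Module ℝ W] {T : Set W} (hT : T.Finite)
    (ι : W →ₗ[ℝ] V) (hι : Function.Injective ι) (e : V) :
    NF T ≤ NF ((fun x => ι x + e) '' T) := by
  obtain ⟨g, hg⟩ := ι.exists_leftInverse_of_injective (LinearMap.ker_eq_bot.2 hι)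
  have hgι : ∀ x, g (ι x) = x := fun x => by
    have := LinearMap.congr_fun hg x
    simpa using this
  have hinj : Function.Injective (fun x => ι x + e) := fun x y h => hι (add_right_cancel h)
  refine Set.ncard_le_ncard_of_injOn (fun B => (fun x => ι x + e) '' B) ?_ ?_
    (Fc_finite (hT.image _))
  · rintro B ⟨hBT, hne, φ, c, h1, h2⟩
    refine ⟨Set.image_mono hBT, hne.image _, φ ∘ₗ g, c + φ (g e), ?_, ?_⟩
    · rintro _ ⟨x, hx, rfl⟩
      simp only [LinearMap.comp_apply, map_add, hgι]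
      rw [h1 x hx]
    · rintro _ ⟨x, hx, rfl⟩ hx'
      have h3 : x ∉ B := fun h => hx' ⟨x, h, rfl⟩
      simp only [LinearMap.comp_apply, map_add, hgι]
      have := h2 x hx h3
      linarith
  · intro A _ B _ h
    exact hinj.image_injective h

/-- relative complement of `D` in the interval between `G` and `C` -/
theorem exists_compl {S G D C : Set V} (hS : S.Finite) (hG : IsF S G) (hD : IsF S D)
    (hC : IsF S C) (hGD : G ⊆ D) (hDC : D ⊆ C) :
    ∃ X, IsF S X ∧ X ⊆ C ∧ X ∩ D = G ∧ ∀ C', IsF S C' → X ⊆ C' → D ⊆ C' → C ⊆ C' := by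
  have hfin : {X | IsF S X ∧ X ⊆ C ∧ X ∩ D = G}.Finite :=
    (Fc_finite hS).subset fun X hX => hX.1
  have hne : {X | IsF S X ∧ X ⊆ C ∧ X ∩ D = G}.Nonempty :=
    ⟨G, hG, hGD.trans hDC, Set.inter_eq_left.2 hGD⟩
  obtain ⟨X, ⟨hX, hXC, hXD⟩, hmax⟩ := Set.exists_max_image _ (fun X => X.ncard) hfin hne
  refine ⟨X, hX, hXC, hXD, ?_⟩
  intro C₀ hC₀ hXC₀ hDC₀
  by_contra hcon
  obtain ⟨hXS, hXne, a, ca, ha1, ha2⟩ := hX
  obtain ⟨hC₀S, -, b, cb, hb1, hb2⟩ := hC₀
  obtain ⟨hCS, -, g, cg, hg1, hg2⟩ := hC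
  have hT : (C \ C₀).Nonempty := by
    by_contra h
    rw [Set.not_nonempty_iff_eq_empty, Set.sdiff_eq_empty] at h
    exact hcon h
  have hTfin : (C \ C₀).Finite := (hS.subset hCS).subset Set.sdiff_subset
  obtain ⟨v, hv, hmin⟩ := Set.exists_min_image (C \ C₀) (fun x => (a x - ca) / (b x - cb))
    hTfin hT
  set t : ℝ := (a v - ca) / (b v - cb) with ht
  have hbneg : ∀ x ∈ C \ C₀, b x - cb < 0 := fun x hx => by
    have := hb2 x (hCS hx.1) hx.2
    linarith
  -- values of a - t b on C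
  have hval : ∀ x ∈ C \ C₀, (a x - ca) - t * (b x - cb) ≤ 0 := by
    intro x hx
    have h1 := hmin x hx
    have h2 := hbneg x hx
    have h3 : t * (b x - cb) ≥ (a x - ca) / (b x - cb) * (b x - cb) :=
      mul_le_mul_of_nonpos_right h1 h2.le
    rw [div_mul_cancel₀ _ h2.ne] at h3
    linarith
  have hvv : (a v - ca) - t * (b v - cb) = 0 := by
    have h2 := hbneg v hv
    rw [ht, div_mul_cancel₀ _ h2.ne, sub_self]
  obtain ⟨Λ, -, hΛ⟩ := exists_large (T := S \ C) (hS.subset Set.sdiff_subset)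
    (fun x => cg - g x) (fun x => (a x - ca) - t * (b x - cb))
    (fun x hx => by have := hg2 x hx.1 hx.2; linarith)
  set X' : Set V := {x | x ∈ C ∧ (a x - ca) - t * (b x - cb) = 0} with hX'
  have hXX' : X ⊆ X' := by
    intro x hx
    refine ⟨hXC hx, ?_⟩
    rw [ha1 x hx, hb1 x (hXC₀ hx)]
    ring
  have hX'F : IsF S X' := by
    refine ⟨fun x hx => hCS hx.1, hXne.mono hXX', a - t • b + Λ • g, ca - t * cb + Λ * cg, ?_, ?_⟩
    · intro x hx
      have h1 := hx.2
      have h2 := hg1 x hx.1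
      simp only [LinearMap.add_apply, LinearMap.sub_apply, LinearMap.smul_apply, smul_eq_mul]
      rw [h2]
      linarith
    · intro x hx hx'
      simp only [LinearMap.add_apply, LinearMap.sub_apply, LinearMap.smul_apply, smul_eq_mul]
      by_cases hxC : x ∈ C
      · rw [hg1 x hxC]
        have h1 : (a x - ca) - t * (b x - cb) ≠ 0 := fun h => hx' ⟨hxC, h⟩
        have h2 : (a x - ca) - t * (b x - cb) ≤ 0 := by
          by_cases hx0 : x ∈ C₀
          · rw [hb1 x hx0, sub_self, mul_zero, sub_zero]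
            have := IsF.le_max ha1 ha2 hx
            linarith
          · exact hval x ⟨hxC, hx0⟩
        have h3 := lt_of_le_of_ne h2 h1
        linarith
      · have := hΛ x ⟨hx, hxC⟩
        linarith
  have hX'D : X' ∩ D = G := by
    rw [← hXD]
    refine subset_antisymm ?_ (Set.inter_subset_inter_left _ hXX')
    rintro x ⟨hx, hxD⟩
    refine ⟨?_, hxD⟩
    by_contra hxX
    have h1 := ha2 x (hCS hx.1) hxX
    have h2 := hx.2
    rw [hb1 x (hDC₀ hxD)] at h2
    linarith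
  have hlt : X.ncard < X'.ncard := by
    apply Set.ncard_lt_ncard ⟨hXX', ?_⟩ (hS.subset hX'F.1)
    intro h
    have h1 : v ∈ X' := ⟨hv.1, hvv⟩
    exact hv.2 (hXC₀ (h h1))
  have := hmax X' ⟨hX'F, fun x hx => hx.1, hX'D⟩
  omega

end Pool.Agent.K3R
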