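import Pool.Agent.K3R.Avg

/-!
# Partially locally anti-blocking configurations
-/

set_option autoImplicit false

namespace Pool.Agent.K3R

variable {V : Type} [AddCommGroup V] [Module ℝ V]

theorem mem_dbl_del {S : Set V} {g : V →ₗ[ℝ] ℝ} {u : V} (hgu : g u = 1)
    (hcl : ∀ x ∈ S, del g u x ∈ S) : ∀ x ∈ S, del g u x ∈ dbl S g u := fun x hx =>
  Or.inl ⟨hcl x hx, (f_del hgu x).ge⟩

theorem exists_gpos {S : Set V} {g : V →ₗ[ℝ] ℝ} {u : V} (hgu : g u = 1)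
    (hu : u ∈ Submodule.span ℝ S)
    (hpos : ∀ ψ : V →ₗ[ℝ] ℝ, (∃ x ∈ S, ψ x ≠ 0) → ∃ x ∈ S, 0 < ψ x) : ∃ x ∈ S, 0 < g x := by
  apply hpos
  by_contra hcon
  push Not at hcon
  have h1 : Submodule.span ℝ S ≤ LinearMap.ker g :=
    Submodule.span_le.2 fun x hx => LinearMap.mem_ker.2 (hcon x hx)
  have h2 := LinearMap.mem_ker.1 (h1 hu)
  rw [hgu] at h2
  exact one_ne_zero h2

theorem span_dbl {S : Set V} {g : V →ₗ[ℝ] ℝ} {u : V} (hgu : g u = 1)
    (hcl : ∀ x ∈ S, del g u x ∈ S) (hu : u ∈ Submodule.span ℝ S)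
    (hex : ∃ x ∈ S, 0 < g x) : Submodule.span ℝ (dbl S g u) = Submodule.span ℝ S := by
  apply le_antisymm
  · rw [Submodule.span_le]
    rintro _ (hx | ⟨y, hy, rfl⟩)
    · exact Submodule.subset_span hx.1
    · rw [ref_apply]
      exact Submodule.sub_mem _ (Submodule.subset_span hy.1) (Submodule.smul_mem _ _ hu)
  · have hu' : u ∈ Submodule.span ℝ (dbl S g u) := by
      obtain ⟨x, hx, hgx⟩ := hex
      have h1 : x ∈ dbl S g u := Or.inl ⟨hx, hgx.le⟩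
      have h2 := dbl_ref (S := S) hgu x h1
      have h3 := Submodule.sub_mem _ (Submodule.subset_span (R := ℝ) h1)
        (Submodule.subset_span (R := ℝ) h2)
      rw [ref_apply, sub_sub_cancel] at h3
      have h4 := Submodule.smul_mem _ (2 * g x)⁻¹ h3
      rwa [smul_smul, inv_mul_cancel₀ (by positivity), one_smul] at h4
    rw [Submodule.span_le]
    intro x hx
    have h1 : del g u x ∈ Submodule.span ℝ (dbl S g u) :=
      Submodule.subset_span (mem_dbl_del hgu hcl x hx)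
    have h2 := Submodule.add_mem _ h1 (Submodule.smul_mem _ (g x) hu')
    rwa [del_apply, sub_add_cancel] at h2

theorem pos_dbl {S : Set V} {g : V →ₗ[ℝ] ℝ} {u : V} (hgu : g u = 1)
    (hcl : ∀ x ∈ S, del g u x ∈ S)
    (hpos : ∀ ψ : V →ₗ[ℝ] ℝ, (∃ x ∈ S, ψ x ≠ 0) → ∃ x ∈ S, 0 < ψ x) :
    ∀ ψ : V →ₗ[ℝ] ℝ, (∃ x ∈ dbl S g u, ψ x ≠ 0) → ∃ x ∈ dbl S g u, 0 < ψ x := by
  intro ψ hex
  by_contra hcon
  push Not at hcon
  have h0 : ∀ x ∈ S, ψ (del g u x) = 0 := by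
    by_contra hc
    push Not at hc
    obtain ⟨x, hx, hx0⟩ := hc
    obtain ⟨y, hy, hy0⟩ := hpos (ψ ∘ₗ del g u) ⟨x, hx, hx0⟩
    have := hcon _ (mem_dbl_del hgu hcl y hy)
    rw [LinearMap.comp_apply] at hy0
    linarith
  have key : ∀ y ∈ S, 0 ≤ g y → ψ y = 0 ∧ ψ (ref g u y) = 0 := by
    intro y hy hgy
    have h1 : ψ y ≤ 0 := hcon y (Or.inl ⟨hy, hgy⟩)
    have h2 : ψ (ref g u y) ≤ 0 := hcon _ (Or.inr ⟨y, ⟨hy, hgy⟩, rfl⟩)
    have h3 := h0 y hy
    rw [del_apply, map_sub, map_smul, smul_eq_mul] at h3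
    rw [ref_apply, map_sub, map_smul, smul_eq_mul] at h2 ⊢
    constructor <;> nlinarith
  obtain ⟨x, hx, hx0⟩ := hex
  rcases hx with hx | ⟨y, hy, rfl⟩
  · exact hx0 (key x hx.1 hx.2).1
  · exact hx0 (key y hy.1 hy.2).2

/-- the sign change on the common kernel of the `f i` -/
def sg {ι : Type} (I : Finset ι) (e : ι → V) (f : ι → V →ₗ[ℝ] ℝ) : V →ₗ[ℝ] V :=
  (2 : ℝ) • (∑ i ∈ I, (f i).smulRight (e i)) - LinearMap.id

theorem sg_apply {ι : Type} (I : Finset ι) (e : ι → V) (f : ι → V →ₗ[ℝ] ℝ) (x : V) :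
    sg I e f x = (2 : ℝ) • (∑ i ∈ I, f i x • e i) - x := by
  simp [sg, LinearMap.sum_apply]

/-- the class -/
structure Cls {ι : Type} [DecidableEq ι] (R Q : Finset ι) (e : ι → V) (f : ι → V →ₗ[ℝ] ℝ)
    (S : Set V) : Prop where
  disj : Disjoint R Q
  bi : ∀ i ∈ R ∪ Q, ∀ k ∈ R ∪ Q, f i (e k) = if i = k then 1 else 0
  rf : ∀ i ∈ R, ∀ x ∈ S, ref (f i) (e i) x ∈ S
  dl : ∀ i ∈ Q, ∀ x ∈ S, del (f i) (e i) x ∈ S
  sig : ∀ x ∈ S, sg (R ∪ Q) e f x ∈ S
  mem : ∀ i ∈ R ∪ Q, e i ∈ Submodule.span ℝ S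
  pos : ∀ ψ : V →ₗ[ℝ] ℝ, (∃ x ∈ S, ψ x ≠ 0) → ∃ x ∈ S, 0 < ψ x

theorem sum_bi {ι : Type} [DecidableEq ι] {I : Finset ι} {e : ι → V} {f : ι → V →ₗ[ℝ] ℝ}
    (hb : ∀ i ∈ I, ∀ k ∈ I, f i (e k) = if i = k then 1 else 0) {j : ι} (hj : j ∈ I)
    (A : Finset ι) (hA : A ⊆ I) (x : V) :
    f j (∑ i ∈ A, f i x • e i) = if j ∈ A then f j x else 0 := by
  rw [map_sum]
  have h1 : ∀ i ∈ A, f j (f i x • e i) = if j = i then f i x else 0 := by
    intro i hi
    rw [map_smul, hb j hj i (hA hi), smul_eq_mul]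
    split_ifs <;> simp
  rw [Finset.sum_congr rfl h1, Finset.sum_ite_eq]

theorem Cls.dbl {ι : Type} [DecidableEq ι] {R Q : Finset ι} {e : ι → V} {f : ι → V →ₗ[ℝ] ℝ}
    {S : Set V} (h : Cls R Q e f S) {i₀ : ι} (hi₀ : i₀ ∈ Q) {g : V →ₗ[ℝ] ℝ} {u : V}
    (hgu : (g = f i₀ ∧ u = e i₀) ∨ (g = -f i₀ ∧ u = -e i₀)) :
    Cls (insert i₀ R) (Q.erase i₀) e f (K3R.dbl S g u) ∧
      Submodule.span ℝ (K3R.dbl S g u) = Submodule.span ℝ S := by
  have hi₀I : i₀ ∈ R ∪ Q := Finset.mem_union_right _ hi₀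
  have hfe : f i₀ (e i₀) = 1 := by rw [h.bi i₀ hi₀I i₀ hi₀I, if_pos rfl]
  have hi₀R : i₀ ∉ R := fun hc => (Finset.disjoint_left.1 h.disj hc) hi₀
  have hU : insert i₀ R ∪ Q.erase i₀ = R ∪ Q := by
    ext i
    simp only [Finset.mem_union, Finset.mem_insert, Finset.mem_erase]
    by_cases hi : i = i₀
    · subst hi
      simp [hi₀]
    · simp [hi]
  have h1 : g u = 1 := by
    rcases hgu with ⟨rfl, rfl⟩ | ⟨rfl, rfl⟩
    · exact hfe
    · rw [LinearMap.neg_apply, map_neg, neg_neg, hfe]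
  have hg : ∀ i ∈ R ∪ Q, i ≠ i₀ → g (e i) = 0 := by
    intro i hi hne
    rcases hgu with ⟨rfl, rfl⟩ | ⟨rfl, rfl⟩
    · rw [h.bi i₀ hi₀I i hi, if_neg hne.symm]
    · rw [LinearMap.neg_apply, h.bi i₀ hi₀I i hi, if_neg hne.symm, neg_zero]
  have hfu : ∀ i ∈ R ∪ Q, i ≠ i₀ → f i u = 0 := by
    intro i hi hne
    rcases hgu with ⟨rfl, rfl⟩ | ⟨rfl, rfl⟩
    · rw [h.bi i hi i₀ hi₀I, if_neg hne]
    · rw [map_neg, h.bi i hi i₀ hi₀I, if_neg hne, neg_zero]
  have hsm : ∀ x, f i₀ x • e i₀ = g x • u := by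
    intro x
    rcases hgu with ⟨rfl, rfl⟩ | ⟨rfl, rfl⟩
    · rfl
    · rw [LinearMap.neg_apply, neg_smul, smul_neg, neg_neg]
  have hdel : ∀ x, del g u x = del (f i₀) (e i₀) x := fun x => by
    rw [del_apply, del_apply, hsm]
  have href : ∀ x, ref g u x = ref (f i₀) (e i₀) x := fun x => by
    rw [ref_apply, ref_apply, mul_smul, mul_smul, hsm]
  have hcl : ∀ x ∈ S, del g u x ∈ S := fun x hx => by
    rw [hdel]
    exact h.dl i₀ hi₀ x hx
  have huS : u ∈ Submodule.span ℝ S := by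
    rcases hgu with ⟨rfl, rfl⟩ | ⟨rfl, rfl⟩
    · exact h.mem i₀ hi₀I
    · exact Submodule.neg_mem _ (h.mem i₀ hi₀I)
  have hex := exists_gpos h1 huS h.pos
  have hspan := span_dbl h1 hcl huS hex
  -- a linear map which commutes with the reflection and preserves `g`
  have hgen : ∀ L : V →ₗ[ℝ] V, (∀ x ∈ S, L x ∈ S) → (∀ x, g (L x) = g x) → L u = u →
      ∀ x ∈ K3R.dbl S g u, L x ∈ K3R.dbl S g u := by
    rintro L hL hLg hLu _ (hx | ⟨y, hy, rfl⟩)
    · exact Or.inl ⟨hL _ hx.1, by rw [hLg]; exact hx.2⟩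
    · refine Or.inr ⟨L y, ⟨hL _ hy.1, by rw [hLg]; exact hy.2⟩, ?_⟩
      rw [ref_apply, ref_apply, map_sub, map_smul, hLu, hLg]
  refine ⟨⟨?_, ?_, ?_, ?_, ?_, ?_, ?_⟩, hspan⟩
  · rw [Finset.disjoint_left]
    intro i hi hi'
    rcases Finset.mem_insert.1 hi with rfl | hiR
    · exact (Finset.mem_erase.1 hi').1 rfl
    · exact (Finset.disjoint_left.1 h.disj hiR) (Finset.mem_of_mem_erase hi')
  · rw [hU]
    exact h.bi
  · intro i hi x hx
    rcases Finset.mem_insert.1 hi with rfl | hiR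
    · rw [← href]
      exact dbl_ref h1 x hx
    · have hii : i ≠ i₀ := fun hc => hi₀R (hc ▸ hiR)
      have hiI : i ∈ R ∪ Q := Finset.mem_union_left _ hiR
      refine hgen (ref (f i) (e i)) (h.rf i hiR) (fun x => ?_) ?_ x hx
      · rw [ref_apply, map_sub, map_smul, hg i hiI hii, smul_zero, sub_zero]
      · rw [ref_apply, hfu i hiI hii, mul_zero, zero_smul, sub_zero]
  · intro i hi x hx
    obtain ⟨hii, hiQ⟩ := Finset.mem_erase.1 hi
    have hiI : i ∈ R ∪ Q := Finset.mem_union_right _ hiQ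
    refine hgen (del (f i) (e i)) (h.dl i hiQ) (fun x => ?_) ?_ x hx
    · rw [del_apply, map_sub, map_smul, hg i hiI hii, smul_zero, sub_zero]
    · rw [del_apply, hfu i hiI hii, zero_smul, sub_zero]
  · rw [hU]
    refine hgen (sg (R ∪ Q) e f) h.sig (fun x => ?_) ?_
    · have h2 : g (∑ i ∈ R ∪ Q, f i x • e i) = g x := by
        rcases hgu with ⟨rfl, rfl⟩ | ⟨rfl, rfl⟩
        · rw [sum_bi h.bi hi₀I _ subset_rfl, if_pos hi₀I]
        · rw [LinearMap.neg_apply, sum_bi h.bi hi₀I _ subset_rfl, if_pos hi₀I,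
            LinearMap.neg_apply]
      rw [sg_apply, map_sub, map_smul, h2, smul_eq_mul]
      ring
    · have h2 : ∑ i ∈ R ∪ Q, f i u • e i = u := by
        rw [Finset.sum_eq_single i₀]
        · rw [hsm, h1, one_smul]
        · intro i hi hne
          rw [hfu i hi hne, zero_smul]
        · intro hc
          exact absurd hi₀I hc
      rw [sg_apply, h2, two_smul, add_sub_cancel_right]
  · rw [hU, hspan]
    exact h.mem
  · exact pos_dbl h1 hcl h.pos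

theorem Cls.neg {ι : Type} [DecidableEq ι] {R : Finset ι} {e : ι → V} {f : ι → V →ₗ[ℝ] ℝ}
    {S : Set V} (h : Cls R ∅ e f S) : ∀ x ∈ S, -x ∈ S := by
  have hR : R ∪ ∅ = R := Finset.union_empty R
  have key : ∀ A : Finset ι, A ⊆ R → ∀ x ∈ S, x - (2 : ℝ) • ∑ i ∈ A, f i x • e i ∈ S := by
    intro A
    induction A using Finset.induction_on with
    | empty =>
      intro _ x hx
      simpa using hx
    | insert j A hj ih =>
      intro hA x hx
      have hjR : j ∈ R := hA (Finset.mem_insert_self j A)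
      have hAR : A ⊆ R := fun i hi => hA (Finset.mem_insert_of_mem hi)
      have h1 := h.rf j hjR _ (ih hAR x hx)
      have h2 : f j (x - (2 : ℝ) • ∑ i ∈ A, f i x • e i) = f j x := by
        rw [map_sub, map_smul, sum_bi h.bi (by rw [hR]; exact hjR) A (by rw [hR]; exact hAR),
          if_neg hj, smul_zero, sub_zero]
      rw [ref_apply, h2] at h1
      rw [Finset.sum_insert hj, smul_add]
      have h3 : x - ((2 : ℝ) • f j x • e j + (2 : ℝ) • ∑ i ∈ A, f i x • e i) =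
          x - (2 : ℝ) • ∑ i ∈ A, f i x • e i - (2 * f j x) • e j := by
        rw [mul_smul]
        abel
      rw [h3]
      exact h1
  intro x hx
  have h1 := h.sig _ (key R subset_rfl x hx)
  have h2 : ∀ i ∈ R, f i (x - (2 : ℝ) • ∑ i ∈ R, f i x • e i) = -f i x := by
    intro i hi
    rw [map_sub, map_smul, sum_bi h.bi (by rw [hR]; exact hi) R (by rw [hR]), if_pos hi,
      smul_eq_mul]
    ring
  rw [sg_apply, hR, Finset.sum_congr rfl (fun i hi => by rw [h2 i hi])] at h1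
  simp only [neg_smul, Finset.sum_neg_distrib, smul_neg] at h1
  have h3 : -((2 : ℝ) • ∑ i ∈ R, f i x • e i) - (x - (2 : ℝ) • ∑ i ∈ R, f i x • e i) = -x := by
    abel
  rwa [h3] at h1

theorem cls_main {ι : Type} [DecidableEq ι] (K : ℕ)
    (hK : ∀ S : Set V, S.Finite → S.Nonempty → (∀ x ∈ S, -x ∈ S) → dm S ≤ K → 3 ^ dm S ≤ NF S) :
    ∀ (n : ℕ) (R Q : Finset ι), Q.card ≤ n → ∀ (e : ι → V) (f : ι → V →ₗ[ℝ] ℝ) (S : Set V),
      S.Finite → S.Nonempty → Cls R Q e f S → dm S ≤ (R ∪ Q).card + K → 3 ^ dm S ≤ NF S := by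
  intro n
  induction n with
  | zero =>
    intro R Q hQ e f S hS hne h hdm
    have hQ0 : Q = ∅ := Finset.card_eq_zero.1 (by omega)
    subst hQ0
    rw [Finset.union_empty] at hdm
    refine main K hK R.card R le_rfl e f S hS hne h.neg ⟨?_, ?_, ?_⟩ hdm
    · have := h.bi
      rwa [Finset.union_empty] at this
    · exact h.rf
    · have := h.mem
      rwa [Finset.union_empty] at this
  | succ n ih =>
    intro R Q hQ e f S hS hne h hdm
    rcases Finset.eq_empty_or_nonempty Q with rfl | ⟨i₀, hi₀⟩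
    · exact ih R ∅ (by simp) e f S hS hne h hdm
    have hi₀I : i₀ ∈ R ∪ Q := Finset.mem_union_right _ hi₀
    have hfe : f i₀ (e i₀) = 1 := by rw [h.bi i₀ hi₀I i₀ hi₀I, if_pos rfl]
    have hU : insert i₀ R ∪ Q.erase i₀ = R ∪ Q := by
      ext i
      simp only [Finset.mem_union, Finset.mem_insert, Finset.mem_erase]
      by_cases hi : i = i₀
      · subst hi
        simp [hi₀]
      · simp [hi]
    have hcardQ : (Q.erase i₀).card ≤ n := by
      rw [Finset.card_erase_of_mem hi₀]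
      omega
    have hbr : ∀ (g : V →ₗ[ℝ] ℝ) (u : V),
        (g = f i₀ ∧ u = e i₀) ∨ (g = -f i₀ ∧ u = -e i₀) → 3 ^ dm S ≤ NF (K3R.dbl S g u) := by
      intro g u hgu
      obtain ⟨h1, h2⟩ := h.dbl hi₀ hgu
      have hdmeq : dm (K3R.dbl S g u) = dm S := by
        unfold dm
        rw [h2]
      have hne' : (K3R.dbl S g u).Nonempty := by
        have hgu1 : g u = 1 := by
          rcases hgu with ⟨rfl, rfl⟩ | ⟨rfl, rfl⟩
          · exact hfe
          · rw [LinearMap.neg_apply, map_neg, neg_neg, hfe]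
        have huS : u ∈ Submodule.span ℝ S := by
          rcases hgu with ⟨rfl, rfl⟩ | ⟨rfl, rfl⟩
          · exact h.mem i₀ hi₀I
          · exact Submodule.neg_mem _ (h.mem i₀ hi₀I)
        obtain ⟨x, hx, hgx⟩ := exists_gpos hgu1 huS h.pos
        exact ⟨x, Or.inl ⟨hx, hgx.le⟩⟩
      rw [← hdmeq]
      refine ih (insert i₀ R) (Q.erase i₀) hcardQ e f _ (dbl_finite hS g u) hne' h1 ?_
      rw [hU, hdmeq]
      exact hdm
    have h1 := hbr (f i₀) (e i₀) (Or.inl ⟨rfl, rfl⟩)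
    have h2 := hbr (-f i₀) (-e i₀) (Or.inr ⟨rfl, rfl⟩)
    have h3 := avg hS hfe (h.dl i₀ hi₀)
    omega

end Pool.Agent.K3R
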