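import Pool.Agent.K3R.Central2

/-!
# Hansen polytopes: general lemmas
-/

set_option autoImplicit false

namespace Pool.Agent.K3R

section general

variable {V : Type} [AddCommGroup V] [Module ℝ V]

/-- adding points of the hull does not lose faces -/
theorem NF_mono_hull {S S' : Set V} (hS' : S'.Finite) (h1 : S ⊆ S')
    (h2 : S' ⊆ convexHull ℝ S) : NF S ≤ NF S' := by
  have key : ∀ A, A ∈ Fc S → (S' ∩ convexHull ℝ A) ∩ S = A := by
    rintro A ⟨hAS, hAne, φ, c, k1, k2⟩
    ext x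
    constructor
    · rintro ⟨⟨_, hx⟩, hxS⟩
      by_contra hn
      have := k2 x hxS hn
      rw [hull_eq k1 hx] at this
      exact lt_irrefl _ this
    · intro hx
      exact ⟨⟨h1 (hAS hx), subset_convexHull ℝ A hx⟩, hAS hx⟩
  refine Set.ncard_le_ncard_of_injOn (fun A => S' ∩ convexHull ℝ A) ?_ ?_ (Fc_finite hS')
  · rintro A ⟨hAS, ⟨a, ha⟩, φ, c, k1, k2⟩
    refine ⟨Set.inter_subset_left, ⟨a, h1 (hAS ha), subset_convexHull ℝ A ha⟩, φ, c, ?_, ?_⟩
    · intro x hx
      exact hull_eq k1 hx.2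
    · intro x hx hx'
      have h3 : φ x ≤ c := le_hull (fun y hy => IsF.le_max k1 k2 hy) (h2 hx)
      refine lt_of_le_of_ne h3 fun h => hx' ⟨hx, face_hull k1 k2 (h2 hx) h⟩
  · intro A hA B hB hAB
    rw [← key A hA, ← key B hB]
    exact congrArg (fun X => X ∩ S) hAB

theorem NF_image_le {W : Type} [AddCommGroup W] [Module ℝ W] {S : Set V} (hS : S.Finite)
    (π : V →ₗ[ℝ] W) : NF (π '' S) ≤ NF S := by
  unfold NF
  rw [← Set.InjOn.ncard_image (preimage_injOn (S := S) π)]
  refine Set.ncard_le_ncard ?_ (Fc_finite hS)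
  rintro _ ⟨B, hB, rfl⟩
  exact IsF.preimage π hB

theorem zero_mem_hull {S : Set V} (hne : S.Nonempty) (hsym : ∀ x ∈ S, -x ∈ S) :
    (0 : V) ∈ convexHull ℝ S := by
  obtain ⟨x, hx⟩ := hne
  have h1 := subset_convexHull ℝ S hx
  have h2 := subset_convexHull ℝ S (hsym x hx)
  have h3 := (convex_convexHull ℝ S) h1 h2 (by norm_num : (0 : ℝ) ≤ 1 / 2)
    (by norm_num : (0 : ℝ) ≤ 1 / 2) (by norm_num)
  simpa using h3

theorem NF_insert_zero {S : Set V} (hS : S.Finite) (hne : S.Nonempty)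
    (hsym : ∀ x ∈ S, -x ∈ S) : NF S ≤ NF (insert 0 S) := by
  refine NF_mono_hull (hS.insert 0) (Set.subset_insert _ _) ?_
  intro x hx
  rcases Set.mem_insert_iff.1 hx with rfl | hx
  · exact zero_mem_hull hne hsym
  · exact subset_convexHull ℝ S hx

theorem mid_mem_hull {S : Set V} {x y : V} (hx : x ∈ S) (hy : y ∈ S) :
    (2⁻¹ : ℝ) • (x + y) ∈ convexHull ℝ S := by
  have h3 := (convex_convexHull ℝ S) (subset_convexHull ℝ S hx) (subset_convexHull ℝ S hy)
    (by norm_num : (0 : ℝ) ≤ 2⁻¹) (by norm_num : (0 : ℝ) ≤ 2⁻¹) (by norm_num)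
  rwa [smul_add]

end general

section coord

variable {ι : Type} [DecidableEq ι]

/-- the unconditional case in coordinates -/
theorem unc (I : Finset ι) {U : Set (ι → ℝ)} (hU : U.Finite) (hne : U.Nonempty)
    (hsym : ∀ x ∈ U, -x ∈ U)
    (hrefl : ∀ i ∈ I, ∀ x ∈ U, x - (2 * x i) • Pi.single i (1 : ℝ) ∈ U)
    (hnz : ∀ i ∈ I, ∃ x ∈ U, x i ≠ 0) (hsupp : ∀ x ∈ U, ∀ i, i ∉ I → x i = 0) :
    3 ^ I.card ≤ NF U := by
  classical
  have hmem : ∀ i ∈ I, Pi.single i (1 : ℝ) ∈ Submodule.span ℝ U := by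
    intro i hi
    obtain ⟨x, hx, hx0⟩ := hnz i hi
    have h1 : x ∈ Submodule.span ℝ U := Submodule.subset_span hx
    have h2 := Submodule.subset_span (R := ℝ) (hrefl i hi x hx)
    have h3 := Submodule.sub_mem _ h1 h2
    have h4 : x - (x - (2 * x i) • Pi.single i (1 : ℝ)) = (2 * x i) • Pi.single i (1 : ℝ) := by
      abel
    rw [h4] at h3
    have h5 := Submodule.smul_mem _ (2 * x i)⁻¹ h3
    rwa [smul_smul, inv_mul_cancel₀ (mul_ne_zero two_ne_zero hx0), one_smul] at h5
  have hR : Refl I (fun i => (Pi.single i (1 : ℝ) : ι → ℝ)) (fun i => LinearMap.proj i) U := by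
    refine ⟨?_, ?_, hmem⟩
    · intro i _ k _
      simp only [LinearMap.proj_apply, Pi.single_apply]
    · intro i hi x hx
      exact hrefl i hi x hx
  have hfd : FiniteDimensional ℝ (Submodule.span ℝ U) := FiniteDimensional.span_of_finite ℝ hU
  have hge : I.card ≤ dm U := card_le_of_biorth hR.bi hR.mem
  have hspan : Submodule.span ℝ U ≤
      Submodule.span ℝ ((I.image fun i => (Pi.single i (1 : ℝ) : ι → ℝ) : Finset (ι → ℝ)) :
        Set (ι → ℝ)) := by
    rw [Submodule.span_le]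
    intro x hx
    have h1 : x = ∑ i ∈ I, x i • (Pi.single i (1 : ℝ) : ι → ℝ) := by
      ext j
      rw [Finset.sum_apply]
      simp only [Pi.smul_apply, Pi.single_apply, smul_eq_mul, mul_ite, mul_one, mul_zero]
      rw [Finset.sum_ite_eq]
      split_ifs with h
      · rfl
      · exact hsupp x hx j h
    rw [h1]
    refine Submodule.sum_mem _ fun i hi => Submodule.smul_mem _ _ (Submodule.subset_span ?_)
    exact Finset.mem_coe.2 (Finset.mem_image_of_mem _ hi)
  have hle : dm U ≤ I.card := by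
    unfold dm
    refine (Submodule.finrank_mono hspan).trans ?_
    exact (finrank_span_finset_le_card _).trans Finset.card_image_le
  have hmain := main (V := ι → ℝ) (ι := ι) 0 (fun S hS hne' hsym' hdm =>
    base hS hne' hsym' (by omega)) I.card I le_rfl _ _ U hU hne hsym hR (by omega)
  have h2 : dm U = I.card := le_antisymm hle hge
  rw [h2] at hmain
  exact hmain

end coord

end Pool.Agent.K3R
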