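import Pool.Agent.K3R.HanB

/-!
# Hansen configurations: a simplicial vertex
-/

set_option autoImplicit false

namespace Pool.Agent.K3R

variable {ι : Type} [DecidableEq ι]

theorem sum_ind_zero {N T : Finset ι} (h : ∀ w ∈ N, w ∉ T) : ∑ w ∈ N, ind T w = 0 :=
  Finset.sum_eq_zero fun w hw => ind_neg (h w hw)

theorem sum_ind_one {N T : Finset ι} {w : ι} (hw : w ∈ N) (hwT : w ∈ T)
    (h : ∀ w' ∈ N, w' ∈ T → w' = w) : ∑ w ∈ N, ind T w = 1 := by
  rw [Finset.sum_eq_single_of_mem w hw fun b hb hbw => ind_neg fun hbT => hbw (h b hb hbT)]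
  exact ind_pos hwT

theorem step_simplicial {G : SimpleGraph ι} {W N W0 : Finset ι} {v : ι} (hv : v ∈ W)
    (hN : ∀ w, w ∈ N ↔ w ∈ W ∧ G.Adj v w)
    (hW0 : ∀ w, w ∈ W0 ↔ w ∈ W ∧ w ≠ v ∧ ¬ G.Adj v w)
    (hcl : ∀ a ∈ N, ∀ b ∈ N, a ≠ b → G.Adj a b) :
    NF (HS G (W.erase v)) + 2 * (NF (HS G W0) * 3 ^ N.card) ≤ NF (HS G W) := by
  classical
  have hvN : v ∉ N := fun h => G.irrefl ((hN v).1 h).2
  have hNv : ∀ w ∈ N, w ≠ v := fun w hw h => hvN (h ▸ hw)
  -- the functional
  set h : ℝ × (ι → ℝ) →ₗ[ℝ] ℝ :=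
    -LinearMap.fst ℝ ℝ (ι → ℝ) + (2 : ℝ) • cx v + ∑ w ∈ N, cx w with hh
  have hpt : ∀ T, h (pt T) = -1 + 2 * (if v ∈ T then 1 else 0) + ∑ w ∈ N, ind T w := by
    intro T
    rw [hh]
    simp only [LinearMap.add_apply, LinearMap.neg_apply, LinearMap.fst_apply,
      LinearMap.smul_apply, LinearMap.sum_apply, smul_eq_mul, cx_pt, pt_fst]
    rfl
  have hin : ∀ T, T ⊆ W → Stb G T → v ∈ T → ∀ w ∈ N, w ∉ T := by
    intro T _ hs hvT w hw hwT
    exact hs v hvT w hwT ((hN w).1 hw).2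
  have hsplit : ∀ T, T ⊆ W → Stb G T → v ∉ T → (∀ w ∈ N, w ∉ T) ∨
      ∃ w ∈ N, w ∈ T ∧ ∀ w' ∈ N, w' ∈ T → w' = w := by
    intro T _ hs _
    by_cases hex : ∃ w ∈ N, w ∈ T
    · obtain ⟨w, hw, hwT⟩ := hex
      refine Or.inr ⟨w, hw, hwT, fun w' hw' hw'T => ?_⟩
      by_contra hne
      exact hs w' hw'T w hwT (hcl w' hw' w hw hne)
    · push Not at hex
      exact Or.inl hex
  have hval1 : ∀ T, T ⊆ W → Stb G T → v ∈ T → h (pt T) = 1 := by
    intro T hT hs hvT
    rw [hpt, if_pos hvT, sum_ind_zero (hin T hT hs hvT)]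
    norm_num
  have hval0 : ∀ T : Finset ι, v ∉ T → (∀ w ∈ N, w ∉ T) → h (pt T) = -1 := by
    intro T hvT hNT
    rw [hpt, if_neg hvT, sum_ind_zero hNT]
    norm_num
  have hvalN : ∀ T : Finset ι, v ∉ T → ∀ w ∈ N, w ∈ T → (∀ w' ∈ N, w' ∈ T → w' = w) →
      h (pt T) = 0 := by
    intro T hvT w hw hwT hu
    rw [hpt, if_neg hvT, sum_ind_one hw hwT hu]
    norm_num
  -- the centre
  set e : ℝ × (ι → ℝ) := (0, (2⁻¹ : ℝ) • ind {v}) with he
  have h2e : (2 : ℝ) • e = (0, ind {v}) := by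
    rw [he, Prod.smul_mk, smul_zero, smul_smul, mul_inv_cancel₀ two_ne_zero, one_smul]
  have hc1 : ∀ T, v ∈ T → (2 : ℝ) • e - pt T = -pt (T.erase v) := by
    intro T hvT
    rw [h2e]
    refine Prod.ext ?_ ?_
    · simp [pt]
    · ext i
      simp only [Prod.snd_sub, Prod.snd_neg, Pi.sub_apply, Pi.neg_apply, pt, ind_apply,
        Finset.mem_singleton, Finset.mem_erase]
      by_cases h1 : i = v
      · simp [h1, hvT]
      · by_cases h2 : i ∈ T <;> simp [h1, h2]
  have hc2 : ∀ T, v ∉ T → (2 : ℝ) • e - -pt T = pt (insert v T) := by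
    intro T hvT
    rw [h2e]
    refine Prod.ext ?_ ?_
    · simp [pt]
    · ext i
      simp only [Prod.snd_sub, Prod.snd_neg, Pi.sub_apply, Pi.neg_apply, pt, ind_apply,
        Finset.mem_singleton, Finset.mem_insert]
      by_cases h1 : i = v
      · simp [h1, hvT]
      · by_cases h2 : i ∈ T <;> simp [h1, h2]
  have hins : ∀ T, T ⊆ W → Stb G T → v ∉ T → (∀ w ∈ N, w ∉ T) → Stb G (insert v T) := by
    intro T hT hs _ hNT
    exact hs.insert fun w hwT hadj => hNT w ((hN w).2 ⟨hT hwT, hadj⟩) hwT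
  have hSD : ∀ T, T ⊆ W → Stb G T → (h (pt T) = 1 ↔ v ∈ T) := by
    intro T hT hs
    constructor
    · intro h1
      by_contra hvT
      rcases hsplit T hT hs hvT with h2 | ⟨w, hw, hwT, hu⟩
      · rw [hval0 T hvT h2] at h1
        norm_num at h1
      · rw [hvalN T hvT w hw hwT hu] at h1
        norm_num at h1
    · exact hval1 T hT hs
  have hSDn : ∀ T, T ⊆ W → Stb G T → (h (-pt T) = 1 ↔ v ∉ T ∧ ∀ w ∈ N, w ∉ T) := by
    intro T hT hs
    rw [map_neg]
    constructor
    · intro h1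
      by_cases hvT : v ∈ T
      · rw [hval1 T hT hs hvT] at h1
        norm_num at h1
      · refine ⟨hvT, ?_⟩
        rcases hsplit T hT hs hvT with h2 | ⟨w, hw, hwT, hu⟩
        · exact h2
        · rw [hvalN T hvT w hw hwT hu] at h1
          norm_num at h1
    · rintro ⟨hvT, hNT⟩
      rw [hval0 T hvT hNT]
      norm_num
  have hle : ∀ x ∈ HS G W, h x ≤ 1 := by
    rintro x ⟨T, hT, hs, rfl | rfl⟩
    · by_cases hvT : v ∈ T
      · exact (hval1 T hT hs hvT).le
      · rcases hsplit T hT hs hvT with h2 | ⟨w, hw, hwT, hu⟩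
        · rw [hval0 T hvT h2]
          norm_num
        · rw [hvalN T hvT w hw hwT hu]
          norm_num
    · rw [map_neg]
      by_cases hvT : v ∈ T
      · rw [hval1 T hT hs hvT]
        norm_num
      · rcases hsplit T hT hs hvT with h2 | ⟨w, hw, hwT, hu⟩
        · rw [hval0 T hvT h2]
          norm_num
        · rw [hvalN T hvT w hw hwT hu]
          norm_num
  have hvW : ({v} : Finset ι) ⊆ W := Finset.singleton_subset_iff.2 hv
  -- the star
  set ρ : ℝ × (ι → ℝ) →ₗ[ℝ] (ι → ℝ) := rs N ∘ₗ LinearMap.snd ℝ ℝ (ι → ℝ) with hρdef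
  have hρpt : ∀ T, ρ (pt T) = ind (T ∩ N) := fun T => rs_ind N T
  set U : Set (ι → ℝ) := {u | u = 0 ∨ ∃ w ∈ N, u = ind {w} ∨ u = -ind {w}} with hU
  have hcap0 : ∀ T : Finset ι, (∀ w ∈ N, w ∉ T) → ind (T ∩ N) = (0 : ι → ℝ) := by
    intro T hT
    have : T ∩ N = ∅ := by
      ext w
      simp only [Finset.mem_inter, Finset.notMem_empty, iff_false]
      exact fun h => hT w h.2 h.1
    rw [this]
    ext i
    simp [ind_apply]
  have hcap1 : ∀ T : Finset ι, ∀ w ∈ N, w ∈ T → (∀ w' ∈ N, w' ∈ T → w' = w) →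
      ind (T ∩ N) = ind {w} := by
    intro T w hw hwT hu
    congr 1
    ext i
    simp only [Finset.mem_inter, Finset.mem_singleton]
    constructor
    · exact fun h => hu i h.2 h.1
    · rintro rfl
      exact ⟨hwT, hw⟩
  have hUsym : ∀ u ∈ U, -u ∈ U := by
    rintro u (rfl | ⟨w, hw, rfl | rfl⟩)
    · exact Or.inl neg_zero
    · exact Or.inr ⟨w, hw, Or.inr rfl⟩
    · exact Or.inr ⟨w, hw, Or.inl (neg_neg _)⟩
  have hUfin : U.Finite := by
    refine Set.Finite.subset ((Set.finite_singleton (0 : ι → ℝ)).union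
      (((N.finite_toSet).image fun w => ind {w}).union
        ((N.finite_toSet).image fun w => -ind {w}))) ?_
    rintro u (rfl | ⟨w, hw, rfl | rfl⟩)
    · exact Or.inl rfl
    · exact Or.inr (Or.inl ⟨w, hw, rfl⟩)
    · exact Or.inr (Or.inr ⟨w, hw, rfl⟩)
  have hUc : 3 ^ N.card ≤ NF U := by
    refine unc N hUfin ⟨0, Or.inl rfl⟩ hUsym ?_ ?_ ?_
    · rintro i hi u (rfl | ⟨w, hw, rfl | rfl⟩)
      · left
        simp
      · by_cases hiw : i = w
        · right
          refine ⟨w, hw, Or.inr ?_⟩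
          ext j
          simp only [ind_apply, Finset.mem_singleton, Pi.sub_apply, Pi.smul_apply, Pi.neg_apply,
            Pi.single_apply, smul_eq_mul, hiw, if_true]
          by_cases hj : j = w <;> simp [hj]
          norm_num
        · right
          refine ⟨w, hw, Or.inl ?_⟩
          simp [ind_apply, hiw]
      · by_cases hiw : i = w
        · right
          refine ⟨w, hw, Or.inl ?_⟩
          ext j
          simp only [ind_apply, Finset.mem_singleton, Pi.sub_apply, Pi.smul_apply, Pi.neg_apply,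
            Pi.single_apply, smul_eq_mul, hiw, if_true]
          by_cases hj : j = w <;> simp [hj]
          norm_num
        · right
          refine ⟨w, hw, Or.inr ?_⟩
          simp [ind_apply, hiw]
    · intro i hi
      refine ⟨ind {i}, Or.inr ⟨i, hi, Or.inl rfl⟩, ?_⟩
      rw [ind_pos (Finset.mem_singleton_self i)]
      exact one_ne_zero
    · rintro u (rfl | ⟨w, hw, rfl | rfl⟩) i hi
      · rfl
      · rw [ind_neg]
        rw [Finset.mem_singleton]
        rintro rfl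
        exact hi hw
      · rw [Pi.neg_apply, ind_neg, neg_zero]
        rw [Finset.mem_singleton]
        rintro rfl
        exact hi hw
  refine step (HS_finite G W) (HS_sym G W) h hle
    ⟨pt {v}, pt_mem hvW (Stb_single G v), hval1 _ hvW (Stb_single G v)
      (Finset.mem_singleton_self v)⟩ e ?_ (dl v) ?_ ρ ?_ (U := U) ?_ ?_ hUsym ?_ ?_ hUc
  · rintro x ⟨T, hT, hs, rfl | rfl⟩ hx
    · have hvT := (hSD T hT hs).1 hx
      rw [hc1 T hvT]
      have hT' : T.erase v ⊆ W := (Finset.erase_subset v T).trans hT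
      have hs' : Stb G (T.erase v) := hs.mono (Finset.erase_subset v T)
      refine ⟨npt_mem hT' hs', (hSDn _ hT' hs').2 ⟨Finset.notMem_erase v T, ?_⟩⟩
      intro w hw hwT
      exact hin T hT hs hvT w hw (Finset.mem_of_mem_erase hwT)
    · obtain ⟨hvT, hNT⟩ := (hSDn T hT hs).1 hx
      rw [hc2 T hvT]
      have hT' : insert v T ⊆ W := Finset.insert_subset hv hT
      have hs' := hins T hT hs hvT hNT
      exact ⟨pt_mem hT' hs', (hSD _ hT' hs').2 (Finset.mem_insert_self v T)⟩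
  · rw [dl_apply, he]
    refine Prod.ext rfl ?_
    ext i
    by_cases hi : i = v <;> simp [hi, ind_apply]
  · rintro x ⟨T, hT, hs, rfl | rfl⟩ hx
    · rw [hρpt]
      exact hcap0 T (hin T hT hs ((hSD T hT hs).1 hx))
    · rw [map_neg, hρpt, hcap0 T ((hSDn T hT hs).1 hx).2, neg_zero]
  · rintro x ⟨T, hT, hs, rfl | rfl⟩ hx
    · have hvT : v ∉ T := fun h' => hx ((hSD T hT hs).2 h')
      rcases hsplit T hT hs hvT with h2 | ⟨w, hw, hwT, hu⟩
      · rw [hρpt, hcap0 T h2, smul_zero]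
        exact Or.inl rfl
      · rw [hρpt, hcap1 T w hw hwT hu, hvalN T hvT w hw hwT hu, sub_zero, inv_one, one_smul]
        exact Or.inr ⟨w, hw, Or.inl rfl⟩
    · by_cases hvT : v ∈ T
      · rw [map_neg ρ, hρpt, hcap0 T (hin T hT hs hvT), neg_zero, smul_zero]
        exact Or.inl rfl
      · rcases hsplit T hT hs hvT with h2 | ⟨w, hw, hwT, hu⟩
        · exact absurd ((hSDn T hT hs).2 ⟨hvT, h2⟩) hx
        · rw [map_neg ρ, map_neg h, hρpt, hcap1 T w hw hwT hu, hvalN T hvT w hw hwT hu, neg_zero,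
            sub_zero, inv_one, one_smul]
          exact Or.inr ⟨w, hw, Or.inr rfl⟩
  · rintro u (rfl | ⟨w, hw, hu⟩)
    · refine ⟨-pt {v}, npt_mem hvW (Stb_single G v), ?_, ?_⟩
      · intro h1
        exact ((hSDn _ hvW (Stb_single G v)).1 h1).1 (Finset.mem_singleton_self v)
      · rw [map_neg ρ, hρpt, hcap0, neg_zero, smul_zero]
        intro w hw hwv
        exact hNv w hw (Finset.mem_singleton.1 hwv)
    · have hwW : ({w} : Finset ι) ⊆ W := Finset.singleton_subset_iff.2 ((hN w).1 hw).1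
      have hvw : v ∉ ({w} : Finset ι) := by
        rw [Finset.mem_singleton]
        exact fun h' => hNv w hw h'.symm
      have hww := Finset.mem_singleton_self w
      have huniq : ∀ w' ∈ N, w' ∈ ({w} : Finset ι) → w' = w :=
        fun w' _ h' => Finset.mem_singleton.1 h'
      have hz := hvalN {w} hvw w hw hww huniq
      rcases hu with rfl | rfl
      · refine ⟨pt {w}, pt_mem hwW (Stb_single G w), ?_, ?_⟩
        · rw [hz]
          norm_num
        · rw [hρpt, hcap1 {w} w hw hww huniq, hz, sub_zero, inv_one, one_smul]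
      · refine ⟨-pt {w}, npt_mem hwW (Stb_single G w), ?_, ?_⟩
        · rw [map_neg, hz]
          norm_num
        · rw [map_neg ρ, map_neg h, hρpt, hcap1 {w} w hw hww huniq, hz, neg_zero, sub_zero,
            inv_one, one_smul]
  · rw [dl_HS]
  · have himg : dl v '' {x | x ∈ HS G W ∧ h x = 1} = HS G W0 := by
      ext x
      constructor
      · rintro ⟨_, ⟨⟨T, hT, hs, rfl | rfl⟩, hx⟩, rfl⟩
        · have hvT := (hSD T hT hs).1 hx
          rw [dl_pt]
          refine pt_mem ?_ (hs.mono (Finset.erase_subset v T))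
          intro w hw
          obtain ⟨h1, h2⟩ := Finset.mem_erase.1 hw
          exact (hW0 w).2 ⟨hT h2, h1, hs v hvT w h2⟩
        · obtain ⟨hvT, hNT⟩ := (hSDn T hT hs).1 hx
          rw [map_neg, dl_pt]
          refine npt_mem ?_ (hs.mono (Finset.erase_subset v T))
          intro w hw
          obtain ⟨h1, h2⟩ := Finset.mem_erase.1 hw
          exact (hW0 w).2 ⟨hT h2, h1, fun hadj => hNT w ((hN w).2 ⟨hT h2, hadj⟩) h2⟩
      · rintro ⟨T, hT, hs, hx⟩
        have hTW : T ⊆ W := fun w hw => ((hW0 w).1 (hT hw)).1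
        have hvT : v ∉ T := fun h' => ((hW0 v).1 (hT h')).2.1 rfl
        have hNT : ∀ w ∈ N, w ∉ T := fun w hw hwT => ((hW0 w).1 (hT hwT)).2.2 ((hN w).1 hw).2
        rcases hx with rfl | rfl
        · refine ⟨pt (insert v T), ⟨pt_mem (Finset.insert_subset hv hTW)
            (hins T hTW hs hvT hNT), ?_⟩, ?_⟩
          · exact (hSD _ (Finset.insert_subset hv hTW) (hins T hTW hs hvT hNT)).2
              (Finset.mem_insert_self v T)
          · rw [dl_pt, Finset.erase_insert hvT]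
        · refine ⟨-pt T, ⟨npt_mem hTW hs, (hSDn T hTW hs).2 ⟨hvT, hNT⟩⟩, ?_⟩
          rw [map_neg, dl_pt, Finset.erase_eq_of_notMem hvT]
    rw [← himg]
    exact NF_image_le ((HS_finite G W).subset fun x hx => hx.1) (dl v)

end Pool.Agent.K3R
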