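import Pool.Agent.K3R.HanC

/-!
# Hansen configurations: a vertex whose non-neighbours form a stable set
-/

set_option autoImplicit false

namespace Pool.Agent.K3R

variable {ι : Type} [DecidableEq ι]

/-- the faces of a cube -/
theorem cube_count (W0 : Finset ι) :
    3 ^ W0.card ≤ NF {x : ι → ℝ | ∃ T, T ⊆ W0 ∧ x = ind T - (2⁻¹ : ℝ) • ind W0} := by
  classical
  refine unc W0 ?_ ⟨_, ∅, Finset.empty_subset _, rfl⟩ ?_ ?_ ?_ ?_
  · refine Set.Finite.subset ((W0.powerset.finite_toSet).image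
      fun T => ind T - (2⁻¹ : ℝ) • ind W0) ?_
    rintro x ⟨T, hT, rfl⟩
    exact ⟨T, Finset.mem_coe.2 (Finset.mem_powerset.2 hT), rfl⟩
  · rintro x ⟨T, hT, rfl⟩
    refine ⟨W0 \ T, Finset.sdiff_subset, ?_⟩
    ext i
    simp only [Pi.neg_apply, Pi.sub_apply, Pi.smul_apply, ind_apply, smul_eq_mul,
      Finset.mem_sdiff]
    by_cases h1 : i ∈ T
    · have h2 := hT h1
      simp [h1, h2]
      norm_num
    · by_cases h2 : i ∈ W0
      · simp [h1, h2]
        norm_num
      · simp [h1, h2]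
  · rintro i hi x ⟨T, hT, rfl⟩
    by_cases hiT : i ∈ T
    · refine ⟨T.erase i, (Finset.erase_subset i T).trans hT, ?_⟩
      ext j
      simp only [Pi.sub_apply, Pi.smul_apply, ind_apply, smul_eq_mul, Finset.mem_erase,
        Pi.single_apply]
      by_cases hj : j = i
      · simp [hj, hi, hiT]
        norm_num
      · simp [hj]
    · refine ⟨insert i T, Finset.insert_subset hi hT, ?_⟩
      ext j
      simp only [Pi.sub_apply, Pi.smul_apply, ind_apply, smul_eq_mul, Finset.mem_insert,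
        Pi.single_apply]
      by_cases hj : j = i
      · simp [hj, hi, hiT]
        norm_num
      · simp [hj]
  · intro i hi
    refine ⟨_, ⟨∅, Finset.empty_subset _, rfl⟩, ?_⟩
    simp [ind_apply, hi]
  · rintro x ⟨T, hT, rfl⟩ i hi
    have h1 : i ∉ T := fun h => hi (hT h)
    simp [ind_apply, hi, h1]

theorem step_cosimplicial {G : SimpleGraph ι} {W N W0 : Finset ι} {v : ι} (hv : v ∈ W)
    (hN : ∀ w, w ∈ N ↔ w ∈ W ∧ G.Adj v w)
    (hW0 : ∀ w, w ∈ W0 ↔ w ∈ W ∧ w ≠ v ∧ ¬ G.Adj v w)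
    (hst : ∀ a ∈ W0, ∀ b ∈ W0, ¬ G.Adj a b) :
    NF (HS G (W.erase v)) + 2 * (3 ^ W0.card * NF (HS G N)) ≤ NF (HS G W) := by
  classical
  have hvN : v ∉ N := fun h => G.irrefl ((hN v).1 h).2
  have hvW0 : v ∉ W0 := fun h => ((hW0 v).1 h).2.1 rfl
  set h : ℝ × (ι → ℝ) →ₗ[ℝ] ℝ := cx v with hh
  have hpt : ∀ T, h (pt T) = if v ∈ T then 1 else 0 := fun T => rfl
  have hrest : ∀ T, T ⊆ W → Stb G T → v ∈ T → T.erase v ⊆ W0 := by
    intro T hT hs hvT w hw
    obtain ⟨h1, h2⟩ := Finset.mem_erase.1 hw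
    exact (hW0 w).2 ⟨hT h2, h1, hs v hvT w h2⟩
  have hW0W : W0 ⊆ W := fun w hw => ((hW0 w).1 hw).1
  have hNW : N ⊆ W := fun w hw => ((hN w).1 hw).1
  have hins : ∀ T, T ⊆ W0 → Stb G (insert v T) := by
    intro T hT
    have h1 : Stb G T := fun a ha b hb => hst a (hT ha) b (hT hb)
    exact h1.insert fun w hw => ((hW0 w).1 (hT hw)).2.2
  have hinsW : ∀ T, T ⊆ W0 → insert v T ⊆ W := fun T hT =>
    Finset.insert_subset hv (hT.trans hW0W)
  have hle : ∀ x ∈ HS G W, h x ≤ 1 := by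
    rintro x ⟨T, hT, hs, rfl | rfl⟩
    · rw [hpt]
      split_ifs <;> norm_num
    · rw [map_neg, hpt]
      split_ifs <;> norm_num
  have hSD : ∀ T : Finset ι, h (pt T) = 1 ↔ v ∈ T := by
    intro T
    rw [hpt]
    split_ifs with h1 <;> simp [h1]
  have hSDn : ∀ T : Finset ι, h (-pt T) ≠ 1 := by
    intro T
    rw [map_neg, hpt]
    split_ifs <;> norm_num
  set e : ℝ × (ι → ℝ) := (1, ind {v} + (2⁻¹ : ℝ) • ind W0) with he
  have hcen : ∀ T, T.erase v ⊆ W0 → v ∈ T → (2 : ℝ) • e - pt T = pt (insert v (W0 \ T)) := by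
    intro T hT hvT
    rw [he]
    refine Prod.ext ?_ ?_
    · simp [pt]
      norm_num
    · ext i
      simp only [Prod.snd_sub, Pi.sub_apply, Prod.smul_snd, Pi.smul_apply, Pi.add_apply, pt,
        ind_apply, Finset.mem_singleton, Finset.mem_insert, Finset.mem_sdiff, smul_eq_mul]
      by_cases h1 : i = v
      · simp [h1, hvT, hvW0]
        norm_num
      · by_cases h2 : i ∈ T
        · have h3 : i ∈ W0 := hT (Finset.mem_erase.2 ⟨h1, h2⟩)
          simp [h1, h2, h3]
        · by_cases h3 : i ∈ W0 <;> simp [h1, h2, h3]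
  -- the image under the projection
  set π : ℝ × (ι → ℝ) →ₗ[ℝ] ℝ × (ι → ℝ) := LinearMap.id - h.smulRight e with hπ
  have hπa : ∀ x, π x = x - h x • e := fun x => rfl
  have hhe : h e = 1 := by
    rw [hh, cx_apply, he]
    simp [ind_apply, hvW0]
  have hπe : π e = 0 := by
    rw [hπa, hhe, one_smul, sub_self]
  have hπT : ∀ T, T.erase v ⊆ W0 → v ∈ T →
      π (pt T) = (2⁻¹ : ℝ) • (pt (T.erase v) + -pt (W0 \ T)) := by
    intro T hT hvT
    rw [hπa, hpt, if_pos hvT, one_smul, he]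
    refine Prod.ext ?_ ?_
    · simp [pt]
    · ext i
      simp only [Prod.snd_sub, Pi.sub_apply, Prod.smul_snd, Pi.smul_apply, Pi.add_apply,
        Prod.snd_add, Prod.snd_neg, Pi.neg_apply, pt,
        ind_apply, Finset.mem_singleton, Finset.mem_erase, Finset.mem_sdiff, smul_eq_mul]
      by_cases h1 : i = v
      · simp [h1, hvT, hvW0]
      · by_cases h2 : i ∈ T
        · have h3 : i ∈ W0 := hT (Finset.mem_erase.2 ⟨h1, h2⟩)
          simp [h1, h2, h3]
          norm_num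
        · by_cases h3 : i ∈ W0 <;> simp [h1, h2, h3]
  have hsub1 : HS G (W.erase v) ⊆ π '' HS G W := by
    rintro x ⟨T, hT, hs, hx⟩
    have hTW : T ⊆ W := hT.trans (Finset.erase_subset v W)
    have hvT : v ∉ T := fun h' => Finset.notMem_erase v W (hT h')
    have h1 : π (pt T) = pt T := by
      rw [hπa, hpt, if_neg hvT, zero_smul, sub_zero]
    rcases hx with rfl | rfl
    · exact ⟨pt T, pt_mem hTW hs, h1⟩
    · exact ⟨-pt T, npt_mem hTW hs, by rw [map_neg, h1]⟩
  have hsub2 : π '' HS G W ⊆ convexHull ℝ (HS G (W.erase v)) := by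
    have key : ∀ T, T ⊆ W → Stb G T → π (pt T) ∈ convexHull ℝ (HS G (W.erase v)) ∧
        -π (pt T) ∈ convexHull ℝ (HS G (W.erase v)) := by
      intro T hT hs
      by_cases hvT : v ∈ T
      · have h0 := hrest T hT hs hvT
        have h1 : T.erase v ⊆ W.erase v := Finset.erase_subset_erase v hT
        have h2 : W0 \ T ⊆ W.erase v := by
          intro w hw
          have := (hW0 w).1 (Finset.mem_sdiff.1 hw).1
          exact Finset.mem_erase.2 ⟨this.2.1, this.1⟩
        have h3 : Stb G (W0 \ T) := fun a ha b hb =>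
          hst a (Finset.mem_sdiff.1 ha).1 b (Finset.mem_sdiff.1 hb).1
        have h4 : Stb G (T.erase v) := hs.mono (Finset.erase_subset v T)
        rw [hπT T h0 hvT]
        refine ⟨mid_mem_hull (pt_mem h1 h4) (npt_mem h2 h3), ?_⟩
        have h5 : -((2⁻¹ : ℝ) • (pt (T.erase v) + -pt (W0 \ T))) =
            (2⁻¹ : ℝ) • (-pt (T.erase v) + pt (W0 \ T)) := by
          rw [← smul_neg, neg_add, neg_neg]
        rw [h5]
        exact mid_mem_hull (npt_mem h1 h4) (pt_mem h2 h3)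
      · have h1 : π (pt T) = pt T := by
          rw [hπa, hpt, if_neg hvT, zero_smul, sub_zero]
        have h2 : T ⊆ W.erase v := fun w hw =>
          Finset.mem_erase.2 ⟨fun h' => hvT (h' ▸ hw), hT hw⟩
        rw [h1]
        exact ⟨subset_convexHull ℝ _ (pt_mem h2 hs), subset_convexHull ℝ _ (npt_mem h2 hs)⟩
    rintro _ ⟨x, ⟨T, hT, hs, rfl | rfl⟩, rfl⟩
    · exact (key T hT hs).1
    · rw [map_neg]
      exact (key T hT hs).2
  -- the star
  set ρ : ℝ × (ι → ℝ) →ₗ[ℝ] ℝ × (ι → ℝ) :=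
    (LinearMap.fst ℝ ℝ (ι → ℝ) - cx v).prod (rs N ∘ₗ LinearMap.snd ℝ ℝ (ι → ℝ)) with hρdef
  have hρ1 : ∀ T, v ∈ T → Stb G T → ρ (pt T) = 0 := by
    intro T hvT hs
    refine Prod.ext ?_ ?_
    · change (pt T).1 - (pt T).2 v = 0
      rw [pt_fst, pt_snd, if_pos hvT, sub_self]
    · change rs N (pt T).2 = 0
      ext i
      rw [rs_apply, pt_snd]
      split_ifs with h1 h2
      · exact absurd ((hN i).1 h1).2 (hs v hvT i h2)
      · rfl
      · rfl
  have hρ0 : ∀ T, v ∉ T → ρ (pt T) = pt (T ∩ N) := by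
    intro T hvT
    refine Prod.ext ?_ ?_
    · change (pt T).1 - (pt T).2 v = 1
      rw [pt_fst, pt_snd, if_neg hvT, sub_zero]
    · exact rs_ind N T
  have hvW : ({v} : Finset ι) ⊆ W := Finset.singleton_subset_iff.2 hv
  refine step (HS_finite G W) (HS_sym G W) h hle
    ⟨pt {v}, pt_mem hvW (Stb_single G v), (hSD _).2 (Finset.mem_singleton_self v)⟩
    e ?_ π hπe ρ ?_ (U := insert 0 (HS G N)) ?_ ?_ ?_ ?_ ?_ ?_
  · rintro x ⟨T, hT, hs, rfl | rfl⟩ hx
    · have hvT := (hSD T).1 hx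
      rw [hcen T (hrest T hT hs hvT) hvT]
      have h1 : W0 \ T ⊆ W0 := Finset.sdiff_subset
      exact ⟨pt_mem (hinsW _ h1) (hins _ h1), (hSD _).2 (Finset.mem_insert_self v _)⟩
    · exact absurd hx (hSDn T)
  · rintro x ⟨T, hT, hs, rfl | rfl⟩ hx
    · exact hρ1 T ((hSD T).1 hx) hs
    · exact absurd hx (hSDn T)
  · rintro x ⟨T, hT, hs, rfl | rfl⟩ hx
    · have hvT : v ∉ T := fun h' => hx ((hSD T).2 h')
      rw [hρ0 T hvT, hpt, if_neg hvT, sub_zero, inv_one, one_smul]
      exact Or.inr (pt_mem Finset.inter_subset_right (hs.mono Finset.inter_subset_left))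
    · by_cases hvT : v ∈ T
      · rw [map_neg ρ, hρ1 T hvT hs, neg_zero, smul_zero]
        exact Or.inl rfl
      · rw [map_neg ρ, map_neg h, hρ0 T hvT, hpt, if_neg hvT, neg_zero, sub_zero, inv_one,
          one_smul]
        exact Or.inr (npt_mem Finset.inter_subset_right (hs.mono Finset.inter_subset_left))
  · rintro u (rfl | ⟨T, hT, hs, hu⟩)
    · refine ⟨-pt {v}, npt_mem hvW (Stb_single G v), hSDn _, ?_⟩
      rw [map_neg ρ, hρ1 _ (Finset.mem_singleton_self v) (Stb_single G v), neg_zero, smul_zero]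
    · have hvT : v ∉ T := fun h' => hvN (hT h')
      have hcap : T ∩ N = T := Finset.inter_eq_left.2 hT
      rcases hu with rfl | rfl
      · refine ⟨pt T, pt_mem (hT.trans hNW) hs, fun h' => hvT ((hSD T).1 h'), ?_⟩
        rw [hρ0 T hvT, hpt, if_neg hvT, sub_zero, inv_one, one_smul, hcap]
      · refine ⟨-pt T, npt_mem (hT.trans hNW) hs, hSDn T, ?_⟩
        rw [map_neg ρ, map_neg h, hρ0 T hvT, hpt, if_neg hvT, neg_zero, sub_zero, inv_one,
          one_smul, hcap]
  · rintro u (rfl | hu)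
    · exact Or.inl neg_zero
    · exact Or.inr (HS_sym G N u hu)
  · exact NF_mono_hull ((HS_finite G W).image π) hsub1 hsub2
  · have hD : (fun x => LinearMap.inr ℝ ℝ (ι → ℝ) x + e) ''
        {x : ι → ℝ | ∃ T, T ⊆ W0 ∧ x = ind T - (2⁻¹ : ℝ) • ind W0} =
        {x | x ∈ HS G W ∧ h x = 1} := by
      have key : ∀ T, v ∉ T → LinearMap.inr ℝ ℝ (ι → ℝ) (ind T - (2⁻¹ : ℝ) • ind W0) + e =
          pt (insert v T) := by
        intro T hvT
        rw [he]
        refine Prod.ext ?_ ?_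
        · simp [pt]
        · ext i
          simp only [LinearMap.inr_apply, Prod.snd_add, Pi.add_apply, Pi.sub_apply,
            Pi.smul_apply, pt, ind_apply, Finset.mem_singleton, Finset.mem_insert, smul_eq_mul]
          by_cases h1 : i = v
          · simp [h1, hvT]
          · by_cases h2 : i ∈ T <;> simp [h1, h2]
      ext x
      constructor
      · rintro ⟨_, ⟨T, hT, rfl⟩, rfl⟩
        simp only
        rw [key T fun h' => hvW0 (hT h')]
        exact ⟨pt_mem (hinsW T hT) (hins T hT), (hSD _).2 (Finset.mem_insert_self v T)⟩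
      · rintro ⟨⟨T, hT, hs, rfl | rfl⟩, hx⟩
        · have hvT := (hSD T).1 hx
          refine ⟨_, ⟨T.erase v, hrest T hT hs hvT, rfl⟩, ?_⟩
          simp only
          rw [key _ (Finset.notMem_erase v T), Finset.insert_erase hvT]
        · exact absurd hx (hSDn T)
    rw [← hD]
    refine (cube_count W0).trans ?_
    refine NF_le_image ?_ (LinearMap.inr ℝ ℝ (ι → ℝ)) LinearMap.inr_injective e
    refine Set.Finite.subset ((W0.powerset.finite_toSet).image
      fun T => ind T - (2⁻¹ : ℝ) • ind W0) ?_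
    rintro x ⟨T, hT, rfl⟩
    exact ⟨T, Finset.mem_coe.2 (Finset.mem_powerset.2 hT), rfl⟩
  · exact NF_insert_zero (HS_finite G N) (HS_ne G N) (HS_sym G N)

end Pool.Agent.K3R
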