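import Pool.Agent.K3R.HanD

/-!
# Hansen configurations: twins
-/

set_option autoImplicit false

namespace Pool.Agent.K3R

variable {ι : Type} [DecidableEq ι]

/-- the merging projection -/
def mg (v v' : ι) (t : ℝ) : ℝ × (ι → ℝ) →ₗ[ℝ] ℝ × (ι → ℝ) :=
  LinearMap.prodMap LinearMap.id (LinearMap.pi fun i =>
    if i = v then t • ((LinearMap.proj v : (ι → ℝ) →ₗ[ℝ] ℝ) + LinearMap.proj v')
    else if i = v' then 0 else LinearMap.proj i)

theorem mg_apply (v v' : ι) (t : ℝ) (x : ℝ × (ι → ℝ)) :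
    mg v v' t x = (x.1, fun i => if i = v then t * (x.2 v + x.2 v')
      else if i = v' then 0 else x.2 i) := by
  unfold mg
  rw [LinearMap.prodMap_apply]
  refine Prod.ext rfl ?_
  ext i
  simp only [LinearMap.pi_apply]
  split_ifs <;> rfl

theorem mg_none (v v' : ι) (t : ℝ) {T : Finset ι} (h1 : v ∉ T) (h2 : v' ∉ T) :
    mg v v' t (pt T) = pt T := by
  rw [mg_apply]
  refine Prod.ext rfl ?_
  ext i
  simp only [pt_snd, if_neg h1, if_neg h2]
  by_cases h3 : i = v
  · simp [h3, h1]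
  · by_cases h4 : i = v'
    · have h5 : ¬ v' = v := fun h => h3 (h4.trans h)
      simp [h4, h2, h5]
    · simp [h3, h4]

theorem mg_one_left (v v' : ι) {T : Finset ι} (h1 : v ∈ T) (h2 : v' ∉ T) :
    mg v v' 1 (pt T) = pt T := by
  rw [mg_apply]
  refine Prod.ext rfl ?_
  ext i
  simp only [pt_snd, if_pos h1, if_neg h2]
  by_cases h3 : i = v
  · simp [h3, h1]
  · by_cases h4 : i = v'
    · have h5 : ¬ v' = v := fun h => h3 (h4.trans h)
      simp [h4, h2, h5]
    · simp [h3, h4]

theorem mg_one_right {v v' : ι} (hne : v ≠ v') {T : Finset ι} (h1 : v ∉ T) (h2 : v' ∈ T) :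
    mg v v' 1 (pt T) = pt (insert v (T.erase v')) := by
  rw [mg_apply]
  refine Prod.ext rfl ?_
  ext i
  simp only [pt_snd, if_neg h1, if_pos h2, Finset.mem_insert, Finset.mem_erase]
  by_cases h3 : i = v
  · simp [h3]
  · by_cases h4 : i = v'
    · simp [h4, hne.symm]
    · simp [h3, h4]

theorem mg_half_both {v v' : ι} (hne : v ≠ v') {T : Finset ι} (h1 : v ∈ T) (h2 : v' ∈ T) :
    mg v v' 2⁻¹ (pt T) = pt (T.erase v') := by
  rw [mg_apply]
  refine Prod.ext rfl ?_
  ext i
  simp only [pt_snd, if_pos h1, if_pos h2, Finset.mem_erase]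
  by_cases h3 : i = v
  · simp [h3, h1, hne]
    norm_num
  · by_cases h4 : i = v'
    · simp [h4, hne.symm]
    · simp [h3, h4]

theorem mg_half_left {v v' : ι} (_hne : v ≠ v') {T : Finset ι} (h1 : v ∈ T) (h2 : v' ∉ T) :
    mg v v' 2⁻¹ (pt T) = (2⁻¹ : ℝ) • (pt (T.erase v) + pt T) := by
  rw [mg_apply]
  refine Prod.ext ?_ ?_
  · simp only [Prod.smul_fst, Prod.fst_add, pt_fst, smul_eq_mul]
    norm_num
  ext i
  simp only [Prod.smul_snd, Prod.snd_add, Pi.smul_apply, Pi.add_apply, pt_snd, if_pos h1,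
    if_neg h2, Finset.mem_erase, smul_eq_mul]
  by_cases h3 : i = v
  · simp [h3, h1]
  · by_cases h4 : i = v'
    · have h5 : ¬ v' = v := fun h => h3 (h4.trans h)
      simp [h4, h2, h5]
    · by_cases h5 : i ∈ T
      · simp [h3, h4, h5]
        norm_num
      · simp [h3, h4, h5]

theorem mg_half_right {v v' : ι} (hne : v ≠ v') {T : Finset ι} (h1 : v ∉ T) (h2 : v' ∈ T) :
    mg v v' 2⁻¹ (pt T) = (2⁻¹ : ℝ) • (pt (T.erase v') + pt (insert v (T.erase v'))) := by
  rw [mg_apply]
  refine Prod.ext ?_ ?_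
  · simp only [Prod.smul_fst, Prod.fst_add, pt_fst, smul_eq_mul]
    norm_num
  ext i
  simp only [Prod.smul_snd, Prod.snd_add, Pi.smul_apply, Pi.add_apply, pt_snd, if_neg h1,
    if_pos h2, Finset.mem_erase, Finset.mem_insert, smul_eq_mul]
  by_cases h3 : i = v
  · simp [h3, h1]
  · by_cases h4 : i = v'
    · simp [h4, hne.symm]
    · by_cases h5 : i ∈ T
      · simp [h3, h4, h5]
        norm_num
      · simp [h3, h4, h5]

theorem step_twins {G : SimpleGraph ι} {W N W0 : Finset ι} {v v' : ι} (hv : v ∈ W)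
    (hv' : v' ∈ W) (hne : v ≠ v')
    (htw : ∀ w ∈ W, w ≠ v → w ≠ v' → (G.Adj v w ↔ G.Adj v' w))
    (hN : ∀ w, w ∈ N ↔ w ∈ W ∧ w ≠ v ∧ w ≠ v' ∧ G.Adj v w)
    (hW0 : ∀ w, w ∈ W0 ↔ w ∈ W ∧ w ≠ v ∧ w ≠ v' ∧ ¬ G.Adj v w) :
    NF (HS G (W.erase v')) + 2 * (NF (HS G W0) * NF (HS G N)) ≤ NF (HS G W) := by
  classical
  have hvN : v ∉ N := fun h => ((hN v).1 h).2.1 rfl
  have hv'N : v' ∉ N := fun h => ((hN v').1 h).2.2.1 rfl
  have hvW0 : v ∉ W0 := fun h => ((hW0 v).1 h).2.1 rfl
  have hv'W0 : v' ∉ W0 := fun h => ((hW0 v').1 h).2.2.1 rfl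
  have hW0W : W0 ⊆ W := fun w hw => ((hW0 w).1 hw).1
  have hNW : N ⊆ W := fun w hw => ((hN w).1 hw).1
  set h : ℝ × (ι → ℝ) →ₗ[ℝ] ℝ := cx v - cx v' with hh
  have hpt : ∀ T, h (pt T) = (if v ∈ T then 1 else 0) - (if v' ∈ T then 1 else 0) :=
    fun T => rfl
  -- stable sets with `v` and without `v'`
  have hrest : ∀ T, T ⊆ W → Stb G T → v ∈ T → v' ∉ T → T.erase v ⊆ W0 := by
    intro T hT hs hvT hv'T w hw
    obtain ⟨h1, h2⟩ := Finset.mem_erase.1 hw
    exact (hW0 w).2 ⟨hT h2, h1, fun h' => hv'T (h' ▸ h2), hs v hvT w h2⟩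
  have hrest' : ∀ T, T ⊆ W → Stb G T → v' ∈ T → v ∉ T → T.erase v' ⊆ W0 := by
    intro T hT hs hv'T hvT w hw
    obtain ⟨h1, h2⟩ := Finset.mem_erase.1 hw
    have h3 : w ≠ v := fun h' => hvT (h' ▸ h2)
    exact (hW0 w).2 ⟨hT h2, h3, h1, fun hadj => hs v' hv'T w h2
      ((htw w (hT h2) h3 h1).1 hadj)⟩
  have hins : ∀ T, T ⊆ W0 → Stb G T → Stb G (insert v T) := fun T hT hs =>
    hs.insert fun w hw => ((hW0 w).1 (hT hw)).2.2.2
  have hins' : ∀ T, T ⊆ W0 → Stb G T → Stb G (insert v' T) := by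
    intro T hT hs
    refine hs.insert fun w hw hadj => ?_
    have h1 := (hW0 w).1 (hT hw)
    exact h1.2.2.2 ((htw w h1.1 h1.2.1 h1.2.2.1).2 hadj)
  have hinsW : ∀ T, T ⊆ W0 → insert v T ⊆ W := fun T hT =>
    Finset.insert_subset hv (hT.trans hW0W)
  have hinsW' : ∀ T, T ⊆ W0 → insert v' T ⊆ W := fun T hT =>
    Finset.insert_subset hv' (hT.trans hW0W)
  have hle : ∀ x ∈ HS G W, h x ≤ 1 := by
    rintro x ⟨T, hT, hs, rfl | rfl⟩
    · rw [hpt]
      split_ifs <;> norm_num
    · rw [map_neg, hpt]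
      split_ifs <;> norm_num
  have hSD : ∀ T : Finset ι, h (pt T) = 1 ↔ v ∈ T ∧ v' ∉ T := by
    intro T
    rw [hpt]
    by_cases h1 : v ∈ T <;> by_cases h2 : v' ∈ T <;> simp [h1, h2]
    norm_num
  have hSDn : ∀ T : Finset ι, h (-pt T) = 1 ↔ v' ∈ T ∧ v ∉ T := by
    intro T
    rw [map_neg, hpt]
    by_cases h1 : v ∈ T <;> by_cases h2 : v' ∈ T <;> simp [h1, h2]
    norm_num
  -- the centre
  set e : ℝ × (ι → ℝ) := (0, (2⁻¹ : ℝ) • (ind {v} - ind {v'})) with he
  have h2e : (2 : ℝ) • e = (0, ind {v} - ind {v'}) := by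
    rw [he, Prod.smul_mk, smul_zero, smul_smul, mul_inv_cancel₀ two_ne_zero, one_smul]
  have hc1 : ∀ T, v ∈ T → v' ∉ T → (2 : ℝ) • e - pt T = -pt (insert v' (T.erase v)) := by
    intro T hvT hv'T
    rw [h2e]
    refine Prod.ext ?_ ?_
    · simp [pt]
    · ext i
      simp only [Prod.snd_sub, Prod.snd_neg, Pi.sub_apply, Pi.neg_apply, pt, ind_apply,
        Finset.mem_singleton, Finset.mem_erase, Finset.mem_insert]
      by_cases h1 : i = v
      · simp [h1, hvT, hne]
      · by_cases h2 : i = v'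
        · simp [h2, hv'T, hne.symm]
        · by_cases h3 : i ∈ T <;> simp [h1, h2, h3]
  have hc2 : ∀ T, v' ∈ T → v ∉ T → (2 : ℝ) • e - -pt T = pt (insert v (T.erase v')) := by
    intro T hv'T hvT
    rw [h2e]
    refine Prod.ext ?_ ?_
    · simp [pt]
    · ext i
      simp only [Prod.snd_sub, Prod.snd_neg, Pi.sub_apply, Pi.neg_apply, pt, ind_apply,
        Finset.mem_singleton, Finset.mem_erase, Finset.mem_insert]
      by_cases h1 : i = v
      · simp [h1, hvT, hne]
      · by_cases h2 : i = v'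
        · simp [h2, hv'T, hne.symm]
        · by_cases h3 : i ∈ T <;> simp [h1, h2, h3]
  have hvW : ({v} : Finset ι) ⊆ W := Finset.singleton_subset_iff.2 hv
  have hv'W : ({v'} : Finset ι) ⊆ W := Finset.singleton_subset_iff.2 hv'
  have hv1 : v' ∉ ({v} : Finset ι) := by
    rw [Finset.mem_singleton]
    exact hne.symm
  have hv2 : v ∉ ({v'} : Finset ι) := by
    rw [Finset.mem_singleton]
    exact hne
  -- the star
  set ρ : ℝ × (ι → ℝ) →ₗ[ℝ] ℝ × (ι → ℝ) :=
    (LinearMap.fst ℝ ℝ (ι → ℝ) - cx v - cx v').prod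
      (rs N ∘ₗ LinearMap.snd ℝ ℝ (ι → ℝ)) with hρdef
  have hρv : ∀ T, T ⊆ W → Stb G T → v ∈ T ∨ v' ∈ T → rs N (pt T).2 = 0 := by
    intro T hT hs hor
    ext i
    rw [rs_apply, pt_snd]
    split_ifs with h1 h2
    · exfalso
      have h3 := (hN i).1 h1
      rcases hor with h4 | h4
      · exact hs v h4 i h2 h3.2.2.2
      · exact hs v' h4 i h2 ((htw i h3.1 h3.2.1 h3.2.2.1).1 h3.2.2.2)
    · rfl
    · rfl
  have hρ1 : ∀ T, T ⊆ W → Stb G T → v ∈ T → v' ∉ T → ρ (pt T) = 0 := by
    intro T hT hs hvT hv'T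
    refine Prod.ext ?_ (hρv T hT hs (Or.inl hvT))
    change (pt T).1 - (pt T).2 v - (pt T).2 v' = 0
    rw [pt_fst, pt_snd, pt_snd, if_pos hvT, if_neg hv'T]
    norm_num
  have hρ2 : ∀ T, T ⊆ W → Stb G T → v' ∈ T → v ∉ T → ρ (pt T) = 0 := by
    intro T hT hs hv'T hvT
    refine Prod.ext ?_ (hρv T hT hs (Or.inr hv'T))
    change (pt T).1 - (pt T).2 v - (pt T).2 v' = 0
    rw [pt_fst, pt_snd, pt_snd, if_neg hvT, if_pos hv'T]
    norm_num
  have hρ3 : ∀ T, T ⊆ W → Stb G T → v ∈ T → v' ∈ T → ρ (pt T) = -pt ∅ := by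
    intro T hT hs hvT hv'T
    refine Prod.ext ?_ ?_
    · change (pt T).1 - (pt T).2 v - (pt T).2 v' = -1
      rw [pt_fst, pt_snd, pt_snd, if_pos hvT, if_pos hv'T]
      norm_num
    · change rs N (pt T).2 = _
      rw [hρv T hT hs (Or.inl hvT)]
      ext i
      simp [pt, ind_apply]
  have hρ0 : ∀ T, v ∉ T → v' ∉ T → ρ (pt T) = pt (T ∩ N) := by
    intro T hvT hv'T
    refine Prod.ext ?_ ?_
    · change (pt T).1 - (pt T).2 v - (pt T).2 v' = 1
      rw [pt_fst, pt_snd, pt_snd, if_neg hvT, if_neg hv'T]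
      norm_num
    · exact rs_ind N T
  -- the projection
  obtain ⟨π, hπe, hsub1, hsub2⟩ : ∃ π : ℝ × (ι → ℝ) →ₗ[ℝ] ℝ × (ι → ℝ), π e = 0 ∧
      HS G (W.erase v') ⊆ π '' HS G W ∧ π '' HS G W ⊆ convexHull ℝ (HS G (W.erase v')) := by
    have hmge : ∀ t, mg v v' t e = 0 := by
      intro t
      rw [mg_apply, he]
      refine Prod.ext rfl ?_
      ext i
      simp only [Pi.smul_apply, Pi.sub_apply, ind_apply, Finset.mem_singleton, smul_eq_mul]
      by_cases h1 : i = v
      · simp [h1, hne, hne.symm]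
      · by_cases h2 : i = v'
        · simp [h2, hne, hne.symm]
        · simp [h1, h2]
    have herase : ∀ T, T ⊆ W → v' ∉ T → T ⊆ W.erase v' := fun T hT hv'T w hw =>
      Finset.mem_erase.2 ⟨fun h' => hv'T (h' ▸ hw), hT hw⟩
    have hvWe : v ∈ W.erase v' := Finset.mem_erase.2 ⟨hne, hv⟩
    by_cases hadj : G.Adj v v'
    · refine ⟨mg v v' 1, hmge 1, ?_, ?_⟩
      · rintro x ⟨T, hT, hs, hx⟩
        have hTW : T ⊆ W := hT.trans (Finset.erase_subset v' W)
        have hv'T : v' ∉ T := fun h' => Finset.notMem_erase v' W (hT h')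
        have h1 : mg v v' 1 (pt T) = pt T := by
          by_cases hvT : v ∈ T
          · exact mg_one_left v v' hvT hv'T
          · exact mg_none v v' 1 hvT hv'T
        rcases hx with rfl | rfl
        · exact ⟨pt T, pt_mem hTW hs, h1⟩
        · exact ⟨-pt T, npt_mem hTW hs, by rw [map_neg, h1]⟩
      · have key : ∀ T, T ⊆ W → Stb G T → ∃ T', T' ⊆ W.erase v' ∧ Stb G T' ∧
            mg v v' 1 (pt T) = pt T' := by
          intro T hT hs
          by_cases hv'T : v' ∈ T
          · have hvT : v ∉ T := fun h' => hs v h' v' hv'T hadj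
            refine ⟨insert v (T.erase v'), ?_, ?_, mg_one_right hne hvT hv'T⟩
            · exact Finset.insert_subset hvWe (Finset.erase_subset_erase v' hT)
            · exact hins _ (hrest' T hT hs hv'T hvT) (hs.mono (Finset.erase_subset v' T))
          · refine ⟨T, herase T hT hv'T, hs, ?_⟩
            by_cases hvT : v ∈ T
            · exact mg_one_left v v' hvT hv'T
            · exact mg_none v v' 1 hvT hv'T
        rintro _ ⟨x, ⟨T, hT, hs, hx⟩, rfl⟩
        obtain ⟨T', hT', hs', h1⟩ := key T hT hs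
        apply subset_convexHull ℝ (HS G (W.erase v'))
        rcases hx with rfl | rfl
        · rw [h1]
          exact pt_mem hT' hs'
        · rw [map_neg, h1]
          exact npt_mem hT' hs'
    · refine ⟨mg v v' 2⁻¹, hmge _, ?_, ?_⟩
      · rintro x ⟨T, hT, hs, hx⟩
        have hTW : T ⊆ W := hT.trans (Finset.erase_subset v' W)
        have hv'T : v' ∉ T := fun h' => Finset.notMem_erase v' W (hT h')
        obtain ⟨T', hT', hs', h1⟩ : ∃ T', T' ⊆ W ∧ Stb G T' ∧ mg v v' 2⁻¹ (pt T') = pt T := by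
          by_cases hvT : v ∈ T
          · refine ⟨insert v' T, Finset.insert_subset hv' hTW, ?_, ?_⟩
            · refine hs.insert fun w hw hadj' => ?_
              by_cases hwv : w = v
              · rw [hwv] at hadj'
                exact hadj hadj'.symm
              · have hwv' : w ≠ v' := fun h' => hv'T (h' ▸ hw)
                exact hs v hvT w hw ((htw w (hTW hw) hwv hwv').2 hadj')
            · rw [mg_half_both hne (Finset.mem_insert_of_mem hvT) (Finset.mem_insert_self v' T),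
                Finset.erase_insert hv'T]
          · exact ⟨T, hTW, hs, mg_none v v' _ hvT hv'T⟩
        rcases hx with rfl | rfl
        · exact ⟨pt T', pt_mem hT' hs', h1⟩
        · exact ⟨-pt T', npt_mem hT' hs', by rw [map_neg, h1]⟩
      · have key : ∀ T, T ⊆ W → Stb G T → ∃ T₁ T₂, T₁ ⊆ W.erase v' ∧ Stb G T₁ ∧
            T₂ ⊆ W.erase v' ∧ Stb G T₂ ∧
            mg v v' 2⁻¹ (pt T) = (2⁻¹ : ℝ) • (pt T₁ + pt T₂) := by
          intro T hT hs
          have hself : ∀ T' : Finset ι, pt T' = (2⁻¹ : ℝ) • (pt T' + pt T') := by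
            intro T'
            rw [← two_smul ℝ (pt T'), smul_smul, inv_mul_cancel₀ two_ne_zero, one_smul]
          by_cases hvT : v ∈ T
          · by_cases hv'T : v' ∈ T
            · have h1 := hs.mono (Finset.erase_subset v' T)
              have h2 := Finset.erase_subset_erase v' hT
              exact ⟨T.erase v', T.erase v', h2, h1, h2, h1, by
                rw [mg_half_both hne hvT hv'T]; exact hself _⟩
            · refine ⟨T.erase v, T, ?_, hs.mono (Finset.erase_subset v T),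
                herase T hT hv'T, hs, mg_half_left hne hvT hv'T⟩
              exact (Finset.erase_subset v T).trans (herase T hT hv'T)
          · by_cases hv'T : v' ∈ T
            · have h1 := hs.mono (Finset.erase_subset v' T)
              have h2 := Finset.erase_subset_erase v' hT
              exact ⟨T.erase v', insert v (T.erase v'), h2, h1,
                Finset.insert_subset hvWe h2, hins _ (hrest' T hT hs hv'T hvT) h1,
                mg_half_right hne hvT hv'T⟩
            · exact ⟨T, T, herase T hT hv'T, hs, herase T hT hv'T, hs, by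
                rw [mg_none v v' _ hvT hv'T]; exact hself _⟩
        rintro _ ⟨x, ⟨T, hT, hs, hx⟩, rfl⟩
        obtain ⟨T₁, T₂, k1, k2, k3, k4, k5⟩ := key T hT hs
        rcases hx with rfl | rfl
        · rw [k5]
          exact mid_mem_hull (pt_mem k1 k2) (pt_mem k3 k4)
        · rw [map_neg, k5, ← smul_neg, neg_add]
          exact mid_mem_hull (npt_mem k1 k2) (npt_mem k3 k4)
  refine step (HS_finite G W) (HS_sym G W) h hle
    ⟨pt {v}, pt_mem hvW (Stb_single G v), (hSD _).2 ⟨Finset.mem_singleton_self v, hv1⟩⟩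
    e ?_ π hπe ρ ?_ (U := insert 0 (HS G N)) ?_ ?_ ?_ ?_ ?_ ?_
  · rintro x ⟨T, hT, hs, rfl | rfl⟩ hx
    · obtain ⟨hvT, hv'T⟩ := (hSD T).1 hx
      rw [hc1 T hvT hv'T]
      have h1 := hrest T hT hs hvT hv'T
      have h2 := hs.mono (Finset.erase_subset v T)
      refine ⟨npt_mem (hinsW' _ h1) (hins' _ h1 h2), (hSDn _).2
        ⟨Finset.mem_insert_self v' _, ?_⟩⟩
      intro h3
      rcases Finset.mem_insert.1 h3 with h4 | h4
      · exact hne h4
      · exact Finset.notMem_erase v T h4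
    · obtain ⟨hv'T, hvT⟩ := (hSDn T).1 hx
      rw [hc2 T hv'T hvT]
      have h1 := hrest' T hT hs hv'T hvT
      have h2 := hs.mono (Finset.erase_subset v' T)
      refine ⟨pt_mem (hinsW _ h1) (hins _ h1 h2), (hSD _).2
        ⟨Finset.mem_insert_self v _, ?_⟩⟩
      intro h3
      rcases Finset.mem_insert.1 h3 with h4 | h4
      · exact hne h4.symm
      · exact Finset.notMem_erase v' T h4
  · rintro x ⟨T, hT, hs, rfl | rfl⟩ hx
    · obtain ⟨hvT, hv'T⟩ := (hSD T).1 hx
      exact hρ1 T hT hs hvT hv'T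
    · obtain ⟨hv'T, hvT⟩ := (hSDn T).1 hx
      rw [map_neg, hρ2 T hT hs hv'T hvT, neg_zero]
  · rintro x ⟨T, hT, hs, rfl | rfl⟩ hx
    · by_cases hvT : v ∈ T
      · have hv'T : v' ∈ T := by
          by_contra h'
          exact hx ((hSD T).2 ⟨hvT, h'⟩)
        rw [hρ3 T hT hs hvT hv'T, hpt, if_pos hvT, if_pos hv'T, sub_self, sub_zero, inv_one,
          one_smul]
        exact Or.inr (npt_mem (Finset.empty_subset N) (Stb_empty G))
      · by_cases hv'T : v' ∈ T
        · rw [hρ2 T hT hs hv'T hvT, smul_zero]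
          exact Or.inl rfl
        · rw [hρ0 T hvT hv'T, hpt, if_neg hvT, if_neg hv'T, sub_self, sub_zero, inv_one,
            one_smul]
          exact Or.inr (pt_mem Finset.inter_subset_right (hs.mono Finset.inter_subset_left))
    · by_cases hv'T : v' ∈ T
      · have hvT : v ∈ T := by
          by_contra h'
          exact hx ((hSDn T).2 ⟨hv'T, h'⟩)
        rw [map_neg ρ, map_neg h, hρ3 T hT hs hvT hv'T, hpt, if_pos hvT, if_pos hv'T, sub_self,
          neg_zero, sub_zero, inv_one, one_smul, neg_neg]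
        exact Or.inr (pt_mem (Finset.empty_subset N) (Stb_empty G))
      · by_cases hvT : v ∈ T
        · rw [map_neg ρ, hρ1 T hT hs hvT hv'T, neg_zero, smul_zero]
          exact Or.inl rfl
        · rw [map_neg ρ, map_neg h, hρ0 T hvT hv'T, hpt, if_neg hvT, if_neg hv'T, sub_self,
            neg_zero, sub_zero, inv_one, one_smul]
          exact Or.inr (npt_mem Finset.inter_subset_right (hs.mono Finset.inter_subset_left))
  · rintro u (rfl | ⟨T, hT, hs, hu⟩)
    · refine ⟨pt {v'}, pt_mem hv'W (Stb_single G v'), ?_, ?_⟩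
      · intro h1
        exact hv2 ((hSD _).1 h1).1
      · rw [hρ2 _ hv'W (Stb_single G v') (Finset.mem_singleton_self v') hv2, smul_zero]
    · have hvT : v ∉ T := fun h' => hvN (hT h')
      have hv'T : v' ∉ T := fun h' => hv'N (hT h')
      have hcap : T ∩ N = T := Finset.inter_eq_left.2 hT
      rcases hu with rfl | rfl
      · refine ⟨pt T, pt_mem (hT.trans hNW) hs, fun h' => hvT ((hSD T).1 h').1, ?_⟩
        rw [hρ0 T hvT hv'T, hpt, if_neg hvT, if_neg hv'T, sub_self, sub_zero, inv_one, one_smul,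
          hcap]
      · refine ⟨-pt T, npt_mem (hT.trans hNW) hs, fun h' => hv'T ((hSDn T).1 h').1, ?_⟩
        rw [map_neg ρ, map_neg h, hρ0 T hvT hv'T, hpt, if_neg hvT, if_neg hv'T, sub_self,
          neg_zero, sub_zero, inv_one, one_smul, hcap]
  · rintro u (rfl | hu)
    · exact Or.inl neg_zero
    · exact Or.inr (HS_sym G N u hu)
  · exact NF_mono_hull ((HS_finite G W).image π) hsub1 hsub2
  · have himg : mg v v' 0 '' {x | x ∈ HS G W ∧ h x = 1} = HS G W0 := by
      have hdel1 : ∀ T, v ∈ T → v' ∉ T → mg v v' 0 (pt T) = pt (T.erase v) := by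
        intro T hvT hv'T
        rw [mg_apply]
        refine Prod.ext rfl ?_
        ext i
        simp only [pt_snd, Finset.mem_erase]
        by_cases h1 : i = v
        · simp [h1]
        · by_cases h2 : i = v'
          · simp [h2, hv'T]
          · simp [h1, h2]
      have hdel2 : ∀ T, v' ∈ T → v ∉ T → mg v v' 0 (pt T) = pt (T.erase v') := by
        intro T hv'T hvT
        rw [mg_apply]
        refine Prod.ext rfl ?_
        ext i
        simp only [pt_snd, Finset.mem_erase]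
        by_cases h1 : i = v
        · simp [h1, hvT]
        · by_cases h2 : i = v'
          · simp [h2]
          · simp [h1, h2]
      ext x
      constructor
      · rintro ⟨_, ⟨⟨T, hT, hs, rfl | rfl⟩, hx⟩, rfl⟩
        · obtain ⟨hvT, hv'T⟩ := (hSD T).1 hx
          rw [hdel1 T hvT hv'T]
          exact pt_mem (hrest T hT hs hvT hv'T) (hs.mono (Finset.erase_subset v T))
        · obtain ⟨hv'T, hvT⟩ := (hSDn T).1 hx
          rw [map_neg, hdel2 T hv'T hvT]
          exact npt_mem (hrest' T hT hs hv'T hvT) (hs.mono (Finset.erase_subset v' T))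
      · rintro ⟨T, hT, hs, hx⟩
        have hvT : v ∉ T := fun h' => hvW0 (hT h')
        have hv'T : v' ∉ T := fun h' => hv'W0 (hT h')
        rcases hx with rfl | rfl
        · have h1 : v' ∉ insert v T := by
            intro h2
            rcases Finset.mem_insert.1 h2 with h3 | h3
            · exact hne h3.symm
            · exact hv'T h3
          refine ⟨pt (insert v T), ⟨pt_mem (hinsW T hT) (hins T hT hs),
            (hSD _).2 ⟨Finset.mem_insert_self v T, h1⟩⟩, ?_⟩
          rw [hdel1 _ (Finset.mem_insert_self v T) h1, Finset.erase_insert hvT]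
        · have h1 : v ∉ insert v' T := by
            intro h2
            rcases Finset.mem_insert.1 h2 with h3 | h3
            · exact hne h3
            · exact hvT h3
          refine ⟨-pt (insert v' T), ⟨npt_mem (hinsW' T hT) (hins' T hT hs),
            (hSDn _).2 ⟨Finset.mem_insert_self v' T, h1⟩⟩, ?_⟩
          rw [map_neg, hdel2 _ (Finset.mem_insert_self v' T) h1, Finset.erase_insert hv'T]
    rw [← himg]
    exact NF_image_le ((HS_finite G W).subset fun x hx => hx.1) _
  · exact NF_insert_zero (HS_finite G N) (HS_ne G N) (HS_sym G N)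

end Pool.Agent.K3R
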