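import Pool.Agent.K3R.Base

/-!
# Configurations with commuting reflections
-/

set_option autoImplicit false

namespace Pool.Agent.K3R

variable {V : Type} [AddCommGroup V] [Module ℝ V]

theorem card_le_of_biorth {ι : Type} [DecidableEq ι] {I : Finset ι} {e : ι → V}
    {f : ι → V →ₗ[ℝ] ℝ} (hb : ∀ i ∈ I, ∀ k ∈ I, f i (e k) = if i = k then 1 else 0)
    {W : Submodule ℝ V} [FiniteDimensional ℝ W] (he : ∀ i ∈ I, e i ∈ W) :
    I.card ≤ Module.finrank ℝ W := by
  classical
  have hli : LinearIndependent ℝ (fun i : I => (⟨e i, he i i.2⟩ : W)) := by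
    rw [Fintype.linearIndependent_iff]
    intro g hg i
    have h1 := congrArg (fun w : W => f i (w : V)) hg
    simp only [Submodule.coe_sum, Submodule.coe_smul, map_sum, map_smul, smul_eq_mul,
      Submodule.coe_zero, map_zero] at h1
    rw [Finset.sum_eq_single i] at h1
    · rw [hb i i.2 i i.2, if_pos rfl, mul_one] at h1
      exact h1
    · intro k _ hki
      rw [hb i i.2 k k.2, if_neg, mul_zero]
      exact fun h => hki (Subtype.ext h.symm)
    · intro h
      exact absurd (Finset.mem_univ i) h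
  have := hli.fintype_card_le_finrank
  simpa using this

theorem dm_image {S : Set V} (hS : S.Finite) {W : Type} [AddCommGroup W] [Module ℝ W]
    (π : V →ₗ[ℝ] W) :
    dm (π '' S) + Module.finrank ℝ (LinearMap.ker π ⊓ Submodule.span ℝ S : Submodule ℝ V) =
      dm S := by
  have : FiniteDimensional ℝ (Submodule.span ℝ S) := FiniteDimensional.span_of_finite ℝ hS
  unfold dm
  rw [Submodule.span_image]
  have h1 := LinearMap.finrank_range_add_finrank_ker (π.domRestrict (Submodule.span ℝ S))
  rw [LinearMap.range_domRestrict] at h1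
  have h2 : Module.finrank ℝ (LinearMap.ker (π.domRestrict (Submodule.span ℝ S))) =
      Module.finrank ℝ (LinearMap.ker π ⊓ Submodule.span ℝ S : Submodule ℝ V) := by
    rw [LinearMap.ker_domRestrict]
    have h3 : (Submodule.comap (Submodule.span ℝ S).subtype (LinearMap.ker π)).map
        (Submodule.span ℝ S).subtype = LinearMap.ker π ⊓ Submodule.span ℝ S := by
      rw [Submodule.map_comap_subtype, inf_comm]
    rw [← h3]
    exact (LinearEquiv.finrank_eq (Submodule.equivMapOfInjective _
      (Submodule.injective_subtype _) _))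
  rw [← h2]
  exact h1

theorem exists_proj (W : Submodule ℝ V) :
    ∃ ρ : V →ₗ[ℝ] V, (∀ x, x - ρ x ∈ W) ∧ ∀ x ∈ W, ρ x = 0 := by
  obtain ⟨s, hs⟩ := W.mkQ.exists_rightInverse_of_surjective (by
    rw [LinearMap.range_eq_top]
    exact Submodule.mkQ_surjective W)
  refine ⟨s ∘ₗ W.mkQ, fun x => ?_, fun x hx => ?_⟩
  · have h1 := LinearMap.congr_fun hs (W.mkQ x)
    rw [← Submodule.Quotient.mk_eq_zero, Submodule.Quotient.mk_sub, sub_eq_zero]
    simp only [LinearMap.comp_apply, LinearMap.id_apply, Submodule.mkQ_apply] at h1 ⊢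
    exact h1.symm
  · rw [LinearMap.comp_apply, Submodule.mkQ_apply, (Submodule.Quotient.mk_eq_zero W).2 hx, map_zero]

/-- the hypotheses on the reflections -/
structure Refl {ι : Type} [DecidableEq ι] (I : Finset ι) (e : ι → V) (f : ι → V →ₗ[ℝ] ℝ)
    (S : Set V) : Prop where
  bi : ∀ i ∈ I, ∀ k ∈ I, f i (e k) = if i = k then 1 else 0
  inv : ∀ i ∈ I, ∀ x ∈ S, x - (2 * f i x) • e i ∈ S
  mem : ∀ i ∈ I, e i ∈ Submodule.span ℝ S

theorem main {ι : Type} [DecidableEq ι] (K : ℕ)
    (hK : ∀ S : Set V, S.Finite → S.Nonempty → (∀ x ∈ S, -x ∈ S) → dm S ≤ K → 3 ^ dm S ≤ NF S) :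
    ∀ (n : ℕ) (I : Finset ι), I.card ≤ n → ∀ (e : ι → V) (f : ι → V →ₗ[ℝ] ℝ) (S : Set V),
      S.Finite → S.Nonempty → (∀ x ∈ S, -x ∈ S) → Refl I e f S → dm S ≤ I.card + K →
      3 ^ dm S ≤ NF S := by
  classical
  intro n
  induction n with
  | zero =>
    intro I hI e f S hS hne hsym _ hdm
    exact hK S hS hne hsym (by omega)
  | succ n ih =>
    intro I hI e f S hS hne hsym hR hdm
    rcases Finset.eq_empty_or_nonempty I with rfl | ⟨i₀, hi₀⟩
    · exact hK S hS hne hsym (by simpa using hdm)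
    have hfd : FiniteDimensional ℝ (Submodule.span ℝ S) := FiniteDimensional.span_of_finite ℝ hS
    -- an element with non zero value
    have hfe : f i₀ (e i₀) = 1 := by rw [hR.bi i₀ hi₀ i₀ hi₀, if_pos rfl]
    have hex : ∃ x ∈ S, f i₀ x ≠ 0 := by
      by_contra hcon
      push Not at hcon
      have h1 : Submodule.span ℝ S ≤ LinearMap.ker (f i₀) :=
        Submodule.span_le.2 fun x hx => LinearMap.mem_ker.2 (hcon x hx)
      have h2 := LinearMap.mem_ker.1 (h1 (hR.mem i₀ hi₀))
      rw [hfe] at h2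
      exact one_ne_zero h2
    obtain ⟨x₀, hx₀, hmax⟩ := Set.exists_max_image S (f i₀) hS hne
    set M : ℝ := f i₀ x₀ with hM
    have hMpos : 0 < M := by
      obtain ⟨x, hx, hx0⟩ := hex
      have h1 := hmax x hx
      have h2 := hmax (-x) (hsym x hx)
      rw [map_neg] at h2
      rcases lt_or_gt_of_ne hx0 with h | h
      · linarith
      · linarith
    set D : Set V := mx S (f i₀) with hDdef
    have hD : IsF S D := mx_isF hS hne _
    have hDval : ∀ x, x ∈ D ↔ x ∈ S ∧ f i₀ x = M := by
      intro x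
      constructor
      · intro hx
        exact ⟨hx.1, le_antisymm (hmax x hx.1) (hx.2 x₀ hx₀)⟩
      · rintro ⟨hx, hxM⟩
        refine ⟨hx, fun y hy => ?_⟩
        rw [hxM]
        exact hmax y hy
    have hx₀D : x₀ ∈ D := (hDval x₀).2 ⟨hx₀, rfl⟩
    set h : V →ₗ[ℝ] ℝ := M⁻¹ • f i₀ with hh
    have happ : ∀ x, h x = M⁻¹ * f i₀ x := fun x => rfl
    have h1 : ∀ x ∈ D, h x = 1 := fun x hx => by
      rw [happ, ((hDval x).1 hx).2, inv_mul_cancel₀ hMpos.ne']
    have h2 : ∀ x ∈ S, x ∉ D → h x < 1 := fun x hx hx' => by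
      have h3 : f i₀ x < M := lt_of_le_of_ne (hmax x hx) fun h => hx' ((hDval x).2 ⟨hx, h⟩)
      have := mul_lt_mul_of_pos_left h3 (inv_pos.2 hMpos)
      rw [inv_mul_cancel₀ hMpos.ne'] at this
      exact this
    have hnegD : ∀ x ∈ D, -x ∉ D := fun x hx hx' => by
      have h3 := ((hDval _).1 hx').2
      rw [map_neg, ((hDval x).1 hx).2] at h3
      linarith
    have hDS : D ≠ S := by
      intro hc
      apply hnegD x₀ hx₀D
      rw [hc]
      exact hsym x₀ hx₀
    set e' : V := M • e i₀ with he'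
    have hfe' : f i₀ e' = M := by rw [he', map_smul, hfe, smul_eq_mul, mul_one]
    have hhe' : h e' = 1 := by rw [happ, hfe', inv_mul_cancel₀ hMpos.ne']
    have hcs : ∀ x ∈ D, (2 : ℝ) • e' - x ∈ D := by
      intro x hx
      obtain ⟨hxS, hxM⟩ := (hDval x).1 hx
      have h3 := hsym _ (hR.inv i₀ hi₀ x hxS)
      rw [hxM] at h3
      have h4 : -(x - (2 * M) • e i₀) = (2 : ℝ) • e' - x := by
        rw [he', smul_smul]
        abel
      rw [h4] at h3
      refine (hDval _).2 ⟨h3, ?_⟩
      rw [map_sub, map_smul, hfe', hxM, smul_eq_mul]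
      ring
    -- reflections preserve `f i₀`
    have hpres : ∀ i ∈ I, i ≠ i₀ → ∀ x, f i₀ (x - (2 * f i x) • e i) = f i₀ x := by
      intro i hi hii x
      rw [map_sub, map_smul, hR.bi i₀ hi₀ i hi, if_neg (fun h => hii h.symm), smul_zero, sub_zero]
    have hfie : ∀ i ∈ I, i ≠ i₀ → f i (e i₀) = 0 := fun i hi hii => by
      rw [hR.bi i hi i₀ hi₀, if_neg hii]
    have hfie' : ∀ i ∈ I, i ≠ i₀ → f i e' = 0 := fun i hi hii => by
      rw [he', map_smul, hfie i hi hii, smul_zero]
    have hinvD : ∀ i ∈ I, i ≠ i₀ → ∀ x ∈ D, x - (2 * f i x) • e i ∈ D := by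
      intro i hi hii x hx
      obtain ⟨hxS, hxM⟩ := (hDval x).1 hx
      exact (hDval _).2 ⟨hR.inv i hi x hxS, by rw [hpres i hi hii, hxM]⟩
    -- the projection
    set π : V →ₗ[ℝ] V := LinearMap.id - (f i₀).smulRight (e i₀) with hπ
    have hπa : ∀ x, π x = x - f i₀ x • e i₀ := fun x => rfl
    have hπe' : π e' = 0 := by
      rw [hπa, hfe', he', sub_self]
    have hcentral := central_face hS hsym hD (e := e')
      (fun A hA hAD => by
        obtain ⟨x, hx⟩ := hA.2.1
        exact ⟨x, hx, hcs x (hAD hx)⟩) π hπe'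
    -- (1)
    have hdm1 : dm (π '' S) + 1 = dm S := by
      have h3 := dm_image hS π
      have h4 : (LinearMap.ker π ⊓ Submodule.span ℝ S : Submodule ℝ V) =
          Submodule.span ℝ {e i₀} := by
        apply le_antisymm
        · rintro x ⟨hx, -⟩
          have h5 : π x = 0 := hx
          rw [hπa, sub_eq_zero] at h5
          rw [h5]
          exact Submodule.smul_mem _ _ (Submodule.mem_span_singleton_self _)
        · rw [Submodule.span_singleton_le_iff_mem]
          refine ⟨?_, hR.mem i₀ hi₀⟩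
          change π (e i₀) = 0
          rw [hπa, hfe, one_smul, sub_self]
      rw [h4, finrank_span_singleton] at h3
      · exact h3
      · intro h0
        rw [h0, map_zero] at hfe
        exact zero_ne_one hfe
    have hcard : I.card = (I.erase i₀).card + 1 := by
      rw [Finset.card_erase_of_mem hi₀]
      have := Finset.card_pos.2 ⟨i₀, hi₀⟩
      omega
    have hA1 : 3 ^ dm (π '' S) ≤ NF (π '' S) := by
      refine ih (I.erase i₀) (by omega) e f (π '' S) (hS.image _) (hne.image _)
        (image_sym hsym π) ⟨?_, ?_, ?_⟩ (by omega)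
      · intro i hi k hk
        exact hR.bi i (Finset.mem_of_mem_erase hi) k (Finset.mem_of_mem_erase hk)
      · rintro i hi _ ⟨x, hx, rfl⟩
        obtain ⟨hii, hiI⟩ := Finset.mem_erase.1 hi
        refine ⟨x - (2 * f i x) • e i, hR.inv i hiI x hx, ?_⟩
        have h3 : f i (π x) = f i x := by
          rw [hπa, map_sub, map_smul, hfie i hiI hii, smul_zero, sub_zero]
        rw [h3, hπa, hπa, hpres i hiI hii]
        abel
      · intro i hi
        obtain ⟨hii, hiI⟩ := Finset.mem_erase.1 hi
        rw [Submodule.span_image]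
        refine ⟨e i, hR.mem i hiI, ?_⟩
        rw [hπa, hR.bi i₀ hi₀ i hiI, if_neg (fun h => hii h.symm), zero_smul, sub_zero]
    -- (2)
    set T : Set V := (fun x => x - e') '' D with hT
    have hDfin : D.Finite := hS.subset hD.1
    have hTfin : T.Finite := hDfin.image _
    have hTne : T.Nonempty := ⟨_, x₀, hx₀D, rfl⟩
    have hTsym : ∀ x ∈ T, -x ∈ T := by
      rintro _ ⟨x, hx, rfl⟩
      refine ⟨(2 : ℝ) • e' - x, hcs x hx, ?_⟩
      simp only [two_smul]
      abel
    have hNFT : NF T ≤ NF D := by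
      have h3 := NF_le_image hTfin (LinearMap.id (R := ℝ) (M := V)) Function.injective_id e'
      have h4 : (fun x => (LinearMap.id (R := ℝ) (M := V)) x + e') '' T = D := by
        rw [hT, Set.image_image]
        simp
      rw [h4] at h3
      exact h3
    have hfT : ∀ x ∈ Submodule.span ℝ T, f i₀ x = 0 := by
      intro x hx
      have h3 : Submodule.span ℝ T ≤ LinearMap.ker (f i₀) := by
        rw [Submodule.span_le]
        rintro _ ⟨y, hy, rfl⟩
        change f i₀ (y - e') = 0
        rw [map_sub, hfe', ((hDval y).1 hy).2, sub_self]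
      exact h3 hx
    have he'D : e' ∈ Submodule.span ℝ D := by
      have h3 := Submodule.add_mem _ (Submodule.subset_span (R := ℝ) hx₀D)
        (Submodule.subset_span (R := ℝ) (hcs x₀ hx₀D))
      have h4 : x₀ + ((2 : ℝ) • e' - x₀) = (2 : ℝ) • e' := by abel
      rw [h4] at h3
      have h5 := Submodule.smul_mem _ (2⁻¹ : ℝ) h3
      rwa [smul_smul, inv_mul_cancel₀ (by norm_num : (2 : ℝ) ≠ 0), one_smul] at h5
    have hspanD : Submodule.span ℝ D = Submodule.span ℝ T ⊔ Submodule.span ℝ {e'} := by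
      apply le_antisymm
      · rw [Submodule.span_le]
        intro x hx
        have h3 : x - e' ∈ Submodule.span ℝ T := Submodule.subset_span ⟨x, hx, rfl⟩
        have h4 := Submodule.add_mem_sup h3 (Submodule.mem_span_singleton_self (R := ℝ) e')
        rwa [sub_add_cancel] at h4
      · refine sup_le ?_ ?_
        · rw [Submodule.span_le]
          rintro _ ⟨x, hx, rfl⟩
          exact Submodule.sub_mem _ (Submodule.subset_span hx) he'D
        · rw [Submodule.span_singleton_le_iff_mem]
          exact he'D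
    have hfdT : FiniteDimensional ℝ (Submodule.span ℝ T) :=
      FiniteDimensional.span_of_finite ℝ hTfin
    have hdmD : dm D = dm T + 1 := by
      unfold dm
      rw [hspanD]
      have h3 := Submodule.finrank_sup_add_finrank_inf_eq (Submodule.span ℝ T)
        (Submodule.span ℝ {e'})
      have h4 : (Submodule.span ℝ T ⊓ Submodule.span ℝ {e'} : Submodule ℝ V) = ⊥ := by
        rw [eq_bot_iff]
        rintro x ⟨hx1, hx2⟩
        obtain ⟨t, rfl⟩ := Submodule.mem_span_singleton.1 hx2
        have h5 := hfT _ hx1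
        rw [map_smul, hfe', smul_eq_mul] at h5
        have h6 : t = 0 := by
          rcases mul_eq_zero.1 h5 with h | h
          · exact h
          · exact absurd h hMpos.ne'
        rw [h6, zero_smul]
        exact Submodule.zero_mem _
      rw [h4, finrank_bot, finrank_span_singleton, add_zero] at h3
      · exact h3
      · intro h0
        rw [h0, map_zero] at hfe'
        exact hMpos.ne hfe'
    set I2 : Finset ι := (I.erase i₀).filter (fun i => ∃ x ∈ D, f i x ≠ 0) with hI2
    set I3 : Finset ι := (I.erase i₀).filter (fun i => ¬ ∃ x ∈ D, f i x ≠ 0) with hI3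
    have hcard23 : I2.card + I3.card = (I.erase i₀).card :=
      Finset.card_filter_add_card_filter_not _
    have hI2m : ∀ i ∈ I2, i ∈ I ∧ i ≠ i₀ ∧ ∃ x ∈ D, f i x ≠ 0 := by
      intro i hi
      obtain ⟨h3, h4⟩ := Finset.mem_filter.1 hi
      obtain ⟨h5, h6⟩ := Finset.mem_erase.1 h3
      exact ⟨h6, h5, h4⟩
    have hI3m : ∀ i ∈ I3, i ∈ I ∧ i ≠ i₀ ∧ ∀ x ∈ D, f i x = 0 := by
      intro i hi
      obtain ⟨h3, h4⟩ := Finset.mem_filter.1 hi
      obtain ⟨h5, h6⟩ := Finset.mem_erase.1 h3
      push Not at h4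
      exact ⟨h6, h5, h4⟩
    have hR2 : Refl I2 e f T := by
      refine ⟨?_, ?_, ?_⟩
      · intro i hi k hk
        exact hR.bi i (hI2m i hi).1 k (hI2m k hk).1
      · rintro i hi _ ⟨x, hx, rfl⟩
        obtain ⟨hiI, hii, -⟩ := hI2m i hi
        refine ⟨x - (2 * f i x) • e i, hinvD i hiI hii x hx, ?_⟩
        simp only [map_sub, hfie' i hiI hii, sub_zero]
        abel
      · intro i hi
        obtain ⟨hiI, hii, x, hx, hfx⟩ := hI2m i hi
        have h3 : x - e' ∈ Submodule.span ℝ T := Submodule.subset_span ⟨x, hx, rfl⟩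
        have h4 : x - (2 * f i x) • e i - e' ∈ Submodule.span ℝ T :=
          Submodule.subset_span ⟨_, hinvD i hiI hii x hx, rfl⟩
        have h5 := Submodule.sub_mem _ h3 h4
        have h6 : x - e' - (x - (2 * f i x) • e i - e') = (2 * f i x) • e i := by abel
        rw [h6] at h5
        have h7 := Submodule.smul_mem _ (2 * f i x)⁻¹ h5
        rwa [smul_smul, inv_mul_cancel₀ (mul_ne_zero two_ne_zero hfx), one_smul] at h7
    have hcard2 : I2.card ≤ dm T := card_le_of_biorth hR2.bi hR2.mem
    -- (3)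
    obtain ⟨ρ, hρa, hρ0⟩ := exists_proj (Submodule.span ℝ D)
    have hρker : LinearMap.ker ρ = Submodule.span ℝ D := by
      apply le_antisymm
      · intro x hx
        have h3 := hρa x
        rw [LinearMap.mem_ker.1 hx, sub_zero] at h3
        exact h3
      · intro x hx
        exact LinearMap.mem_ker.2 (hρ0 x hx)
    have hρD : ∀ x ∈ D, ρ x = 0 := fun x hx => hρ0 x (Submodule.subset_span hx)
    have hρe' : ρ e' = 0 := hρ0 _ he'D
    set U : Set V := star S D h ρ with hU
    have hUfin : U.Finite := (hS.subset Set.sdiff_subset).image _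
    have hUne : U.Nonempty := ⟨_, -x₀, ⟨hsym x₀ hx₀, hnegD x₀ hx₀D⟩, rfl⟩
    have hUsym : ∀ x ∈ U, -x ∈ U := by
      rintro _ ⟨v, ⟨hvS, hvD⟩, rfl⟩
      have h3 : -(v - (2 * f i₀ v) • e i₀) ∈ S := hsym _ (hR.inv i₀ hi₀ v hvS)
      have h4 : f i₀ (-(v - (2 * f i₀ v) • e i₀)) = f i₀ v := by
        rw [map_neg, map_sub, map_smul, hfe, smul_eq_mul]
        ring
      have h5 : -(v - (2 * f i₀ v) • e i₀) ∉ D := by
        intro hc
        have h6 := ((hDval _).1 hc).2
        rw [h4] at h6
        exact hvD ((hDval v).2 ⟨hvS, h6⟩)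
      refine ⟨_, ⟨h3, h5⟩, ?_⟩
      have h6 : ρ (e i₀) = 0 := by
        have h7 : e i₀ = M⁻¹ • e' := by
          rw [he', smul_smul, inv_mul_cancel₀ hMpos.ne', one_smul]
        rw [h7, map_smul, hρe', smul_zero]
      simp only [happ, h4]
      rw [map_neg, map_sub, map_smul, h6, smul_zero, sub_zero, smul_neg]
    have hρU : ∀ v ∈ S, ρ v ∈ Submodule.span ℝ U := by
      intro v hv
      by_cases hvD : v ∈ D
      · rw [hρD v hvD]
        exact Submodule.zero_mem _
      · have h3 : (1 - h v)⁻¹ • ρ v ∈ Submodule.span ℝ U :=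
          Submodule.subset_span ⟨v, ⟨hv, hvD⟩, rfl⟩
        have h4 := Submodule.smul_mem _ (1 - h v) h3
        have h5 : (1 - h v) ≠ 0 := by
          have := h2 v hv hvD
          linarith [this] |> fun h : 0 < 1 - h v => h.ne'
        rwa [smul_smul, mul_inv_cancel₀ h5, one_smul] at h4
    have hspanU : Submodule.span ℝ U = (Submodule.span ℝ S).map ρ := by
      apply le_antisymm
      · rw [Submodule.span_le]
        rintro _ ⟨v, ⟨hvS, hvD⟩, rfl⟩
        refine Submodule.smul_mem _ _ ?_
        exact ⟨v, Submodule.subset_span hvS, rfl⟩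
      · rw [Submodule.map_span, Submodule.span_le]
        rintro _ ⟨v, hv, rfl⟩
        exact hρU v hv
    have hfdU : FiniteDimensional ℝ (Submodule.span ℝ U) :=
      FiniteDimensional.span_of_finite ℝ hUfin
    have hdmU : dm U + dm D = dm S := by
      have h3 := dm_image hS ρ
      have h4 : (LinearMap.ker ρ ⊓ Submodule.span ℝ S : Submodule ℝ V) =
          Submodule.span ℝ D := by
        rw [hρker]
        exact inf_eq_left.2 (Submodule.span_mono hD.1)
      rw [h4] at h3
      unfold dm at h3 ⊢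
      rw [Submodule.span_image] at h3
      rw [hspanU]
      exact h3
    have hfρ : ∀ i ∈ I3, ∀ x, f i (ρ x) = f i x := by
      intro i hi x
      obtain ⟨-, -, h3⟩ := hI3m i hi
      have h4 : Submodule.span ℝ D ≤ LinearMap.ker (f i) :=
        Submodule.span_le.2 fun y hy => LinearMap.mem_ker.2 (h3 y hy)
      have h5 := LinearMap.mem_ker.1 (h4 (hρa x))
      rw [map_sub] at h5
      linarith
    have hR3 : Refl I3 (fun i => ρ (e i)) f U := by
      refine ⟨?_, ?_, ?_⟩
      · intro i hi k hk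
        rw [hfρ i hi]
        exact hR.bi i (hI3m i hi).1 k (hI3m k hk).1
      · rintro i hi _ ⟨v, ⟨hvS, hvD⟩, rfl⟩
        obtain ⟨hiI, hii, h3⟩ := hI3m i hi
        have h4 := hpres i hiI hii v
        have h5 : v - (2 * f i v) • e i ∈ S := hR.inv i hiI v hvS
        have h6 : v - (2 * f i v) • e i ∉ D := by
          intro hc
          have h7 := ((hDval _).1 hc).2
          rw [h4] at h7
          exact hvD ((hDval v).2 ⟨hvS, h7⟩)
        refine ⟨_, ⟨h5, h6⟩, ?_⟩
        simp only [happ, h4]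
        rw [map_sub, map_smul, map_smul, hfρ i hi, smul_sub, smul_smul, smul_eq_mul]
        congr 2
        ring
      · intro i hi
        rw [hspanU]
        exact ⟨e i, hR.mem i (hI3m i hi).1, rfl⟩
    have hcard3 : I3.card ≤ dm U := card_le_of_biorth hR3.bi hR3.mem
    have hstar : NF U ≤ nD S D := by
      refine star_le hS hD hDS h1 h2 ρ hρD ?_
      rintro ψ ⟨u, hu, hψ⟩
      rcases lt_or_gt_of_ne hψ with hlt | hgt
      · refine ⟨-u, hUsym u hu, ?_⟩
        rw [map_neg]
        linarith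
      · exact ⟨u, hu, hgt⟩
    have hA2 : 3 ^ dm T ≤ NF T :=
      ih I2 (by omega) e f T hTfin hTne hTsym hR2 (by omega)
    have hA3 : 3 ^ dm U ≤ NF U :=
      ih I3 (by omega) _ f U hUfin hUne hUsym hR3 (by omega)
    have hA4 : 3 ^ dm T * 3 ^ dm U ≤ NF D * nD S D :=
      Nat.mul_le_mul (hA2.trans hNFT) (hA3.trans hstar)
    have hA5 : 3 ^ dm T * 3 ^ dm U = 3 ^ dm (π '' S) := by
      rw [← pow_add]
      congr 1
      omega
    have hA6 : 3 ^ dm S = 3 ^ dm (π '' S) * 3 := by
      rw [← hdm1, pow_succ]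
    rw [hA5] at hA4
    rw [hA6]
    omega

end Pool.Agent.K3R
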