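import Pool.Agent.K3R.Central

/-!
# The star of a face
-/

set_option autoImplicit false

namespace Pool.Agent.K3R

variable {V : Type} [AddCommGroup V] [Module ℝ V]

/-- the face where `ψ` is maximal -/
def mx (S : Set V) (ψ : V →ₗ[ℝ] ℝ) : Set V := {x | x ∈ S ∧ ∀ y ∈ S, ψ y ≤ ψ x}

theorem mx_isF {S : Set V} (hS : S.Finite) (hne : S.Nonempty) (ψ : V →ₗ[ℝ] ℝ) :
    IsF S (mx S ψ) := by
  obtain ⟨x, hx, hmax⟩ := Set.exists_max_image S ψ hS hne
  refine ⟨fun y hy => hy.1, ⟨x, hx, hmax⟩, ψ, ψ x, ?_, ?_⟩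
  · intro y hy
    exact le_antisymm (hmax y hy.1) (hy.2 x hx)
  · intro y hy hy'
    by_contra h
    rw [not_lt] at h
    exact hy' ⟨hy, fun z hz => (hmax z hz).trans h⟩

theorem three_le_NF {S : Set V} (hS : S.Finite) (ψ : V →ₗ[ℝ] ℝ) {x y : V} (hx : x ∈ S)
    (hy : y ∈ S) (hxy : ψ x ≠ ψ y) : 3 ≤ NF S := by
  classical
  have hne : S.Nonempty := ⟨x, hx⟩
  have hA := mx_isF hS hne ψ
  have hB := mx_isF hS hne (-ψ)
  have hAS : mx S ψ ≠ S := by
    intro h
    have h1 : x ∈ mx S ψ := by rw [h]; exact hx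
    have h2 : y ∈ mx S ψ := by rw [h]; exact hy
    exact hxy (le_antisymm (h2.2 x hx) (h1.2 y hy))
  have hBS : mx S (-ψ) ≠ S := by
    intro h
    have h1 : x ∈ mx S (-ψ) := by rw [h]; exact hx
    have h2 : y ∈ mx S (-ψ) := by rw [h]; exact hy
    have h3 := h2.2 x hx
    have h4 := h1.2 y hy
    simp only [LinearMap.neg_apply, neg_le_neg_iff] at h3 h4
    exact hxy (le_antisymm h4 h3)
  have hAB : mx S ψ ≠ mx S (-ψ) := by
    intro h
    obtain ⟨z, hz⟩ := hA.2.1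
    have hz' : z ∈ mx S (-ψ) := by rw [← h]; exact hz
    apply hxy
    have h1 := hz.2 x hx
    have h2 := hz.2 y hy
    have h3 := hz'.2 x hx
    have h4 := hz'.2 y hy
    simp only [LinearMap.neg_apply, neg_le_neg_iff] at h3 h4
    linarith
  have hsub : ({mx S ψ, mx S (-ψ), S} : Set (Set V)) ⊆ Fc S := by
    rintro C (rfl | rfl | rfl)
    · exact hA
    · exact hB
    · exact IsF.self hne
  have hle := Set.ncard_le_ncard hsub (Fc_finite hS)
  have hc : ({mx S ψ, mx S (-ψ), S} : Set (Set V)).ncard = 3 := by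
    rw [Set.ncard_eq_three]
    exact ⟨_, _, _, hAB, hAS, hBS, rfl⟩
  rw [hc] at hle
  exact hle

/-- the star configuration of the face `D = {h = 1}` -/
def star {W : Type} [AddCommGroup W] [Module ℝ W] (S D : Set V) (h : V →ₗ[ℝ] ℝ)
    (ρ : V →ₗ[ℝ] W) : Set W :=
  (fun v => (1 - h v)⁻¹ • ρ v) '' (S \ D)

theorem star_le {W : Type} [AddCommGroup W] [Module ℝ W] {S D : Set V} (hS : S.Finite)
    (hD : IsF S D) (hDS : D ≠ S) {h : V →ₗ[ℝ] ℝ} (h1 : ∀ x ∈ D, h x = 1)
    (h2 : ∀ x ∈ S, x ∉ D → h x < 1) (ρ : V →ₗ[ℝ] W) (hρ : ∀ x ∈ D, ρ x = 0)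
    (hU : ∀ ψ : W →ₗ[ℝ] ℝ, (∃ u ∈ star S D h ρ, ψ u ≠ 0) → ∃ u ∈ star S D h ρ, 0 < ψ u) :
    NF (star S D h ρ) ≤ nD S D := by
  classical
  set U : Set W := star S D h ρ with hUdef
  set u : V → W := fun v => (1 - h v)⁻¹ • ρ v with hu
  have huU : ∀ v ∈ S, v ∉ D → u v ∈ U := fun v hv hv' => ⟨v, ⟨hv, hv'⟩, rfl⟩
  set Cf : Set W → Set V := fun B => if B = U then D else D ∪ {v | v ∈ S ∧ v ∉ D ∧ u v ∈ B}
    with hCf
  unfold NF nD
  refine Set.ncard_le_ncard_of_injOn Cf ?_ ?_ (Up_finite hS)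
  · intro B hB
    by_cases hBU : B = U
    · simp only [hCf, hBU, if_true]
      exact ⟨hD, subset_rfl, hDS⟩
    · simp only [hCf, if_neg hBU]
      obtain ⟨hBsub, hBne, ψ, c, k1, k2⟩ := hB
      have hex : ∃ w ∈ U, w ∉ B := by
        by_contra hcon
        push Not at hcon
        exact hBU (subset_antisymm hBsub hcon)
      obtain ⟨w, hwU, hwB⟩ := hex
      have hc : 0 < c := by
        by_contra hc
        rw [not_lt] at hc
        have h3 := k2 w hwU hwB
        obtain ⟨w', hw', hw'p⟩ := hU ψ ⟨w, hwU, by linarith [h3] |> fun h : ψ w < 0 => h.ne⟩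
        by_cases hw'B : w' ∈ B
        · have := k1 w' hw'B
          linarith
        · have := k2 w' hw' hw'B
          linarith
      refine ⟨⟨?_, ?_, h + c⁻¹ • (ψ ∘ₗ ρ), 1, ?_, ?_⟩, Set.subset_union_left, ?_⟩
      · rintro v (hv | hv)
        · exact hD.1 hv
        · exact hv.1
      · exact hD.2.1.mono Set.subset_union_left
      · rintro v (hv | ⟨hvS, hvD, hvB⟩)
        · simp only [LinearMap.add_apply, LinearMap.smul_apply, LinearMap.comp_apply,
            hρ v hv, map_zero, h1 v hv, smul_eq_mul]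
          ring
        · have h3 := k1 _ hvB
          have h4 : 0 < 1 - h v := by
            have := h2 v hvS hvD
            linarith
          simp only [hu, map_smul, smul_eq_mul] at h3
          simp only [LinearMap.add_apply, LinearMap.smul_apply, LinearMap.comp_apply,
            smul_eq_mul]
          have h5 : ψ (ρ v) = c * (1 - h v) := by
            rw [← h3]
            field_simp
          rw [h5]
          field_simp
          ring
      · intro v hvS hv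
        have hvD : v ∉ D := fun h => hv (Or.inl h)
        have hvB : u v ∉ B := fun h => hv (Or.inr ⟨hvS, hvD, h⟩)
        have h3 := k2 _ (huU v hvS hvD) hvB
        have h4 : 0 < 1 - h v := by
          have := h2 v hvS hvD
          linarith
        simp only [hu, map_smul, smul_eq_mul] at h3
        simp only [LinearMap.add_apply, LinearMap.smul_apply, LinearMap.comp_apply,
          smul_eq_mul]
        have h5 : ψ (ρ v) < c * (1 - h v) := by
          have := mul_lt_mul_of_pos_right h3 h4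
          have h6 : (1 - h v)⁻¹ * ψ (ρ v) * (1 - h v) = ψ (ρ v) := by
            field_simp
          rw [h6] at this
          exact this
        have h7 : c⁻¹ * ψ (ρ v) < c⁻¹ * (c * (1 - h v)) :=
          mul_lt_mul_of_pos_left h5 (inv_pos.2 hc)
        have h8 : c⁻¹ * (c * (1 - h v)) = 1 - h v := by
          field_simp
        linarith
      · intro hCS
        obtain ⟨v, ⟨hvS, hvD⟩, rfl⟩ := hwU
        have : v ∈ D ∪ {v | v ∈ S ∧ v ∉ D ∧ u v ∈ B} := by
          rw [hCS]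
          exact hvS
        rcases this with h | ⟨_, _, h⟩
        · exact hvD h
        · exact hwB h
  · -- injectivity
    have key : ∀ B ∈ Fc U, ∀ B' ∈ Fc U, B ≠ U →
        D ∪ {v | v ∈ S ∧ v ∉ D ∧ u v ∈ B} ⊆ D ∪ {v | v ∈ S ∧ v ∉ D ∧ u v ∈ B'} → B ⊆ B' := by
      intro B hB B' hB' _ hsub w hw
      obtain ⟨v, ⟨hvS, hvD⟩, rfl⟩ := hB.1 hw
      rcases hsub (Or.inr ⟨hvS, hvD, hw⟩) with h | ⟨_, _, h⟩
      · exact absurd h hvD
      · exact h
    have key2 : ∀ B ∈ Fc U, D ∪ {v | v ∈ S ∧ v ∉ D ∧ u v ∈ B} ≠ D := by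
      intro B hB heq
      obtain ⟨w, hw⟩ := hB.2.1
      obtain ⟨v, ⟨hvS, hvD⟩, rfl⟩ := hB.1 hw
      have : v ∈ D := by
        rw [← heq]
        exact Or.inr ⟨hvS, hvD, hw⟩
      exact hvD this
    intro B hB B' hB' heq
    by_cases hBU : B = U
    · by_cases hBU' : B' = U
      · rw [hBU, hBU']
      · simp only [hCf, if_pos hBU, if_neg hBU'] at heq
        exact absurd heq.symm (key2 B' hB')
    · by_cases hBU' : B' = U
      · simp only [hCf, if_neg hBU, if_pos hBU'] at heq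
        exact absurd heq (key2 B hB)
      · simp only [hCf, if_neg hBU, if_neg hBU'] at heq
        exact subset_antisymm (key B hB B' hB' hBU heq.subset)
          (key B' hB' B hB hBU' heq.symm.subset)

/-- normalised exposing functional of a proper face -/
theorem exists_norm {S D : Set V} (hsym : ∀ x ∈ S, -x ∈ S) (hD : IsF S D) (hDS : D ≠ S) :
    ∃ h : V →ₗ[ℝ] ℝ, (∀ x ∈ D, h x = 1) ∧ ∀ x ∈ S, x ∉ D → h x < 1 := by
  obtain ⟨hsub, hne, φ, c, h1, h2⟩ := hD
  have hc := pos_of_ne hsym hsub hDS hne h1 h2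
  refine ⟨c⁻¹ • φ, fun x hx => ?_, fun x hx hx' => ?_⟩
  · rw [LinearMap.smul_apply, h1 x hx, smul_eq_mul, inv_mul_cancel₀ hc.ne']
  · rw [LinearMap.smul_apply, smul_eq_mul]
    have := mul_lt_mul_of_pos_left (h2 x hx hx') (inv_pos.2 hc)
    rwa [inv_mul_cancel₀ hc.ne'] at this

theorem three_le_nD {S D : Set V} (hS : S.Finite) (hsym : ∀ x ∈ S, -x ∈ S) (hD : IsF S D)
    (hDS : D ≠ S) (ψ : V →ₗ[ℝ] ℝ) (hψ : ∀ x ∈ D, ψ x = 0) {y : V} (hy : y ∈ S)
    (hψy : ψ y ≠ 0) : 3 ≤ nD S D := by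
  obtain ⟨h, h1, h2⟩ := exists_norm hsym hD hDS
  have hyD : ∀ z ∈ S, ψ z ≠ 0 → z ∉ D := fun z _ hz hzD => hz (hψ z hzD)
  -- an element with positive value
  have hpos : ∃ z ∈ S, 0 < ψ z := by
    rcases lt_or_gt_of_ne hψy with hlt | hgt
    · refine ⟨-y, hsym y hy, ?_⟩
      rw [map_neg]
      linarith
    · exact ⟨y, hy, hgt⟩
  obtain ⟨z, hz, hzp⟩ := hpos
  have hzn : ψ (-z) < 0 := by rw [map_neg]; linarith
  have hval : ∀ v ∈ S, v ∉ D → 0 < (1 - h v)⁻¹ := fun v hv hv' => by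
    have := h2 v hv hv'
    exact inv_pos.2 (by linarith)
  have hup : (1 - h z)⁻¹ • ψ z ∈ star S D h ψ := ⟨z, ⟨hz, hyD z hz hzp.ne'⟩, rfl⟩
  have hun : (1 - h (-z))⁻¹ • ψ (-z) ∈ star S D h ψ :=
    ⟨-z, ⟨hsym z hz, hyD _ (hsym z hz) hzn.ne⟩, rfl⟩
  have hupp : 0 < (1 - h z)⁻¹ • ψ z := by
    rw [smul_eq_mul]
    exact mul_pos (hval z hz (hyD z hz hzp.ne')) hzp
  have hunn : (1 - h (-z))⁻¹ • ψ (-z) < 0 := by
    rw [smul_eq_mul]
    exact mul_neg_of_pos_of_neg (hval _ (hsym z hz) (hyD _ (hsym z hz) hzn.ne)) hzn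
  have hUfin : (star S D h ψ).Finite := (hS.subset Set.sdiff_subset).image _
  refine le_trans ?_ (star_le hS hD hDS h1 h2 ψ hψ ?_)
  · exact three_le_NF hUfin LinearMap.id hup hun (by
      simp only [LinearMap.id_apply]
      exact (hunn.trans hupp).ne')
  · rintro χ ⟨w, hw, hχw⟩
    have hχ : ∀ t : ℝ, χ t = t * χ 1 := fun t => by
      rw [← smul_eq_mul, ← map_smul, smul_eq_mul, mul_one]
    have hχ1 : χ 1 ≠ 0 := by
      intro h0
      apply hχw
      rw [hχ, h0, mul_zero]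
    rcases lt_or_gt_of_ne hχ1 with hlt | hgt
    · refine ⟨_, hun, ?_⟩
      rw [hχ]
      exact mul_pos_of_neg_of_neg hunn hlt
    · refine ⟨_, hup, ?_⟩
      rw [hχ]
      exact mul_pos hupp hgt

end Pool.Agent.K3R
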